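import Pool.Agent.MP_cb3c9c_an.UNI.Even

set_option autoImplicit false

open Finset

namespace Pool.Agent.MP_cb3c9c_an.UNI

variable {n : ℕ}

/-- degree-at-most-one weight -/
noncomputable def W1 (g : (Fin n → Bool) → ℝ) : ℝ :=
  (E g) ^ 2 + ∑ i, (E (fun x => g x * (sg (x i) : ℝ))) ^ 2

theorem W1_form (f : (Fin n → Bool) → ℝ) :
    ((∑ x, f x) / (2:ℝ) ^ n) ^ 2 +
      ∑ i, ((∑ x, f x * (if x i then (-1:ℝ) else 1)) / (2:ℝ) ^ n) ^ 2 = W1 f := by
  unfold W1 E
  simp_rw [sg_cast]

/-- The general lower bound `5/9` (proved in the hand-in `TwoBlock`). -/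
def TBStmt : Prop :=
  ∀ n : ℕ, ∀ f : (Fin n → Bool) → ℝ, ∀ a : Fin n → ℝ, ∀ a0 : ℝ,
      (∀ x, f x = 1 ∨ f x = -1) →
      (∀ x, 0 < f x * (a0 + ∑ i, a i * (if x i then (-1:ℝ) else 1))) →
      5 / 9 ≤ ((∑ x, f x) / (2:ℝ) ^ n) ^ 2 +
          ∑ i, ((∑ x, f x * (if x i then (-1:ℝ) else 1)) / (2:ℝ) ^ n) ^ 2

/-- real form -/
noncomputable def Rf (b : Fin n → ℝ) (x : Fin n → Bool) : ℝ := ∑ i, b i * (sg (x i) : ℝ)

theorem Rf_form (b : Fin n → ℝ) (x : Fin n → Bool) :
    ∑ i, b i * (if x i then (-1:ℝ) else 1) = Rf b x := by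
  unfold Rf; simp_rw [sg_cast]

structure Tail (a : Fin n → ℤ) (b : Fin n → ℝ) (c0 C : ℝ) (g : (Fin n → Bool) → ℝ) : Prop where
  hg : ∀ x, g x = 1 ∨ g x = -1
  hb : ∀ x, 0 < g x * (c0 + Rf b x)
  disj : ∀ i, a i = 0 ∨ b i = 0
  Cpos : 0 < C
  small : |c0| + ∑ i, |b i| < 2 * C

theorem Tail.dep {a : Fin n → ℤ} {b : Fin n → ℝ} {c0 C : ℝ} {g : (Fin n → Bool) → ℝ}
    (hT : Tail a b c0 C g) (x y : Fin n → Bool) (h : ∀ i, a i = 0 → x i = y i) : g x = g y := by
  have h1 : Rf b x = Rf b y := by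
    unfold Rf
    apply sum_congr rfl
    intro i _
    rcases hT.disj i with h2 | h2
    · rw [h i h2]
    · rw [h2]; ring
  have hx := hT.hb x
  have hy := hT.hb y
  rw [h1] at hx
  rcases hT.hg x with h2 | h2 <;> rcases hT.hg y with h3 | h3
  · rw [h2, h3]
  · rw [h2] at hx; rw [h3] at hy; linarith
  · rw [h2] at hx; rw [h3] at hy; linarith
  · rw [h2, h3]

/-- independence of the head and the tail -/
theorem E_indep (a : Fin n → ℤ) (φ : ℤ → ℝ) (v : (Fin n → Bool) → ℝ)
    (hv : ∀ x y : Fin n → Bool, (∀ i, a i = 0 → x i = y i) → v x = v y) :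
    E (fun x => φ (Zf a x) * v x) = E (fun x => φ (Zf a x)) * E v := by
  classical
  let mx : (Fin n → Bool) → (Fin n → Bool) → (Fin n → Bool) :=
    fun x y i => if a i = 0 then y i else x i
  let τ : (Fin n → Bool) × (Fin n → Bool) → (Fin n → Bool) × (Fin n → Bool) :=
    fun z => (mx z.1 z.2, mx z.2 z.1)
  have hτ : Function.Involutive τ := by
    intro z
    apply Prod.ext
    · funext i
      simp only [τ, mx]
      split_ifs <;> rfl
    · funext i
      simp only [τ, mx]
      split_ifs <;> rfl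
  have hZ : ∀ x y, Zf a (mx x y) = Zf a x := by
    intro x y
    unfold Zf
    apply sum_congr rfl
    intro i _
    simp only [mx]
    split_ifs with h
    · rw [h]; ring
    · rfl
  have hvm : ∀ x y, v (mx y x) = v x := by
    intro x y
    apply hv
    intro i hi
    simp only [mx]
    rw [if_pos hi]
  have h1 : ∑ z : (Fin n → Bool) × (Fin n → Bool), φ (Zf a z.1) * v z.2
      = ∑ z : (Fin n → Bool) × (Fin n → Bool), φ (Zf a z.1) * v z.1 := by
    rw [← (hτ.bijective).sum_comp (fun z => φ (Zf a z.1) * v z.2)]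
    apply sum_congr rfl
    intro z _
    show φ (Zf a (mx z.1 z.2)) * v (mx z.2 z.1) = _
    rw [hZ, hvm]
  rw [Fintype.sum_prod_type, Fintype.sum_prod_type] at h1
  have h2 : ∑ x : Fin n → Bool, ∑ y : Fin n → Bool, φ (Zf a x) * v y
      = (∑ x, φ (Zf a x)) * (∑ y, v y) := by
    rw [sum_mul_sum]
  have h3 : ∑ x : Fin n → Bool, ∑ y : Fin n → Bool, φ (Zf a x) * v x
      = 2 ^ n * ∑ x, φ (Zf a x) * v x := by
    rw [mul_sum]
    apply sum_congr rfl
    intro x _
    rw [sum_const, card_univ, nsmul_eq_mul]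
    simp
  rw [h2, h3] at h1
  unfold E
  have h2n : (2:ℝ) ^ n ≠ 0 := by positivity
  field_simp
  linarith

theorem p_of_zero (a : Fin n → ℤ) (i : Fin n) (h : a i = 0) : p a i = 0 := by
  unfold p
  rw [E_bit a i sn, h]
  have : E (fun x => (sn (Yf a i x + 0) - sn (Yf a i x - 0)) / 2) = E (fun _ : Fin n → Bool => (0:ℝ)) := by
    apply E_congr; intro x; rw [add_zero, sub_zero]; ring
  rw [this]; unfold E; simp

/-- the composed function -/
noncomputable def Fc (a : Fin n → ℤ) (g : (Fin n → Bool) → ℝ) (x : Fin n → Bool) : ℝ :=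
  sn (Zf a x) + ind (Zf a x) 0 * g x

theorem W1_comp {a : Fin n → ℤ} {b : Fin n → ℝ} {c0 C : ℝ} {g : (Fin n → Bool) → ℝ}
    (hT : Tail a b c0 C g) : W1 (Fc a g) = Wb a (W1 g) := by
  classical
  have hmean : E (Fc a g) = Pz a 0 * E g := by
    have e1 : E (Fc a g) = E (fun x => sn (Zf a x) + ind (Zf a x) 0 * g x) := rfl
    rw [e1, E_add, E_sn, zero_add]
    exact E_indep a (fun z => ind z 0) g hT.dep
  have hco : ∀ i, (E (fun x => Fc a g x * (sg (x i) : ℝ))) ^ 2
      = (p a i) ^ 2 + (Pz a 0) ^ 2 * (E (fun x => g x * (sg (x i) : ℝ))) ^ 2 := by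
    intro i
    have e1 : E (fun x => Fc a g x * (sg (x i) : ℝ))
        = p a i + E (fun x => ind (Zf a x) 0 * (g x * (sg (x i) : ℝ))) := by
      unfold p
      rw [← E_add]
      apply E_congr
      intro x
      unfold Fc; ring
    by_cases h0 : a i = 0
    · have e2 : E (fun x => ind (Zf a x) 0 * (g x * (sg (x i) : ℝ)))
          = Pz a 0 * E (fun x => g x * (sg (x i) : ℝ)) := by
        apply E_indep a (fun z => ind z 0) (fun x => g x * (sg (x i) : ℝ))
        intro x y hxy
        rw [hT.dep x y hxy, hxy i h0]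
      rw [e1, e2, p_of_zero a i h0]; ring
    · -- head coordinate
      have e2 : E (fun x => ind (Zf a x) 0 * (g x * (sg (x i) : ℝ))) = 0 := by
        have h1 := E_mask (fun k => decide (a k ≠ 0)) (fun x => ind (Zf a x) 0 * (g x * (sg (x i) : ℝ)))
        have h2 : E (fun x => (fun x => ind (Zf a x) 0 * (g x * (sg (x i) : ℝ)))
            (fun k => xor (decide (a k ≠ 0)) (x k)))
            = E (fun x => (-1) * (ind (Zf a x) 0 * (g x * (sg (x i) : ℝ)))) := by
          apply E_congr
          intro x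
          have hZ : Zf a (fun k => xor (decide (a k ≠ 0)) (x k)) = - Zf a x := by
            unfold Zf
            rw [← sum_neg_distrib]
            apply sum_congr rfl
            intro k _
            by_cases hk : a k = 0
            · rw [hk]; ring
            · have h9 : decide (a k ≠ 0) = true := by simpa using hk
              show a k * sg (xor (decide (a k ≠ 0)) (x k)) = -(a k * sg (x k))
              rw [h9, sg_xor]
              have : sg true = -1 := rfl
              rw [this]; ring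
          have hgx : g (fun k => xor (decide (a k ≠ 0)) (x k)) = g x := by
            apply hT.dep
            intro k hk
            have : decide (a k ≠ 0) = false := by simpa using hk
            show xor (decide (a k ≠ 0)) (x k) = x k
            rw [this]; cases x k <;> rfl
          have hs : sg (xor (decide (a i ≠ 0)) (x i)) = - sg (x i) := by
            have : decide (a i ≠ 0) = true := by simpa using h0
            rw [this, sg_xor]
            have : sg true = -1 := rfl
            rw [this]; ring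
          show ind (Zf a (fun k => xor (decide (a k ≠ 0)) (x k))) 0
            * (g (fun k => xor (decide (a k ≠ 0)) (x k)) * (sg (xor (decide (a i ≠ 0)) (x i)) : ℝ)) = _
          rw [hZ, hgx, hs, ind_neg, neg_zero]
          push_cast; ring
        rw [h2, E_mul] at h1
        linarith
      have e3 : E (fun x => g x * (sg (x i) : ℝ)) = 0 := by
        have h1 := E_flip i (fun x => g x * (sg (x i) : ℝ))
        have h2 : E (fun x => (fun x => g x * (sg (x i) : ℝ)) (flip i x))
            = E (fun x => (-1) * (g x * (sg (x i) : ℝ))) := by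
          apply E_congr
          intro x
          have hgx : g (flip i x) = g x := by
            apply hT.dep
            intro k hk
            have hki : k ≠ i := by rintro rfl; exact h0 hk
            unfold flip
            rw [Function.update_of_ne hki]
          show g (flip i x) * (sg (flip i x i) : ℝ) = _
          rw [hgx, flip_same]; push_cast; ring
        rw [h2, E_mul] at h1
        linarith
      rw [e1, e2, e3]; ring
  unfold W1
  rw [hmean]
  simp_rw [hco]
  unfold Wb
  rw [sum_add_distrib, ← mul_sum]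
  ring

theorem Fc_ltf {a : Fin n → ℤ} {b : Fin n → ℝ} {c0 C : ℝ} {g : (Fin n → Bool) → ℝ}
    (hT : Tail a b c0 C g) (hev : Even (∑ i, a i)) :
    (∀ x, Fc a g x = 1 ∨ Fc a g x = -1) ∧
    (∀ x, 0 < Fc a g x * (c0 + ∑ i, (C * (a i : ℝ) + b i) * (if x i then (-1:ℝ) else 1))) := by
  have hval : ∀ x, (Zf a x = 0 ∧ Fc a g x = g x) ∨ (2 ≤ Zf a x ∧ Fc a g x = 1)
      ∨ (Zf a x ≤ -2 ∧ Fc a g x = -1) := by
    intro x
    obtain ⟨w, hw⟩ := Zf_even a hev x
    unfold Fc
    rcases lt_trichotomy (Zf a x) 0 with h | h | h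
    · right; right
      refine ⟨by omega, ?_⟩
      rw [sn_negv h]; unfold ind; rw [if_neg (by omega)]; ring
    · left
      refine ⟨h, ?_⟩
      rw [h, sn_zero]; unfold ind; rw [if_pos rfl]; ring
    · right; left
      refine ⟨by omega, ?_⟩
      rw [sn_pos h]; unfold ind; rw [if_neg (by omega)]; ring
  have hsum : ∀ x : Fin n → Bool, ∑ i, (C * (a i : ℝ) + b i) * (if x i then (-1:ℝ) else 1)
      = C * (Zf a x : ℝ) + Rf b x := by
    intro x
    rw [Zf_cast, mul_sum, ← Rf_form, ← sum_add_distrib]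
    apply sum_congr rfl
    intro i _; ring
  have hR : ∀ x : Fin n → Bool, |c0 + Rf b x| < 2 * C := by
    intro x
    refine lt_of_le_of_lt ?_ hT.small
    refine (abs_add_le _ _).trans ?_
    have : |Rf b x| ≤ ∑ i, |b i| := by
      unfold Rf
      refine (abs_sum_le_sum_abs _ _).trans (le_of_eq ?_)
      apply sum_congr rfl
      intro i _
      rw [abs_mul]
      rcases sg_sq (x i) with h | h <;> rw [h] <;> simp
    linarith
  constructor
  · intro x
    rcases hval x with ⟨_, h⟩ | ⟨_, h⟩ | ⟨_, h⟩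
    · rw [h]; exact hT.hg x
    · left; exact h
    · right; exact h
  · intro x
    rw [hsum]
    have h1 := abs_lt.mp (hR x)
    have hC := hT.Cpos
    rcases hval x with ⟨hz, h⟩ | ⟨hz, h⟩ | ⟨hz, h⟩
    · rw [h, hz]
      have := hT.hb x
      push_cast
      rw [mul_zero, zero_add]; exact this
    · rw [h]
      have : (2:ℝ) ≤ (Zf a x : ℝ) := by exact_mod_cast hz
      nlinarith
    · rw [h]
      have : (Zf a x : ℝ) ≤ -2 := by exact_mod_cast hz
      nlinarith

def tl2 (x : Fin (n + 2) → Bool) : Fin n → Bool := fun i => x i.succ.succ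

theorem tl2_cons (b c : Bool) (x : Fin n → Bool) :
    tl2 (Fin.cons b (Fin.cons c x : Fin (n + 1) → Bool) : Fin (n + 2) → Bool) = x := by
  funext i; rfl

theorem E_tl2 (g : (Fin n → Bool) → ℝ) : E (fun x : Fin (n + 2) → Bool => g (tl2 x)) = E g := by
  rw [E_two]
  apply E_congr
  intro x
  simp only [tl2_cons]; ring

theorem W1_tl2 (g : (Fin n → Bool) → ℝ) : W1 (fun x : Fin (n + 2) → Bool => g (tl2 x)) = W1 g := by
  unfold W1
  rw [E_tl2, Fin.sum_univ_succ, Fin.sum_univ_succ]
  have h0 : E (fun x : Fin (n + 2) → Bool => g (tl2 x) * (sg (x 0) : ℝ)) = 0 := by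
    rw [E_two]
    have : E (fun _ : Fin n → Bool => (0:ℝ)) = 0 := by unfold E; simp
    rw [← this]
    apply E_congr
    intro x
    simp only [tl2_cons, Fin.cons_zero, sgF, sgT]; push_cast; ring
  have h1 : E (fun x : Fin (n + 2) → Bool => g (tl2 x) * (sg (x (Fin.succ 0)) : ℝ)) = 0 := by
    rw [E_two]
    have : E (fun _ : Fin n → Bool => (0:ℝ)) = 0 := by unfold E; simp
    rw [← this]
    apply E_congr
    intro x
    simp only [tl2_cons, Fin.cons_succ, Fin.cons_zero, sgF, sgT]; push_cast; ring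
  have h2 : ∀ i : Fin n, E (fun x : Fin (n + 2) → Bool => g (tl2 x) * (sg (x i.succ.succ) : ℝ))
      = E (fun x => g x * (sg (x i) : ℝ)) := by
    intro i
    rw [E_two]
    apply E_congr
    intro x
    simp only [tl2_cons, Fin.cons_succ]; ring
  rw [h0, h1]
  simp_rw [h2]
  ring

theorem Tail_two {a : Fin n → ℤ} {b : Fin n → ℝ} {c0 C : ℝ} {g : (Fin n → Bool) → ℝ}
    (hT : Tail a b c0 C g) :
    Tail (two a) (Fin.cons 0 (Fin.cons 0 b : Fin (n + 1) → ℝ) : Fin (n + 2) → ℝ) c0 C
      (fun x => g (tl2 x)) where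
  hg := fun x => hT.hg _
  hb := by
    intro x
    have : Rf (Fin.cons 0 (Fin.cons 0 b : Fin (n + 1) → ℝ) : Fin (n + 2) → ℝ) x = Rf b (tl2 x) := by
      unfold Rf
      rw [Fin.sum_univ_succ, Fin.sum_univ_succ]
      simp [tl2]
    rw [this]
    exact hT.hb _
  disj := by
    intro i
    refine Fin.cases ?_ (fun i => ?_) i
    · right; rfl
    · refine Fin.cases ?_ (fun i => ?_) i
      · right; rfl
      · exact hT.disj i
  Cpos := hT.Cpos
  small := by
    have : ∑ i, |(Fin.cons 0 (Fin.cons 0 b : Fin (n + 1) → ℝ) : Fin (n + 2) → ℝ) i| = ∑ i, |b i| := by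
      rw [Fin.sum_univ_succ, Fin.sum_univ_succ]; simp
    rw [this]; exact hT.small

theorem even_flow (hreg : RegStmt) (htb : TBStmt) (a : Fin n → ℤ) (b : Fin n → ℝ) (c0 C : ℝ)
    (g : (Fin n → Bool) → ℝ) (hG : Good2 a) (hT : Tail a b c0 C g) :
    2 / Real.pi ≤ Wb a (W1 g) := by
  obtain ⟨c, hc, ε, hε, H⟩ := hreg
  have key : ∀ (m : ℕ) (n : ℕ) (a : Fin n → ℤ) (b : Fin n → ℝ) (g : (Fin n → Bool) → ℝ) (M : ℝ),
      2 ≤ M → Good2 a → Tail a b c0 C g → (∀ i, (a i : ℝ) ≤ M) →
      M ^ 2 ≤ ε * (∑ i, (a i : ℝ) ^ 2 + 2 * m) → 2 / Real.pi ≤ Wb a (W1 g) := by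
    intro m
    induction m with
    | zero =>
      intro n a b g M hM2 hG hT hM hb
      rw [← W1_comp hT]
      obtain ⟨h1, h2⟩ := Fc_ltf hT hG.ev
      have hC := hT.Cpos
      have h3 := H n (Fc a g) (fun i => C * (a i : ℝ) + b i) c0 h1 h2 (by
        intro i
        have hcross : ∀ j, (C * (a j : ℝ) + b j) ^ 2 = C ^ 2 * (a j : ℝ) ^ 2 + (b j) ^ 2 := by
          intro j
          rcases hT.disj j with h | h
          · rw [h]; push_cast; ring
          · rw [h]; ring
        have hge : C ^ 2 * ∑ j, (a j : ℝ) ^ 2 ≤ ∑ j, (C * (a j : ℝ) + b j) ^ 2 := by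
          rw [mul_sum]
          apply sum_le_sum
          intro j _
          rw [hcross]
          nlinarith [sq_nonneg (b j)]
        have hle : (C * (a i : ℝ) + b i) ^ 2 ≤ C ^ 2 * M ^ 2 := by
          rcases hT.disj i with h | h
          · rw [h]; push_cast
            rw [mul_zero, zero_add]
            have h5 : |b i| ≤ ∑ j, |b j| := single_le_sum (f := fun j => |b j|) (fun _ _ => abs_nonneg _) (mem_univ i)
            have h6 : |b i| ≤ C * M := by
              have := hT.small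
              have := abs_nonneg c0
              nlinarith
            rw [← sq_abs, ← mul_pow]
            exact pow_le_pow_left₀ (abs_nonneg _) h6 2
          · rw [h, add_zero, mul_pow]
            have h0 : (0:ℝ) ≤ a i := by exact_mod_cast hG.nn i
            have : (a i : ℝ) ^ 2 ≤ M ^ 2 := pow_le_pow_left₀ h0 (hM i) 2
            nlinarith [sq_nonneg C]
        simp only [Nat.cast_zero, mul_zero, add_zero] at hb
        calc (C * (a i : ℝ) + b i) ^ 2 ≤ C ^ 2 * M ^ 2 := hle
          _ ≤ C ^ 2 * (ε * ∑ j, (a j : ℝ) ^ 2) := by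
              apply mul_le_mul_of_nonneg_left hb (sq_nonneg _)
          _ = ε * (C ^ 2 * ∑ j, (a j : ℝ) ^ 2) := by ring
          _ ≤ ε * ∑ j, (C * (a j : ℝ) + b j) ^ 2 := by
              apply mul_le_mul_of_nonneg_left hge hε.le)
      rw [W1_form] at h3
      have h4 : 0 ≤ c * ((∑ i, (C * (a i : ℝ) + b i) ^ 4) / (∑ i, (C * (a i : ℝ) + b i) ^ 2) ^ 2) := by
        positivity
      linarith
    | succ m ih =>
      intro n a b g M hM2 hG hT hM hb
      have hw : 5 / 9 ≤ W1 g := by
        have := htb n g b c0 hT.hg (by intro x; rw [Rf_form]; exact hT.hb x)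
        rwa [W1_form] at this
      refine le_trans ?_ (Wb_two_le a hG (W1 g) hw)
      rw [← W1_tl2 g]
      apply ih (n + 2) (two a) _ _ M hM2 (Good2_two a hG) (Tail_two hT)
      · intro i
        refine Fin.cases ?_ (fun i => ?_) i
        · show (((1:ℤ)):ℝ) ≤ M
          push_cast; linarith
        · refine Fin.cases ?_ (fun i => ?_) i
          · show (((1:ℤ)):ℝ) ≤ M
            push_cast; linarith
          · exact hM i
      · have : ∑ i, ((two a i : ℤ) : ℝ) ^ 2 = ∑ i, (a i : ℝ) ^ 2 + 2 := by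
          unfold two
          rw [Fin.sum_univ_succ, Fin.sum_univ_succ]
          simp; ring
        rw [this]
        push_cast at hb
        have e : ∑ i, (a i : ℝ) ^ 2 + 2 * ((m : ℝ) + 1) = ∑ i, (a i : ℝ) ^ 2 + 2 + 2 * (m : ℝ) := by ring
        rw [e] at hb
        exact hb
  obtain ⟨M, hM1, hM⟩ : ∃ M : ℝ, 2 ≤ M ∧ ∀ i, (a i : ℝ) ≤ M := by
    refine ⟨2 + ∑ i, (a i : ℝ), ?_, ?_⟩
    · have : (0:ℝ) ≤ ∑ i, (a i : ℝ) := sum_nonneg (fun i _ => by exact_mod_cast hG.nn i)
      linarith
    · intro i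
      have : (a i : ℝ) ≤ ∑ i, (a i : ℝ) :=
        single_le_sum (f := fun i => (a i : ℝ)) (fun i _ => by exact_mod_cast hG.nn i) (mem_univ i)
      linarith
  obtain ⟨m, hm⟩ := exists_nat_ge (M ^ 2 / ε)
  apply key m n a b g M hM1 hG hT hM
  rw [div_le_iff₀ hε] at hm
  have h0 : (0:ℝ) ≤ ∑ i, (a i : ℝ) ^ 2 := sum_nonneg (fun i _ => sq_nonneg _)
  have h1 : (0:ℝ) ≤ m := Nat.cast_nonneg m
  nlinarith

end Pool.Agent.MP_cb3c9c_an.UNI
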