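import Pool.Agent.MP_cb3c9c_an.REG.GN
import Pool.Agent.MP_cb3c9c_an.TwoBlockMain
import Pool.Agent.MP_cb3c9c_an.UNI.Comp

set_option autoImplicit false

open Finset

namespace Pool.Agent.MP_cb3c9c_an.UNI

theorem regStmt : RegStmt := by
  obtain ⟨c₀, hc₀, δ₀, hδ₀, hom⟩ := Pool.Agent.MP_cb3c9c_an.REG.hom_main
  exact Pool.Agent.MP_cb3c9c_an.REG.final_of_hom hc₀ hδ₀ hom

theorem tbStmt : TBStmt := by
  intro n f a a0 h1 h2
  have h2' : ∀ x, 0 < f x * Pool.Agent.MP_cb3c9c_an.TwoBlock.aff a0 a x := h2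
  have H1 := Pool.Agent.MP_cb3c9c_an.TwoBlock.weight_ineq h1 h2'
  have hfh : ∀ S : Finset (Fin n), Pool.Agent.MP_cb3c9c_an.TwoBlock.fh f S
      = (∑ x, f x * ∏ i ∈ S, (if x i then (-1 : ℝ) else 1)) / (2 : ℝ) ^ n := by
    intro S
    unfold Pool.Agent.MP_cb3c9c_an.TwoBlock.fh Pool.Agent.MP_cb3c9c_an.TwoBlock.Ex
      Pool.Agent.MP_cb3c9c_an.TwoBlock.chi
    rw [Pool.Agent.MP_cb3c9c_an.TwoBlock.card_cube]
    rfl
  have h4 : 0 ≤ (1 / 3 : ℝ) * ∑ S : Finset (Fin n), Pool.Agent.MP_cb3c9c_an.TwoBlock.fh f S ^ 4 := by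
    positivity
  simp only [hfh] at H1 h4
  simp only [prod_empty, mul_one, prod_singleton] at H1
  linarith

end Pool.Agent.MP_cb3c9c_an.UNI
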