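import Pool.Agent.MP_cb3c9c_an.UNI.Comp

set_option autoImplicit false

open Finset

namespace Pool.Agent.MP_cb3c9c_an.UNI

variable {n : ℕ}

theorem W1_mask (m : Fin n → Bool) (f : (Fin n → Bool) → ℝ) :
    W1 (fun x => f (fun i => xor (m i) (x i))) = W1 f := by
  unfold W1
  rw [E_mask m f]
  congr 1
  apply sum_congr rfl
  intro i _
  have h1 : E (fun x => f (fun i => xor (m i) (x i)) * (sg (x i) : ℝ))
      = (sg (m i) : ℝ) * E (fun x => f x * (sg (x i) : ℝ)) := by
    rw [← E_mul, ← E_mask m (fun x => (sg (m i) : ℝ) * (f x * (sg (x i) : ℝ)))]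
    apply E_congr
    intro x
    have : (sg (xor (m i) (x i)) : ℤ) = sg (m i) * sg (x i) := sg_xor _ _
    show f (fun i => xor (m i) (x i)) * (sg (x i) : ℝ)
      = (sg (m i) : ℝ) * (f (fun i => xor (m i) (x i)) * (sg (xor (m i) (x i)) : ℝ))
    rw [this]
    push_cast
    rcases sg_sq (m i) with h | h <;> rw [h] <;> push_cast <;> ring
  rw [h1, mul_pow]
  rcases sg_sq (m i) with h | h <;> rw [h] <;> norm_num

/-- the head weights, made nonnegative and extended by zero -/
def hd (s : Finset (Fin n)) (a : Fin n → ℤ) (i : Fin n) : ℤ := if i ∈ s then |a i| else 0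

def hm (s : Finset (Fin n)) (a : Fin n → ℤ) (i : Fin n) : Bool := decide (i ∈ s ∧ a i < 0)

/-- tail weights -/
noncomputable def tb (s : Finset (Fin n)) (c : Fin n → ℝ) (i : Fin n) : ℝ := if i ∈ s then 0 else c i

theorem hd_nn (s : Finset (Fin n)) (a : Fin n → ℤ) (i : Fin n) : 0 ≤ hd s a i := by
  unfold hd; split_ifs
  · exact abs_nonneg _
  · exact le_rfl

theorem hd_sg (s : Finset (Fin n)) (a : Fin n → ℤ) (i : Fin n) (hi : i ∈ s) (b : Bool) :
    a i * sg (xor (hm s a i) b) = hd s a i * sg b := by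
  unfold hm hd
  rw [if_pos hi]
  by_cases h : a i < 0
  · rw [abs_of_neg h]
    have : decide (i ∈ s ∧ a i < 0) = true := by simp [hi, h]
    rw [this]
    cases b <;> simp [sg]
  · have h' : 0 ≤ a i := by omega
    rw [abs_of_nonneg h']
    have : decide (i ∈ s ∧ a i < 0) = false := by simp [h']
    rw [this]
    cases b <;> simp [sg]

theorem form_split (s : Finset (Fin n)) (a : Fin n → ℤ) (c : Fin n → ℝ) (C : ℝ)
    (hs : ∀ i ∈ s, c i = C * a i) (x : Fin n → Bool) :
    ∑ i, c i * (if (xor (hm s a i) (x i)) then (-1:ℝ) else 1)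
      = C * (Zf (hd s a) x : ℝ) + Rf (tb s c) x := by
  unfold Zf Rf
  push_cast
  rw [mul_sum, ← sum_add_distrib]
  apply sum_congr rfl
  intro i _
  rw [← sg_cast]
  by_cases hi : i ∈ s
  · have h1 := hd_sg s a i hi (x i)
    have h2 : ((a i : ℤ) : ℝ) * ((sg (xor (hm s a i) (x i)) : ℤ) : ℝ)
        = (hd s a i : ℝ) * (sg (x i) : ℝ) := by exact_mod_cast h1
    rw [hs i hi]
    unfold tb
    rw [if_pos hi, mul_assoc, h2]; ring
  · have h1 : hm s a i = false := by unfold hm; simp [hi]
    have h2 : hd s a i = 0 := by unfold hd; rw [if_neg hi]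
    rw [h1, h2]
    unfold tb
    rw [if_neg hi]
    simp

theorem tb_sum (s : Finset (Fin n)) (c : Fin n → ℝ) : ∑ i, |tb s c i| = ∑ i ∈ sᶜ, |c i| := by
  unfold tb
  rw [← sum_filter_add_sum_filter_not univ (fun i => i ∈ s)]
  have h1 : ∑ i ∈ univ.filter (fun i => i ∈ s), |if i ∈ s then (0:ℝ) else c i| = 0 := by
    apply sum_eq_zero
    intro i hi
    rw [mem_filter] at hi
    rw [if_pos hi.2, abs_zero]
  have h2 : univ.filter (fun i => ¬ i ∈ s) = sᶜ := by ext i; simp
  rw [h1, zero_add, h2]
  apply sum_congr rfl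
  intro i hi
  rw [mem_compl] at hi
  rw [if_neg hi]

theorem hd_parity (s : Finset (Fin n)) (a : Fin n → ℤ) :
    ∃ k : ℤ, ∑ i, hd s a i = ∑ i ∈ s, a i + 2 * k := by
  refine ⟨∑ i ∈ s, (if a i < 0 then - a i else 0), ?_⟩
  unfold hd
  rw [mul_sum, ← sum_add_distrib, ← sum_filter]
  have : univ.filter (fun i => i ∈ s) = s := by ext i; simp
  rw [this]
  apply sum_congr rfl
  intro i _
  by_cases h : a i < 0
  · rw [abs_of_neg h, if_pos h]; ring
  · rw [abs_of_nonneg (by omega), if_neg h]; ring

theorem L_hd (s : Finset (Fin n)) (a : Fin n → ℤ) (i : Fin n) (z : ℤ) :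
    L (hd s a) (univ.erase i) z = L a (s.erase i) z := by
  rw [L_ab a]
  unfold L
  apply E_congr
  intro x
  have : Sf (hd s a) (univ.erase i) x = Sf (ab a) (s.erase i) x := by
    unfold Sf hd ab
    have h1 : ∀ k ∈ univ.erase i, (if k ∈ s then |a k| else 0) * sg (x k)
        = if k ∈ s then |a k| * sg (x k) else 0 := by
      intro k _; split_ifs <;> ring
    rw [sum_congr rfl h1, ← sum_filter]
    apply sum_congr _ (fun _ _ => rfl)
    ext k; simp [and_comm]
  rw [this]

theorem q_hd (s : Finset (Fin n)) (a : Fin n → ℤ) (i : Fin n) (z : ℤ) :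
    q (hd s a) i z = L a (s.erase i) z := by
  rw [q_eq_L, L_hd]

theorem two_pi_le : 2 / Real.pi ≤ 23 / 36 := by
  rw [div_le_div_iff₀ Real.pi_pos (by norm_num)]
  have := Real.pi_gt_d2
  nlinarith

/-- even head with arbitrary tail, in reduced form -/
theorem even_core (hreg : RegStmt) (htb : TBStmt) (a : Fin n → ℤ) (b : Fin n → ℝ) (c0 C : ℝ)
    (g : (Fin n → Bool) → ℝ) (hT : Tail a b c0 C g) (hnn : ∀ i, 0 ≤ a i) (hev : Even (∑ i, a i))
    (hU : ∀ i, 1 ≤ a i → Uni a i) (i0 : Fin n) (hi0 : a i0 = 1) :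
    2 / Real.pi ≤ Wb a (W1 g) := by
  have hU0 := hU i0 (by rw [hi0])
  have hZ : ∀ z : ℤ, 0 ≤ z → Pz a (z + 2) ≤ Pz a z := by
    intro z hz
    rw [Pz_eq a i0, Pz_eq a i0, hi0, show z + 2 - 1 = z + 1 by ring, show z + 2 + 1 = z + 3 by ring]
    have h1 := hU0 (z + 1) (by omega)
    rw [show z + 1 + 2 = z + 3 by ring] at h1
    by_cases h0 : z = 0
    · subst h0
      have := q_symm a i0 1
      norm_num at h1 ⊢
      rw [this]
      linarith
    · have h2 := hU0 (z - 1) (by omega)
      rw [show z - 1 + 2 = z + 1 by ring] at h2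
      linarith
  by_cases h3 : ∃ i j k : Fin n, i ≠ j ∧ i ≠ k ∧ j ≠ k ∧ 1 ≤ a i ∧ 1 ≤ a j ∧ 1 ≤ a k
  · exact even_flow hreg htb a b c0 C g ⟨hnn, hev, hU, hZ, h3⟩ hT
  · -- exactly two nonzero weights
    obtain ⟨j0, hj0, hodd⟩ : ∃ j0, j0 ≠ i0 ∧ ¬ Even (a j0) := by
      by_contra hcon
      push Not at hcon
      have h1 : ∑ i, a i = a i0 + ∑ i ∈ univ.erase i0, a i :=
        (add_sum_erase univ a (mem_univ i0)).symm
      have h2 : Even (∑ i ∈ univ.erase i0, a i) := by
        apply even_sum
        intro i hi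
        exact hcon i (ne_of_mem_erase hi)
      rw [h1, hi0] at hev
      have h4 : Even ((1:ℤ)) := by
        have := hev.sub h2
        simpa using this
      exact absurd h4 (by decide)
    have hj1 : 1 ≤ a j0 := by
      have := hnn j0
      have hne : a j0 ≠ 0 := by
        intro h; apply hodd; rw [h]; exact Even.zero
      omega
    have hz : ∀ k, k ≠ i0 → k ≠ j0 → a k = 0 := by
      intro k hk1 hk2
      by_contra hne
      apply h3
      refine ⟨i0, j0, k, hj0.symm, hk1.symm, hk2.symm, by rw [hi0], hj1, ?_⟩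
      have := hnn k
      omega
    have hZf : ∀ x, Zf a x = sg (x i0) + a j0 * sg (x j0) := by
      intro x
      unfold Zf
      rw [← add_sum_erase univ (fun i => a i * sg (x i)) (mem_univ i0),
        ← add_sum_erase (univ.erase i0) (fun i => a i * sg (x i)) (mem_erase.mpr ⟨hj0, mem_univ _⟩)]
      have : ∑ i ∈ (univ.erase i0).erase j0, a i * sg (x i) = 0 := by
        apply sum_eq_zero
        intro k hk
        rw [mem_erase, mem_erase] at hk
        rw [hz k hk.2.1 hk.1]; ring
      rw [this, hi0]; ring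
    have hqs : q a i0 (a j0) + q a i0 (-(a j0)) = 1 := by
      unfold q
      rw [← E_add]
      have h1 : E (fun _ : Fin n → Bool => (1:ℝ)) = 1 := by
        unfold E
        rw [sum_const, card_univ, nsmul_eq_mul]
        simp
      rw [← h1]
      apply E_congr
      intro x
      have hY : Yf a i0 x = a j0 * sg (x j0) := by
        unfold Yf
        rw [hZf, hi0]; ring
      rw [hY]
      unfold ind
      rcases sg_sq (x j0) with h | h
      · rw [h, if_pos (by ring), if_neg (by omega)]; norm_num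
      · rw [h, if_neg (by omega), if_pos (by ring)]; norm_num
    have hq : q a i0 (a j0) = 1 / 2 := by
      rw [q_symm] at hqs; linarith
    have hj1' : a j0 = 1 := by
      by_contra hne
      have h4 : 2 ≤ a j0 := by omega
      have h5 := hU0 (a j0 - 2) (by omega)
      rw [show a j0 - 2 + 2 = a j0 by ring, hq] at h5
      have h6 : q a i0 (a j0 - 2) = 0 := by
        unfold q E
        rw [div_eq_zero_iff]
        left
        apply sum_eq_zero
        intro x _
        unfold ind
        have hY : Yf a i0 x = a j0 * sg (x j0) := by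
          unfold Yf
          rw [hZf, hi0]; ring
        rw [hY, if_neg]
        intro hh
        rcases sg_sq (x j0) with h | h
        · rw [h] at hh; omega
        · rw [h] at hh
          have : a j0 = 1 := by omega
          exact hne this
      rw [h6] at h5; norm_num at h5
    rw [hj1'] at hq
    have hpi : p a i0 = 1 / 2 := by
      rw [p_even a hev i0 1 le_rfl (by rw [hi0]; rfl)]
      simpa using hq
    have hPz : Pz a 0 = 1 / 2 := by
      rw [Pz_eq a i0, hi0]
      have := q_symm a i0 1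
      norm_num
      rw [this, hq]; norm_num
    have hqj : q a j0 1 = 1 / 2 := by
      have := Pz_eq a j0 0
      rw [hj1', hPz] at this
      have h7 := q_symm a j0 1
      norm_num at this
      rw [h7] at this
      linarith
    have hpj : p a j0 = 1 / 2 := by
      rw [p_even a hev j0 1 le_rfl (by rw [hj1']; rfl)]
      simpa using hqj
    have hw : 5 / 9 ≤ W1 g := by
      have := htb n g b c0 hT.hg (by intro x; rw [Rf_form]; exact hT.hb x)
      rwa [W1_form] at this
    have hsum : 1 / 2 ≤ ∑ j, (p a j) ^ 2 := by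
      have h8 : ∑ j ∈ ({i0, j0} : Finset (Fin n)), (p a j) ^ 2 ≤ ∑ j, (p a j) ^ 2 :=
        sum_le_sum_of_subset_of_nonneg (subset_univ _) (fun _ _ _ => sq_nonneg _)
      rw [sum_pair hj0.symm, hpi, hpj] at h8
      linarith
    unfold Wb
    rw [hPz]
    refine two_pi_le.trans ?_
    nlinarith

theorem head_even (hreg : RegStmt) (htb : TBStmt) (f : (Fin n → Bool) → ℝ) (c : Fin n → ℝ)
    (c0 : ℝ) (hf : ∀ x, f x = 1 ∨ f x = -1)
    (hfc : ∀ x, 0 < f x * (c0 + ∑ i, c i * (if x i then (-1:ℝ) else 1)))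
    (s : Finset (Fin n)) (a : Fin n → ℤ) (C : ℝ) (hC : 0 < C) (hs : ∀ i ∈ s, c i = C * a i)
    (hev : Even (∑ i ∈ s, a i)) (hsmall : |c0| + ∑ i ∈ sᶜ, |c i| < 2 * C)
    (hunit : ∃ i ∈ s, |a i| = 1)
    (hU : ∀ i ∈ s, a i ≠ 0 → ∀ z : ℤ, 0 ≤ z → L a (s.erase i) (z + 2) ≤ L a (s.erase i) z) :
    2 / Real.pi ≤ W1 f := by
  classical
  rw [← W1_mask (hm s a) f]
  set f' : (Fin n → Bool) → ℝ := fun x => f (fun i => xor (hm s a i) (x i)) with hf'
  have hf1 : ∀ x, f' x = 1 ∨ f' x = -1 := fun x => hf _
  have hf2 : ∀ x, 0 < f' x * (c0 + (C * (Zf (hd s a) x : ℝ) + Rf (tb s c) x)) := by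
    intro x
    rw [← form_split s a c C hs x]
    exact hfc _
  have hev' : Even (∑ i, hd s a i) := by
    obtain ⟨k, hk⟩ := hd_parity s a
    rw [hk]; exact hev.add (even_two_mul k)
  have hR : ∀ x : Fin n → Bool, |c0 + Rf (tb s c) x| < 2 * C := by
    intro x
    refine lt_of_le_of_lt ?_ hsmall
    refine (abs_add_le _ _).trans ?_
    have : |Rf (tb s c) x| ≤ ∑ i, |tb s c i| := by
      unfold Rf
      refine (abs_sum_le_sum_abs _ _).trans (le_of_eq ?_)
      apply sum_congr rfl
      intro i _
      rw [abs_mul]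
      rcases sg_sq (x i) with h | h <;> rw [h] <;> simp
    rw [tb_sum] at this
    linarith
  -- a tail function
  obtain ⟨b', c0', g, hT, hfg⟩ : ∃ (b' : Fin n → ℝ) (c0' : ℝ) (g : (Fin n → Bool) → ℝ),
      Tail (hd s a) b' c0' C g ∧ ∀ x, f' x = Fc (hd s a) g x := by
    by_cases hz : ∃ x1, Zf (hd s a) x1 = 0
    · obtain ⟨x1, hx1⟩ := hz
      have hne : ∀ x, c0 + Rf (tb s c) x ≠ 0 := by
        intro x h0
        have h1 := hf2 (fun i => if i ∈ s then x1 i else x i)
        have h2 : Zf (hd s a) (fun i => if i ∈ s then x1 i else x i) = Zf (hd s a) x1 := by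
          unfold Zf
          apply sum_congr rfl
          intro i _
          by_cases hi : i ∈ s
          · simp [hi]
          · have : hd s a i = 0 := by unfold hd; rw [if_neg hi]
            rw [this]; ring
        have h3 : Rf (tb s c) (fun i => if i ∈ s then x1 i else x i) = Rf (tb s c) x := by
          unfold Rf
          apply sum_congr rfl
          intro i _
          by_cases hi : i ∈ s
          · have : tb s c i = 0 := by unfold tb; rw [if_pos hi]
            rw [this]; ring
          · simp [hi]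
        rw [h2, h3, hx1] at h1
        push_cast at h1
        rw [mul_zero, zero_add, h0, mul_zero] at h1
        exact lt_irrefl _ h1
      refine ⟨tb s c, c0, fun x => if 0 < c0 + Rf (tb s c) x then 1 else -1, ⟨?_, ?_, ?_, hC, ?_⟩, ?_⟩
      · intro x
        by_cases h : 0 < c0 + Rf (tb s c) x
        · left; simp [h]
        · right; simp [h]
      · intro x
        by_cases h : 0 < c0 + Rf (tb s c) x
        · simp [h]
        · have h1 : c0 + Rf (tb s c) x < 0 := lt_of_le_of_ne (not_lt.mp h) (hne x)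
          simp [h]
          linarith
      · intro i
        by_cases hi : i ∈ s
        · right; unfold tb; rw [if_pos hi]
        · left; unfold hd; rw [if_neg hi]
      · rw [tb_sum]; exact hsmall
      · intro x
        have h1 := hf2 x
        have h2 := abs_lt.mp (hR x)
        obtain ⟨w, hw⟩ := Zf_even (hd s a) hev' x
        unfold Fc
        rcases lt_trichotomy (Zf (hd s a) x) 0 with h | h | h
        · rw [sn_negv h]; unfold ind; rw [if_neg (by omega)]
          have h3 : (Zf (hd s a) x : ℝ) ≤ -2 := by exact_mod_cast (by omega : Zf (hd s a) x ≤ -2)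
          rcases hf1 x with h4 | h4
          · rw [h4] at h1; nlinarith
          · rw [h4]; ring
        · rw [h, sn_zero]; unfold ind; rw [if_pos rfl]
          rw [h] at h1
          push_cast at h1
          rw [mul_zero, zero_add] at h1
          show f' x = 0 + 1 * (if 0 < c0 + Rf (tb s c) x then (1:ℝ) else -1)
          by_cases h5 : 0 < c0 + Rf (tb s c) x
          · rw [if_pos h5]
            rcases hf1 x with h4 | h4
            · rw [h4]; ring
            · rw [h4] at h1; linarith
          · rw [if_neg h5]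
            rcases hf1 x with h4 | h4
            · rw [h4, one_mul] at h1; exact absurd h1 h5
            · rw [h4]; ring
        · rw [sn_pos h]; unfold ind; rw [if_neg (by omega)]
          have h3 : (2:ℝ) ≤ (Zf (hd s a) x : ℝ) := by exact_mod_cast (by omega : 2 ≤ Zf (hd s a) x)
          rcases hf1 x with h4 | h4
          · rw [h4]; ring
          · rw [h4] at h1; nlinarith
    · push Not at hz
      refine ⟨fun _ => 0, C, fun _ => 1, ⟨fun _ => Or.inl rfl, ?_, fun i => Or.inr rfl, hC, ?_⟩, ?_⟩
      · intro x; unfold Rf; simpa using hC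
      · simp [abs_of_pos hC]; linarith
      · intro x
        have h1 := hf2 x
        have h2 := abs_lt.mp (hR x)
        obtain ⟨w, hw⟩ := Zf_even (hd s a) hev' x
        unfold Fc
        rcases lt_trichotomy (Zf (hd s a) x) 0 with h | h | h
        · rw [sn_negv h]; unfold ind; rw [if_neg (by omega)]
          have h3 : (Zf (hd s a) x : ℝ) ≤ -2 := by exact_mod_cast (by omega : Zf (hd s a) x ≤ -2)
          rcases hf1 x with h4 | h4
          · rw [h4] at h1; nlinarith
          · rw [h4]; ring
        · exact absurd h (hz x)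
        · rw [sn_pos h]; unfold ind; rw [if_neg (by omega)]
          have h3 : (2:ℝ) ≤ (Zf (hd s a) x : ℝ) := by exact_mod_cast (by omega : 2 ≤ Zf (hd s a) x)
          rcases hf1 x with h4 | h4
          · rw [h4]; ring
          · rw [h4] at h1; nlinarith
  have hfe : f' = Fc (hd s a) g := funext hfg
  have hgoal : 2 / Real.pi ≤ W1 f' := by
    rw [hfe, W1_comp hT]
    obtain ⟨i0, hi0s, hi0⟩ := hunit
    apply even_core hreg htb (hd s a) b' c0' C g hT (hd_nn s a) hev' _ i0
      (by unfold hd; rw [if_pos hi0s, hi0])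
    intro i hi z hz
    have his : i ∈ s := by
      by_contra hcon
      unfold hd at hi
      rw [if_neg hcon] at hi; omega
    have hne : a i ≠ 0 := by
      intro h0
      unfold hd at hi
      rw [if_pos his, h0] at hi; norm_num at hi
    rw [q_hd, q_hd]
    exact hU i his hne z hz
  exact hgoal

theorem head_odd (hreg : RegStmt) (f : (Fin n → Bool) → ℝ) (c : Fin n → ℝ)
    (c0 : ℝ) (hf : ∀ x, f x = 1 ∨ f x = -1)
    (hfc : ∀ x, 0 < f x * (c0 + ∑ i, c i * (if x i then (-1:ℝ) else 1)))
    (s : Finset (Fin n)) (a : Fin n → ℤ) (C : ℝ) (hC : 0 < C) (hs : ∀ i ∈ s, c i = C * a i)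
    (hodd : Odd (∑ i ∈ s, a i)) (hsmall : |c0| + ∑ i ∈ sᶜ, |c i| < C)
    (hU : ∀ i ∈ s, 3 ≤ |a i| → ∀ z : ℤ, 0 ≤ z → L a (s.erase i) (z + 2) ≤ L a (s.erase i) z) :
    2 / Real.pi ≤ W1 f := by
  classical
  rw [← W1_mask (hm s a) f]
  set f' : (Fin n → Bool) → ℝ := fun x => f (fun i => xor (hm s a i) (x i)) with hf'
  have hf1 : ∀ x, f' x = 1 ∨ f' x = -1 := fun x => hf _
  have hf2 : ∀ x, 0 < f' x * (c0 + (C * (Zf (hd s a) x : ℝ) + Rf (tb s c) x)) := by
    intro x
    rw [← form_split s a c C hs x]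
    exact hfc _
  have hodd' : Odd (∑ i, hd s a i) := by
    obtain ⟨k, hk⟩ := hd_parity s a
    rw [hk]; exact hodd.add_even (even_two_mul k)
  have hR : ∀ x : Fin n → Bool, |c0 + Rf (tb s c) x| < C := by
    intro x
    refine lt_of_le_of_lt ?_ hsmall
    refine (abs_add_le _ _).trans ?_
    have : |Rf (tb s c) x| ≤ ∑ i, |tb s c i| := by
      unfold Rf
      refine (abs_sum_le_sum_abs _ _).trans (le_of_eq ?_)
      apply sum_congr rfl
      intro i _
      rw [abs_mul]
      rcases sg_sq (x i) with h | h <;> rw [h] <;> simp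
    rw [tb_sum] at this
    linarith
  have hfx : ∀ x, f' x = sn (Zf (hd s a) x) := by
    intro x
    have h1 := hf2 x
    have h2 := abs_lt.mp (hR x)
    obtain ⟨w, hw⟩ := Zf_odd (hd s a) hodd' x
    rcases lt_trichotomy (Zf (hd s a) x) 0 with h | h | h
    · rw [sn_negv h]
      have h3 : (Zf (hd s a) x : ℝ) ≤ -1 := by exact_mod_cast (by omega : Zf (hd s a) x ≤ -1)
      rcases hf1 x with h4 | h4
      · rw [h4] at h1; nlinarith
      · exact h4
    · omega
    · rw [sn_pos h]
      have h3 : (1:ℝ) ≤ (Zf (hd s a) x : ℝ) := by exact_mod_cast (by omega : 1 ≤ Zf (hd s a) x)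
      rcases hf1 x with h4 | h4
      · exact h4
      · rw [h4] at h1; nlinarith
  have hgoal : 2 / Real.pi ≤ W1 f' := by
    rw [← W1_form]
    refine le_trans ?_ (W_form f' (hd s a) hfx)
    apply W_good hreg
    refine ⟨hd_nn s a, hodd', ?_⟩
    intro i hi z hz
    have his : i ∈ s := by
      by_contra hcon
      unfold hd at hi
      rw [if_neg hcon] at hi; omega
    rw [q_hd, q_hd]
    apply hU i his _ z hz
    unfold hd at hi
    rw [if_pos his] at hi; exact hi
  exact hgoal

end Pool.Agent.MP_cb3c9c_an.UNI
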