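import Pool.Agent.MP_cb3c9c_an.UNI.Head

set_option autoImplicit false

open Finset

namespace Pool.Agent.MP_cb3c9c_an.UNI

variable {n : ℕ}

/-! ### convolution of unimodal laws -/

theorem L_cond (a : Fin n → ℤ) (s t : Finset (Fin n)) (hd : Disjoint t s) (z : ℤ) :
    L a (t ∪ s) z = E (fun x => L a s (z - Sf a t x)) := by
  classical
  induction t using Finset.induction_on generalizing z with
  | empty =>
    have h1 : ∀ x : Fin n → Bool, Sf a ∅ x = 0 := by intro x; unfold Sf; simp
    simp only [h1, empty_union, sub_zero]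
    unfold E
    rw [sum_const, card_univ, nsmul_eq_mul]
    have h2 : (2:ℝ) ^ n ≠ 0 := by positivity
    simp
  | insert i t hit ih =>
    rw [disjoint_insert_left] at hd
    have hi : i ∉ t ∪ s := by
      rw [mem_union, not_or]; exact ⟨hit, hd.1⟩
    rw [insert_union, L_insert a (t ∪ s) i hi, ih hd.2, ih hd.2]
    have h1 : E (fun x => L a s (z - Sf a (insert i t) x))
        = (E (fun x => L a s (z - Sf a (insert i t) x))
          + E (fun x => L a s (z - Sf a (insert i t) (flip i x)))) / 2 := by
      rw [E_flip i (fun x => L a s (z - Sf a (insert i t) x))]; ring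
    rw [h1, ← E_add, ← E_add]
    congr 1
    apply E_congr
    intro x
    have h2 : ∀ y : Fin n → Bool, Sf a (insert i t) y = a i * sg (y i) + Sf a t y := by
      intro y; unfold Sf; rw [sum_insert hit]
    have h3 : Sf a t (flip i x) = Sf a t x := by
      unfold Sf
      apply sum_congr rfl
      intro k hk
      have : k ≠ i := by rintro rfl; exact hit hk
      unfold flip
      rw [Function.update_of_ne this]
    rw [h2, h2, h3, flip_same]
    rcases sg_sq (x i) with h | h
    · rw [h, show z - a i - Sf a t x = z - (a i * 1 + Sf a t x) by ring,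
        show z + a i - Sf a t x = z - (a i * -1 + Sf a t x) by ring]
    · rw [h, show z - a i - Sf a t x = z - (a i * - -1 + Sf a t x) by ring,
        show z + a i - Sf a t x = z - (a i * -1 + Sf a t x) by ring]
      ring

theorem Sf_abs_le (a : Fin n → ℤ) (t : Finset (Fin n)) (x : Fin n → Bool) :
    |Sf a t x| ≤ ∑ i ∈ t, |a i| := by
  unfold Sf
  refine (abs_sum_le_sum_abs _ _).trans (le_of_eq ?_)
  apply sum_congr rfl
  intro i _
  rw [abs_mul]
  rcases sg_sq (x i) with h | h <;> rw [h] <;> simp

theorem E_val (a : Fin n → ℤ) (t : Finset (Fin n)) (φ : ℤ → ℝ) (N : ℤ)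
    (hN : ∑ i ∈ t, |a i| ≤ N) :
    E (fun x => φ (Sf a t x)) = ∑ y ∈ Icc (-N) N, L a t y * φ y := by
  have h1 : ∀ x : Fin n → Bool, φ (Sf a t x) = ∑ y ∈ Icc (-N) N, φ y * ind (Sf a t x) y := by
    intro x
    have hx := abs_le.mp ((Sf_abs_le a t x).trans hN)
    rw [sum_eq_single (Sf a t x)]
    · unfold ind; rw [if_pos rfl, mul_one]
    · intro y _ hy
      unfold ind; rw [if_neg hy.symm, mul_zero]
    · intro h
      exact absurd (mem_Icc.mpr hx) h
  have h2 : E (fun x => φ (Sf a t x)) = E (fun x => ∑ y ∈ Icc (-N) N, φ y * ind (Sf a t x) y) :=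
    E_congr h1
  rw [h2, E_sum]
  apply sum_congr rfl
  intro y _
  rw [E_mul]
  unfold L
  ring

theorem L_out (a : Fin n → ℤ) (t : Finset (Fin n)) (N y : ℤ) (hN : ∑ i ∈ t, |a i| ≤ N)
    (hy : N < |y|) : L a t y = 0 := by
  unfold L E
  rw [div_eq_zero_iff]
  left
  apply sum_eq_zero
  intro x _
  unfold ind
  rw [if_neg]
  intro hh
  have := (Sf_abs_le a t x).trans hN
  rw [hh] at this
  omega

theorem UL1 {a : Fin n → ℤ} {s : Finset (Fin n)} :
    UL a s 1 ↔ ∀ z : ℤ, 0 ≤ z → L a s (z + 2) ≤ L a s z := by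
  unfold UL
  constructor
  · intro h z hz
    have := h z hz
    simpa using this
  · intro h z hz
    have := h z hz
    simpa using this

theorem UL_chain {a : Fin n → ℤ} {s : Finset (Fin n)} (h : UL a s 1) (v : ℤ) (hv : 0 ≤ v) (k : ℕ) :
    L a s (v + 2 * k) ≤ L a s v := by
  rw [UL1] at h
  induction k with
  | zero => simp
  | succ k ih =>
    have := h (v + 2 * k) (by positivity)
    push_cast
    rw [show v + 2 * ((k:ℤ) + 1) = v + 2 * k + 2 by ring]
    exact this.trans ih

theorem sum_refl (K : ℤ) (g : ℤ → ℝ) : ∑ u ∈ Icc (-K) K, g (-u) = ∑ u ∈ Icc (-K) K, g u := by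
  apply sum_nbij' (fun u => -u) (fun u => -u)
  · intro u hu; rw [mem_Icc] at hu ⊢; omega
  · intro u hu; rw [mem_Icc] at hu ⊢; omega
  · intro u _; ring
  · intro u _; ring
  · intro u _; rfl

/-- the convolution of two symmetric unimodal laws is unimodal -/
theorem UL_conv (a : Fin n → ℤ) (s t : Finset (Fin n)) (hd : Disjoint t s)
    (hs : UL a s 1) (ht : UL a t 1) : UL a (t ∪ s) 1 := by
  rw [UL1]
  intro z hz
  set N : ℤ := ∑ i ∈ t, |a i| with hN
  have hN0 : 0 ≤ N := sum_nonneg (fun _ _ => abs_nonneg _)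
  set D : ℤ → ℝ := fun u => L a s (u - 1) - L a s (u + 1) with hD
  have hDneg : ∀ u, D (-u) = - D u := by
    intro u
    simp only [hD]
    rw [show -u - 1 = -(u + 1) by ring, show -u + 1 = -(u - 1) by ring, L_even, L_even]; ring
  have hDnn : ∀ u, 0 ≤ u → 0 ≤ D u := by
    intro u hu
    rcases eq_or_lt_of_le hu with h | h
    · have := hDneg 0
      rw [neg_zero] at this
      rw [← h]; linarith
    · have := (UL1.mp hs) (u - 1) (by omega)
      simp only [hD]
      rw [show u - 1 + 2 = u + 1 by ring] at this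
      linarith
  have hdiff : L a (t ∪ s) z - L a (t ∪ s) (z + 2) = ∑ y ∈ Icc (-N) N, L a t y * D (z + 1 - y) := by
    rw [L_cond a s t hd, L_cond a s t hd, ← E_sub, ← E_val a t (fun y => D (z + 1 - y)) N le_rfl]
    apply E_congr
    intro x
    simp only [hD]
    rw [show z + 1 - Sf a t x - 1 = z - Sf a t x by ring,
      show z + 1 - Sf a t x + 1 = z + 2 - Sf a t x by ring]
  set K : ℤ := N + z + 1 with hK
  set g : ℤ → ℝ := fun u => L a t (z + 1 - u) * D u with hg
  have hre : ∑ y ∈ Icc (-N) N, L a t y * D (z + 1 - y) = ∑ u ∈ Icc (-K) K, g u := by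
    have h1 : ∑ y ∈ Icc (-N) N, L a t y * D (z + 1 - y)
        = ∑ y ∈ Icc (z + 1 - K) (z + 1 + K), L a t y * D (z + 1 - y) := by
      apply sum_subset
      · intro y hy; rw [mem_Icc] at hy ⊢; omega
      · intro y _ hy
        rw [mem_Icc] at hy
        rw [L_out a t N y le_rfl (by
          by_contra hcon
          push Not at hcon
          exact hy (abs_le.mp hcon)), zero_mul]
    rw [h1]
    apply sum_nbij' (fun y => z + 1 - y) (fun u => z + 1 - u)
    · intro u hu; rw [mem_Icc] at hu ⊢; omega
    · intro u hu; rw [mem_Icc] at hu ⊢; omega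
    · intro u _; ring
    · intro u _; ring
    · intro u _
      simp only [hg]
      rw [show z + 1 - (z + 1 - u) = u by ring]
  have hpos : 0 ≤ ∑ u ∈ Icc (-K) K, (g u + g (-u)) := by
    apply sum_nonneg
    intro u _
    have key : ∀ u : ℤ, 0 ≤ u → 0 ≤ g u + g (-u) := by
      intro u hu
      simp only [hg]
      rw [hDneg, show z + 1 - -u = z + 1 + u by ring]
      have h1 : L a t (z + 1 + u) ≤ L a t (z + 1 - u) := by
        rcases le_or_gt u (z + 1) with h | h
        · have := UL_chain ht (z + 1 - u) (by omega) u.toNat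
          rw [Int.toNat_of_nonneg hu, show z + 1 - u + 2 * u = z + 1 + u by ring] at this
          exact this
        · have := UL_chain ht (u - (z + 1)) (by omega) (z + 1).toNat
          rw [Int.toNat_of_nonneg (by omega), show u - (z + 1) + 2 * (z + 1) = z + 1 + u by ring,
            ← L_even a t (u - (z + 1)), show -(u - (z + 1)) = z + 1 - u by ring] at this
          exact this
      have h2 := hDnn u hu
      nlinarith
    rcases le_total 0 u with h | h
    · exact key u h
    · have := key (-u) (by omega)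
      rw [neg_neg] at this
      linarith
  have h2 : ∑ u ∈ Icc (-K) K, (g u + g (-u)) = 2 * ∑ u ∈ Icc (-K) K, g u := by
    rw [sum_add_distrib, sum_refl K g]; ring
  rw [h2] at hpos
  rw [← hre, ← hdiff] at hpos
  linarith

/-! ### a weight `w` among enough unit weights -/

theorem L_units_rec (a : Fin n → ℤ) (U : Finset (Fin n)) (hU : ∀ i ∈ U, a i = 1) (y : ℤ) :
    ((U.card : ℝ) + y + 2) * L a U (y + 2) = ((U.card : ℝ) - y) * L a U y := by
  classical
  induction U using Finset.induction_on generalizing y with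
  | empty =>
    have h0 : ∀ z : ℤ, L a ∅ z = if z = 0 then 1 else 0 := by
      intro z
      unfold L E ind Sf
      simp only [sum_empty]
      by_cases h : z = 0
      · subst h
        simp
      · rw [if_neg h]
        simp [Ne.symm h]
    rw [h0, h0]
    by_cases h1 : y = 0
    · subst h1; norm_num
    · by_cases h2 : y = -2
      · subst h2; norm_num
      · rw [if_neg h1, if_neg (by omega)]; ring
  | insert i U hi ih =>
    have hU' : ∀ j ∈ U, a j = 1 := fun j hj => hU j (mem_insert_of_mem hj)
    have hai : a i = 1 := hU i (mem_insert_self _ _)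
    rw [L_insert a U i hi, L_insert a U i hi, hai, card_insert_of_notMem hi]
    have e1 := ih hU' (y + 1)
    have e2 := ih hU' (y - 1)
    rw [show y + 1 + 2 = y + 3 by ring] at e1
    rw [show y - 1 + 2 = y + 1 by ring] at e2
    rw [show y + 2 - 1 = y + 1 by ring, show y + 2 + 1 = y + 3 by ring]
    push_cast at e1 e2 ⊢
    linear_combination (1/2) * e1 + (1/2) * e2

theorem UL_units (a : Fin n → ℤ) (U : Finset (Fin n)) (hU : ∀ i ∈ U, a i = 1) : UL a U 1 := by
  have h1 : UL a ∅ 1 := UL_zero a ∅ (fun i hi => absurd hi (notMem_empty i)) 1 one_pos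
  have h2 := UL_more_set a ∅ U 1 (disjoint_empty_left U) hU h1
  simpa using h2

theorem UL_w (a : Fin n → ℤ) (U : Finset (Fin n)) (hU : ∀ i ∈ U, a i = 1) (i : Fin n) (hi : i ∉ U)
    (w : ℕ) (hw : a i = w) (hw1 : 1 ≤ w) (hk : w ^ 2 ≤ U.card + 2) : UL a (insert i U) 1 := by
  classical
  rw [UL1]
  intro z hz
  set D : ℤ → ℝ := fun u => L a U (u - 1) - L a U (u + 1) with hD
  set k : ℝ := (U.card : ℝ) with hkd
  have hk0 : 0 ≤ k := by rw [hkd]; positivity
  have hkw : (w:ℝ) ^ 2 ≤ k + 2 := by rw [hkd]; exact_mod_cast hk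
  have hwr : (1:ℝ) ≤ w := by exact_mod_cast hw1
  have hDneg : ∀ u, D (-u) = - D u := by
    intro u
    simp only [hD]
    rw [show -u - 1 = -(u + 1) by ring, show -u + 1 = -(u - 1) by ring, L_even, L_even]; ring
  have hUU := UL_units a U hU
  have hDnn : ∀ u, 0 ≤ u → 0 ≤ D u := by
    intro u hu
    rcases eq_or_lt_of_le hu with h | h
    · have := hDneg 0
      rw [neg_zero] at this
      rw [← h]; linarith
    · have := (UL1.mp hUU) (u - 1) (by omega)
      simp only [hD]
      rw [show u - 1 + 2 = u + 1 by ring] at this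
      linarith
  -- the recursion for the differences
  have hrec : ∀ y : ℤ, (y:ℝ) * (k + 3 + y) * D (y + 2) = (y + 2) * (k + 1 - y) * D y := by
    intro y
    have e1 := L_units_rec a U hU (y + 1)
    have e2 := L_units_rec a U hU (y - 1)
    rw [← hkd] at e1 e2
    simp only [hD]
    rw [show y + 2 - 1 = y + 1 by ring, show y + 2 + 1 = y + 3 by ring]
    rw [show y + 1 + 2 = y + 3 by ring] at e1
    rw [show y - 1 + 2 = y + 1 by ring] at e2
    push_cast at e1 e2
    linear_combination (-(y:ℝ)) * e1 + (y + 2 : ℝ) * e2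
  have step : ∀ m : ℕ, m ≤ w → D ((w:ℤ) - m) ≤ D ((w:ℤ) + m) := by
    intro m
    induction m using Nat.strong_induction_on with
    | _ m ih =>
    intro hm
    match m, ih, hm with
    | 0, _, _ => simp
    | 1, _, hm =>
      rcases eq_or_lt_of_le hw1 with h | h
      · rw [← h]
        push_cast
        have := hDneg 0
        rw [neg_zero] at this
        have h3 := hDnn 2 (by norm_num)
        linarith
      · have e := hrec ((w:ℤ) - 1)
        rw [show (w:ℤ) - 1 + 2 = w + 1 by ring] at e
        push_cast at e ⊢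
        have hwr2 : (2:ℝ) ≤ w := by exact_mod_cast h
        have hA := hDnn ((w:ℤ) - 1) (by omega)
        have hpos : 0 < ((w:ℝ) - 1) * (k + 3 + (w - 1)) := by
          apply mul_pos <;> linarith
        have hge : ((w:ℝ) - 1) * (k + 3 + (w - 1)) ≤ ((w:ℝ) - 1 + 2) * (k + 1 - (w - 1)) := by
          nlinarith
        have h5 : ((w:ℝ) - 1) * (k + 3 + (w - 1)) * D ((w:ℤ) - 1)
            ≤ ((w:ℝ) - 1) * (k + 3 + (w - 1)) * D ((w:ℤ) + 1) := by
          rw [e]
          exact mul_le_mul_of_nonneg_right hge hA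
        exact le_of_mul_le_mul_left h5 hpos
    | (m + 2), ih, hm =>
      have ihm := ih m (by omega) (by omega)
      push_cast
      rcases eq_or_lt_of_le hm with h | h
      · rw [show (w:ℤ) - ((m:ℤ) + 2) = 0 by omega]
        have := hDneg 0
        rw [neg_zero] at this
        have h3 := hDnn ((w:ℤ) + ((m:ℤ) + 2)) (by omega)
        linarith
      · set i : ℝ := (m:ℝ) + 1 with hi
        have hi0 : 0 ≤ i := by rw [hi]; positivity
        have hiw : i + 2 ≤ w := by
          rw [hi]
          have : m + 3 ≤ w := h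
          have h' : ((m + 3 : ℕ) : ℝ) ≤ w := by exact_mod_cast this
          push_cast at h'
          linarith
        have e1 := hrec ((w:ℤ) - ((m:ℤ) + 2))
        have e2 := hrec ((w:ℤ) + m)
        rw [show (w:ℤ) - ((m:ℤ) + 2) + 2 = w - m by ring] at e1
        rw [show (w:ℤ) + m + 2 = w + (m + 2) by ring] at e2
        push_cast at e1 e2
        have f1 : ((w:ℝ) - (m + 2)) = w - i - 1 := by rw [hi]; ring
        have f2 : ((w:ℝ) + m) = w + i - 1 := by rw [hi]; ring
        rw [f1] at e1
        rw [f2] at e2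
        set A := D ((w:ℤ) - ((m:ℤ) + 2)) with hA
        set B := D ((w:ℤ) - m) with hB
        set B' := D ((w:ℤ) + m) with hB'
        set A' := D ((w:ℤ) + (m + 2)) with hA'
        have hA0 : 0 ≤ A := hDnn _ (by omega)
        set M : ℝ := k + 2 with hM
        have g1 : ((w:ℝ) - i - 1) * (M + (w - i)) * B = (w - i + 1) * (M - (w - i)) * A := by
          rw [hM]; linarith
        have g2 : ((w:ℝ) + i - 1) * (M + (w + i)) * A' = (w + i + 1) * (M - (w + i)) * B' := by
          rw [hM]; linarith
        have hwi : (w:ℝ) + i ≤ M := by nlinarith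
        have p1 : 0 < ((w:ℝ) - i - 1) * (M + (w - i)) := by
          apply mul_pos <;> linarith
        have p2 : 0 < ((w:ℝ) + i - 1) * (M + (w + i)) := by
          apply mul_pos <;> linarith
        have p3 : 0 ≤ ((w:ℝ) + i + 1) * (M - (w + i)) := by
          apply mul_nonneg <;> linarith
        have hpoly : ((w:ℝ) - i - 1) * (M + (w - i)) * (((w:ℝ) + i - 1) * (M + (w + i)))
            ≤ ((w:ℝ) - i + 1) * (M - (w - i)) * (((w:ℝ) + i + 1) * (M - (w + i))) := by
          have e : ((w:ℝ) - i + 1) * (M - (w - i)) * (((w:ℝ) + i + 1) * (M - (w + i)))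
              - ((w:ℝ) - i - 1) * (M + (w - i)) * (((w:ℝ) + i - 1) * (M + (w + i)))
              = 4 * w * (M - 1) * (M - w ^ 2 + i ^ 2) := by ring
          have h6 : 0 ≤ 4 * (w:ℝ) * (M - 1) * (M - w ^ 2 + i ^ 2) := by
            apply mul_nonneg
            · apply mul_nonneg <;> linarith
            · nlinarith [sq_nonneg i]
          linarith
        -- chain
        have c1 : ((w:ℝ) - i - 1) * (M + (w - i)) * (((w:ℝ) + i - 1) * (M + (w + i))) * A'
            = ((w:ℝ) - i - 1) * (M + (w - i)) * (((w:ℝ) + i + 1) * (M - (w + i)) * B') := by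
          rw [← g2]; ring
        have c2 : ((w:ℝ) - i - 1) * (M + (w - i)) * (((w:ℝ) + i + 1) * (M - (w + i)) * B)
            ≤ ((w:ℝ) - i - 1) * (M + (w - i)) * (((w:ℝ) + i + 1) * (M - (w + i)) * B') := by
          apply mul_le_mul_of_nonneg_left _ p1.le
          exact mul_le_mul_of_nonneg_left ihm p3
        have c3 : ((w:ℝ) - i - 1) * (M + (w - i)) * (((w:ℝ) + i + 1) * (M - (w + i)) * B)
            = ((w:ℝ) - i + 1) * (M - (w - i)) * (((w:ℝ) + i + 1) * (M - (w + i))) * A := by
          have : ((w:ℝ) - i - 1) * (M + (w - i)) * (((w:ℝ) + i + 1) * (M - (w + i)) * B)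
            = (((w:ℝ) - i - 1) * (M + (w - i)) * B) * (((w:ℝ) + i + 1) * (M - (w + i))) := by ring
          rw [this, g1]; ring
        have c4 := mul_le_mul_of_nonneg_right hpoly hA0
        have c5 : ((w:ℝ) - i - 1) * (M + (w - i)) * (((w:ℝ) + i - 1) * (M + (w + i))) * A
            ≤ ((w:ℝ) - i - 1) * (M + (w - i)) * (((w:ℝ) + i - 1) * (M + (w + i))) * A' := by
          rw [c1]; linarith
        exact le_of_mul_le_mul_left c5 (mul_pos p1 p2)
  rw [L_insert a U i hi, L_insert a U i hi, hw]
  have hgoal : 0 ≤ D (z + 1 - w) + D (z + 1 + w) := by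
    rcases le_or_gt (z + 1) (w:ℤ) with h | h
    · have h1 := step (z + 1).toNat (by omega)
      rw [Int.toNat_of_nonneg (by omega)] at h1
      have h2 := hDneg ((w:ℤ) - (z + 1))
      rw [show -((w:ℤ) - (z + 1)) = z + 1 - w by ring] at h2
      rw [h2, show z + 1 + (w:ℤ) = w + (z + 1) by ring]
      linarith
    · have h1 := hDnn (z + 1 - w) (by omega)
      have h2 := hDnn (z + 1 + w) (by omega)
      linarith
  simp only [hD] at hgoal
  rw [show z + 1 - (w:ℤ) - 1 = z - w by ring, show z + 1 - (w:ℤ) + 1 = z + 2 - w by ring,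
    show z + 1 + (w:ℤ) - 1 = z + w by ring, show z + 1 + (w:ℤ) + 1 = z + 2 + w by ring] at hgoal
  linarith

/-! ### many weights among enough unit weights -/

theorem UL_units_many (a : Fin n → ℤ) (T : Finset (Fin n)) (hT : ∀ i ∈ T, 2 ≤ a i) :
    ∀ U : Finset (Fin n), Disjoint T U → (∀ i ∈ U, a i = 1) →
      ∑ i ∈ T, ((a i) ^ 2 - 2) ≤ (U.card : ℤ) → UL a (T ∪ U) 1 := by
  classical
  induction T using Finset.induction_on with
  | empty =>
    intro U _ hU _
    rw [empty_union]
    exact UL_units a U hU
  | insert i T hiT ih =>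
    intro U hd hU hsum
    rw [sum_insert hiT] at hsum
    rw [disjoint_insert_left] at hd
    have hi2 : 2 ≤ a i := hT i (mem_insert_self _ _)
    have hT' : ∀ j ∈ T, 2 ≤ a j := fun j hj => hT j (mem_insert_of_mem hj)
    have hT0 : 0 ≤ ∑ i ∈ T, ((a i) ^ 2 - 2) := by
      apply sum_nonneg
      intro j hj
      have := hT' j hj
      nlinarith
    have hk0 : 0 ≤ (a i) ^ 2 - 2 := by nlinarith
    obtain ⟨U1, hU1, hc1⟩ := exists_subset_card_eq (s := U) (n := ((a i) ^ 2 - 2).toNat) (by
      have : (((a i) ^ 2 - 2).toNat : ℤ) ≤ U.card := by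
        rw [Int.toNat_of_nonneg hk0]; linarith
      exact_mod_cast this)
    have hc1' : (U1.card : ℤ) = (a i) ^ 2 - 2 := by
      rw [hc1, Int.toNat_of_nonneg hk0]
    have hc2 : ((U \ U1).card : ℤ) = U.card - U1.card := by
      have := card_sdiff_add_card_eq_card hU1
      push_cast [← this]; ring
    have hiU : i ∉ U := hd.1
    have h1 : UL a (insert i U1) 1 := by
      apply UL_w a U1 (fun j hj => hU j (hU1 hj)) i (fun h => hiU (hU1 h)) (a i).toNat
        (by rw [Int.toNat_of_nonneg (by omega)])
      · omega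
      · have : (((a i).toNat : ℤ)) ^ 2 ≤ (U1.card : ℤ) + 2 := by
          rw [Int.toNat_of_nonneg (by omega), hc1']; linarith
        exact_mod_cast this
    have h2 : UL a (T ∪ (U \ U1)) 1 := by
      apply ih hT'
      · exact disjoint_of_subset_right sdiff_subset hd.2
      · intro j hj
        exact hU j (mem_sdiff.mp hj).1
      · rw [hc2, hc1']; linarith
    have h3 : insert i T ∪ U = insert i U1 ∪ (T ∪ (U \ U1)) := by
      ext j
      simp only [mem_union, mem_insert, mem_sdiff]
      constructor
      · rintro ((h | h) | h)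
        · left; left; exact h
        · right; left; exact h
        · by_cases h' : j ∈ U1
          · left; right; exact h'
          · right; right; exact ⟨h, h'⟩
      · rintro ((h | h) | (h | h))
        · left; left; exact h
        · right; exact hU1 h
        · left; right; exact h
        · right; exact h.1
    rw [h3]
    apply UL_conv a _ _ _ h2 h1
    rw [disjoint_left]
    intro j hj hj2
    rw [mem_insert] at hj
    rw [mem_union, mem_sdiff] at hj2
    rcases hj with h | h
    · rcases hj2 with h' | h'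
      · rw [h] at h'; exact hiT h'
      · rw [h] at h'; exact hiU h'.1
    · rcases hj2 with h' | h'
      · exact disjoint_left.mp hd.2 h' (hU1 h)
      · exact h'.2 h

/-- nonnegative weights, the weights at least three being paid for by unit weights -/
theorem UL_mass (a : Fin n → ℤ) (s : Finset (Fin n)) (hnn : ∀ i ∈ s, 0 ≤ a i)
    (h : ∑ i ∈ s.filter (fun i => 3 ≤ a i), ((a i) ^ 2 - 2) + 1
      ≤ ((s.filter (fun i => a i = 1)).card : ℤ)) : UL a s 1 := by
  classical
  set T := s.filter (fun i => 3 ≤ a i) with hT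
  set U := s.filter (fun i => a i = 1) with hU
  have hT0 : 0 ≤ ∑ i ∈ T, ((a i) ^ 2 - 2) := by
    apply sum_nonneg
    intro j hj
    rw [hT, mem_filter] at hj
    nlinarith [hj.2]
  have hUpos : 0 < U.card := by
    have : (0:ℤ) < U.card := by linarith
    exact_mod_cast this
  obtain ⟨u0, hu0⟩ := card_pos.mp hUpos
  have hu0' := hu0
  rw [hU, mem_filter] at hu0'
  -- the block of the small weights
  set B := insert u0 (s.filter (fun i => a i = 0 ∨ a i = 2)) with hB
  have hBU : UL a B 1 := by
    apply UL_dyadic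
    · intro i hi
      rw [hB, mem_insert, mem_filter] at hi
      rcases hi with hi | ⟨_, hi | hi⟩
      · right; exact ⟨0, by rw [hi, hu0'.2]; norm_num⟩
      · left; exact hi
      · right; exact ⟨1, by rw [hi]; norm_num⟩
    · rintro l ⟨i, hi, hil⟩
      have hl0 : l = 0 := by
        rw [hB, mem_insert, mem_filter] at hi
        by_contra hl
        have h4 : (2:ℤ) ^ 2 ≤ 2 ^ (l + 1) := pow_le_pow_right₀ (by norm_num) (by omega)
        rcases hi with hi | ⟨_, hi | hi⟩
        · rw [hi, hu0'.2] at hil; omega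
        · rw [hi] at hil; omega
        · rw [hi] at hil; omega
      subst hl0
      exact ⟨u0, mem_insert_self _ _, by rw [hu0'.2]; norm_num⟩
  have hTU : UL a (T ∪ U.erase u0) 1 := by
    apply UL_units_many
    · intro i hi
      rw [hT, mem_filter] at hi
      omega
    · rw [disjoint_left]
      intro i hi hi2
      rw [hT, mem_filter] at hi
      rw [mem_erase, hU, mem_filter] at hi2
      omega
    · intro i hi
      rw [mem_erase, hU, mem_filter] at hi
      exact hi.2.2
    · rw [card_erase_of_mem hu0]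
      push_cast [Nat.cast_sub (show 1 ≤ U.card from hUpos)]
      linarith
  have hset : s = B ∪ (T ∪ U.erase u0) := by
    ext j
    rw [mem_union, mem_union, hB, mem_insert, mem_filter, hT, mem_filter, mem_erase, hU, mem_filter]
    constructor
    · intro hj
      have h0 := hnn j hj
      by_cases h1 : j = u0
      · left; left; exact h1
      · rcases (by omega : a j = 0 ∨ a j = 2 ∨ a j = 1 ∨ 3 ≤ a j) with h2 | h2 | h2 | h2
        · left; right; exact ⟨hj, Or.inl h2⟩
        · left; right; exact ⟨hj, Or.inr h2⟩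
        · right; right; exact ⟨h1, hj, h2⟩
        · right; left; exact ⟨hj, h2⟩
    · rintro ((h1 | h1) | (h1 | h1))
      · rw [h1]; exact hu0'.1
      · exact h1.1
      · exact h1.1
      · exact h1.2.1
  rw [hset]
  apply UL_conv a _ _ _ hTU hBU
  rw [disjoint_left]
  intro j hj hj2
  rw [hB, mem_insert, mem_filter] at hj
  rw [mem_union, hT, mem_filter, mem_erase, hU, mem_filter] at hj2
  rcases hj with h1 | ⟨_, h1⟩
  · rcases hj2 with h2 | h2
    · rw [h1] at h2; omega
    · exact h2.1 h1
  · rcases hj2 with h2 | h2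
    · omega
    · omega

end Pool.Agent.MP_cb3c9c_an.UNI
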