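import Mathlib

set_option autoImplicit false

open Finset

namespace Pool.Agent.MP_cb3c9c_an.UNI

/-- A bit `true` is read as `-1`, a bit `false` as `1`. -/
def sg (b : Bool) : ℤ := if b then -1 else 1

/-- The integer form `∑ a_i x_i`. -/
def Zf {n : ℕ} (a : Fin n → ℤ) (x : Fin n → Bool) : ℤ := ∑ i, a i * sg (x i)

/-- Uniform expectation on the cube. -/
noncomputable def E {n : ℕ} (F : (Fin n → Bool) → ℝ) : ℝ := (∑ x, F x) / (2:ℝ) ^ n

/-- Real sign of an integer. -/
noncomputable def sn (z : ℤ) : ℝ := ((z.sign : ℤ) : ℝ)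

/-- Indicator of `z = w`. -/
noncomputable def ind (z w : ℤ) : ℝ := if z = w then 1 else 0

/-- Chow parameter of `sgn (∑ a_i x_i)`. -/
noncomputable def p {n : ℕ} (a : Fin n → ℤ) (j : Fin n) : ℝ :=
  E (fun x => (sg (x j) : ℝ) * sn (Zf a x))

noncomputable def W {n : ℕ} (a : Fin n → ℤ) : ℝ := ∑ j, (p a j) ^ 2

/-- The form without the coordinate `j`. -/
def Yf {n : ℕ} (a : Fin n → ℤ) (j : Fin n) (x : Fin n → Bool) : ℤ := Zf a x - a j * sg (x j)

/-- The law of the form without the coordinate `j`. -/
noncomputable def q {n : ℕ} (a : Fin n → ℤ) (j : Fin n) (z : ℤ) : ℝ :=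
  E (fun x => ind (Yf a j x) z)

noncomputable def ev {n : ℕ} (a : Fin n → ℤ) (j : Fin n) : ℝ :=
  E (fun x => (sg (x j) : ℝ) * ind (Zf a x) 1)

noncomputable def p1 {n : ℕ} (a : Fin n → ℤ) : ℝ := E (fun x => ind (Zf a x) 1)

section Ebasic

variable {n : ℕ}

theorem E_add (F G : (Fin n → Bool) → ℝ) : E (fun x => F x + G x) = E F + E G := by
  unfold E; rw [sum_add_distrib, add_div]

theorem E_sub (F G : (Fin n → Bool) → ℝ) : E (fun x => F x - G x) = E F - E G := by
  unfold E; rw [sum_sub_distrib, sub_div]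

theorem E_mul (c : ℝ) (F : (Fin n → Bool) → ℝ) : E (fun x => c * F x) = c * E F := by
  unfold E; rw [← mul_sum, mul_div_assoc]

theorem E_sum {ι : Type*} (s : Finset ι) (F : ι → (Fin n → Bool) → ℝ) :
    E (fun x => ∑ i ∈ s, F i x) = ∑ i ∈ s, E (F i) := by
  unfold E; rw [sum_comm, sum_div]

theorem E_congr {F G : (Fin n → Bool) → ℝ} (h : ∀ x, F x = G x) : E F = E G := by
  have : F = G := funext h
  rw [this]

/-- flip of the coordinate `j` -/
def flip (j : Fin n) (x : Fin n → Bool) : Fin n → Bool := Function.update x j (!(x j))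

theorem flip_flip (j : Fin n) (x : Fin n → Bool) : flip j (flip j x) = x := by
  funext i
  unfold flip
  by_cases h : i = j
  · subst h; simp
  · simp [Function.update_of_ne h]

theorem flip_bij (j : Fin n) : Function.Bijective (flip j) :=
  Function.Involutive.bijective (flip_flip j)

theorem E_flip (j : Fin n) (F : (Fin n → Bool) → ℝ) : E (fun x => F (flip j x)) = E F := by
  unfold E
  rw [Function.Bijective.sum_comp (flip_bij j) F]

theorem sg_not (b : Bool) : sg (!b) = - sg b := by cases b <;> simp [sg]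

theorem E_neg (F : (Fin n → Bool) → ℝ) : E (fun x => F (fun i => !(x i))) = E F := by
  unfold E
  have hb : Function.Bijective (fun (x : Fin n → Bool) (i : Fin n) => !(x i)) := by
    apply Function.Involutive.bijective
    intro x; funext i; simp
  congr 1
  exact hb.sum_comp F

theorem E_mask (m : Fin n → Bool) (F : (Fin n → Bool) → ℝ) :
    E (fun x => F (fun i => xor (m i) (x i))) = E F := by
  unfold E
  have hb : Function.Bijective (fun (x : Fin n → Bool) (i : Fin n) => xor (m i) (x i)) := by
    apply Function.Involutive.bijective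
    intro x; funext i
    show xor (m i) (xor (m i) (x i)) = x i
    cases m i <;> cases x i <;> rfl
  congr 1
  exact hb.sum_comp F

theorem E_succ (F : (Fin (n + 1) → Bool) → ℝ) :
    E F = (E (fun x => F (Fin.cons false x)) + E (fun x => F (Fin.cons true x))) / 2 := by
  unfold E
  have h : ∑ x : Fin (n + 1) → Bool, F x
      = ∑ x : Fin n → Bool, F (Fin.cons false x) + ∑ x : Fin n → Bool, F (Fin.cons true x) := by
    rw [← (Fin.consEquiv (fun _ : Fin (n + 1) => Bool)).sum_comp F, Fintype.sum_prod_type,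
      Fintype.sum_bool, add_comm]
    rfl
  rw [h, pow_succ]
  field_simp

end Ebasic

section forms

variable {n : ℕ} (a : Fin n → ℤ)

theorem Zf_flip (j : Fin n) (x : Fin n → Bool) : Zf a (flip j x) = Zf a x - 2 * (a j * sg (x j)) := by
  have h1 : Zf a (flip j x) - Zf a x = ∑ i, (a i * sg (flip j x i) - a i * sg (x i)) := by
    unfold Zf; rw [← sum_sub_distrib]
  have h2 : ∑ i, (a i * sg (flip j x i) - a i * sg (x i)) = a j * sg (flip j x j) - a j * sg (x j) := by
    apply Finset.sum_eq_single j
    · intro i _ hij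
      have : flip j x i = x i := by unfold flip; rw [Function.update_of_ne hij]
      rw [this]; ring
    · intro h; exact absurd (mem_univ j) h
  have h3 : flip j x j = !(x j) := by unfold flip; simp
  rw [h3, sg_not] at h2
  rw [h2] at h1
  linarith

theorem flip_same (j : Fin n) (x : Fin n → Bool) : sg (flip j x j) = - sg (x j) := by
  have h3 : flip j x j = !(x j) := by unfold flip; simp
  rw [h3, sg_not]

theorem Yf_flip (j : Fin n) (x : Fin n → Bool) : Yf a j (flip j x) = Yf a j x := by
  unfold Yf; rw [Zf_flip, flip_same]; ring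

theorem Zf_eq (j : Fin n) (x : Fin n → Bool) : Zf a x = Yf a j x + a j * sg (x j) := by
  unfold Yf; ring

theorem E_bit (j : Fin n) (φ : ℤ → ℝ) :
    E (fun x => (sg (x j) : ℝ) * φ (Zf a x))
      = E (fun x => (φ (Yf a j x + a j) - φ (Yf a j x - a j)) / 2) := by
  have h1 : E (fun x => (sg (x j) : ℝ) * φ (Zf a x))
      = (E (fun x => (sg (x j) : ℝ) * φ (Zf a x))
        + E (fun x => (sg (flip j x j) : ℝ) * φ (Zf a (flip j x)))) / 2 := by
    rw [E_flip j (fun x => (sg (x j) : ℝ) * φ (Zf a x))]; ring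
  rw [h1, ← E_add]
  have h2 : ∀ F : (Fin n → Bool) → ℝ, E F / 2 = E (fun x => F x / 2) := by
    intro F
    have := E_mul (1/2) F
    rw [show (fun x => F x / 2) = (fun x => 1 / 2 * F x) from by funext x; ring, this]; ring
  rw [h2]
  apply E_congr
  intro x
  rw [flip_same, Zf_eq a j x, Zf_eq a j (flip j x), Yf_flip, flip_same]
  rcases hb : x j with _ | _
  · have : sg false = 1 := rfl
    rw [this]; push_cast
    rw [show Yf a j x + a j * 1 = Yf a j x + a j by ring,
      show Yf a j x + a j * -1 = Yf a j x - a j by ring]; ring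
  · have : sg true = -1 := rfl
    rw [this]
    rw [show Yf a j x + a j * -1 = Yf a j x - a j by ring,
      show Yf a j x + a j * - -1 = Yf a j x + a j by ring]; push_cast; ring

theorem E_Z (j : Fin n) (φ : ℤ → ℝ) :
    E (fun x => φ (Zf a x))
      = E (fun x => (φ (Yf a j x + a j) + φ (Yf a j x - a j)) / 2) := by
  have h1 : E (fun x => φ (Zf a x))
      = (E (fun x => φ (Zf a x)) + E (fun x => φ (Zf a (flip j x)))) / 2 := by
    rw [E_flip j (fun x => φ (Zf a x))]; ring
  rw [h1, ← E_add]
  have h2 : ∀ F : (Fin n → Bool) → ℝ, E F / 2 = E (fun x => F x / 2) := by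
    intro F
    have := E_mul (1/2) F
    rw [show (fun x => F x / 2) = (fun x => 1 / 2 * F x) from by funext x; ring, this]; ring
  rw [h2]
  apply E_congr
  intro x
  rw [Zf_eq a j x, Zf_eq a j (flip j x), Yf_flip, flip_same]
  rcases hb : x j with _ | _
  · have : sg false = 1 := rfl
    rw [this]
    rw [show Yf a j x + a j * 1 = Yf a j x + a j by ring,
      show Yf a j x + a j * -1 = Yf a j x - a j by ring]
  · have : sg true = -1 := rfl
    rw [this]
    rw [show Yf a j x + a j * -1 = Yf a j x - a j by ring,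
      show Yf a j x + a j * - -1 = Yf a j x + a j by ring]; ring

theorem Zf_not (x : Fin n → Bool) : Zf a (fun i => !(x i)) = - Zf a x := by
  unfold Zf
  rw [← sum_neg_distrib]
  apply sum_congr rfl
  intro i _
  rw [sg_not]; ring

theorem Yf_not (j : Fin n) (x : Fin n → Bool) : Yf a j (fun i => !(x i)) = - Yf a j x := by
  unfold Yf
  rw [Zf_not, sg_not]; ring

theorem ind_neg (z w : ℤ) : ind (-z) w = ind z (-w) := by
  unfold ind
  by_cases h : z = -w
  · rw [if_pos h, if_pos (by omega)]
  · rw [if_neg h, if_neg (by omega)]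

theorem q_symm (j : Fin n) (z : ℤ) : q a j (-z) = q a j z := by
  unfold q
  rw [← E_neg (fun x => ind (Yf a j x) (-z))]
  apply E_congr
  intro x
  rw [Yf_not, ind_neg, neg_neg]

theorem ev_eq (j : Fin n) : ev a j = (q a j (1 - a j) - q a j (1 + a j)) / 2 := by
  unfold ev
  rw [E_bit a j (fun z => ind z 1)]
  unfold q
  rw [← E_sub]
  have h2 : ∀ F : (Fin n → Bool) → ℝ, E F / 2 = E (fun x => F x / 2) := by
    intro F
    have := E_mul (1/2) F
    rw [show (fun x => F x / 2) = (fun x => 1 / 2 * F x) from by funext x; ring, this]; ring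
  rw [h2]
  apply E_congr
  intro x
  have e1 : ind (Yf a j x + a j) 1 = ind (Yf a j x) (1 - a j) := by
    unfold ind
    by_cases h : Yf a j x = 1 - a j
    · rw [if_pos h, if_pos (by omega)]
    · rw [if_neg h, if_neg (by omega)]
  have e2 : ind (Yf a j x - a j) 1 = ind (Yf a j x) (1 + a j) := by
    unfold ind
    by_cases h : Yf a j x = 1 + a j
    · rw [if_pos h, if_pos (by omega)]
    · rw [if_neg h, if_neg (by omega)]
  rw [e1, e2]

theorem p1_eq (j : Fin n) : p1 a = (q a j (1 - a j) + q a j (1 + a j)) / 2 := by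
  unfold p1
  rw [E_Z a j (fun z => ind z 1)]
  unfold q
  rw [← E_add]
  have h2 : ∀ F : (Fin n → Bool) → ℝ, E F / 2 = E (fun x => F x / 2) := by
    intro F
    have := E_mul (1/2) F
    rw [show (fun x => F x / 2) = (fun x => 1 / 2 * F x) from by funext x; ring, this]; ring
  rw [h2]
  apply E_congr
  intro x
  have e1 : ind (Yf a j x + a j) 1 = ind (Yf a j x) (1 - a j) := by
    unfold ind
    by_cases h : Yf a j x = 1 - a j
    · rw [if_pos h, if_pos (by omega)]
    · rw [if_neg h, if_neg (by omega)]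
  have e2 : ind (Yf a j x - a j) 1 = ind (Yf a j x) (1 + a j) := by
    unfold ind
    by_cases h : Yf a j x = 1 + a j
    · rw [if_pos h, if_pos (by omega)]
    · rw [if_neg h, if_neg (by omega)]
  rw [e1, e2]

theorem p1_add_ev (j : Fin n) : p1 a + ev a j = q a j (1 - a j) := by
  rw [p1_eq a j, ev_eq a j]; ring

theorem sum_ev : ∑ j, (a j : ℝ) * ev a j = p1 a := by
  unfold ev p1
  simp_rw [← E_mul]
  rw [← E_sum]
  apply E_congr
  intro x
  have h1 : ∀ i ∈ (univ : Finset (Fin n)), (a i : ℝ) * ((sg (x i) : ℝ) * ind (Zf a x) 1)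
      = ((a i : ℝ) * (sg (x i) : ℝ)) * ind (Zf a x) 1 := by
    intro i _; ring
  rw [sum_congr rfl h1, ← sum_mul]
  have h2 : ∑ i, (a i : ℝ) * (sg (x i) : ℝ) = ((Zf a x : ℤ) : ℝ) := by
    unfold Zf; push_cast; rfl
  rw [h2]
  unfold ind
  by_cases h : Zf a x = 1
  · rw [if_pos h, h]; norm_num
  · rw [if_neg h]; ring

theorem Zf_parity (x : Fin n → Bool) : ∃ k : ℤ, Zf a x = (∑ i, a i) + 2 * k := by
  refine ⟨∑ i, (if x i then - a i else 0), ?_⟩
  unfold Zf
  rw [mul_sum, ← sum_add_distrib]
  apply sum_congr rfl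
  intro i _
  rcases x i with _ | _
  · simp [sg]
  · simp [sg]; ring

theorem Zf_odd (h : Odd (∑ i, a i)) (x : Fin n → Bool) : Odd (Zf a x) := by
  obtain ⟨k, hk⟩ := Zf_parity a x
  rw [hk]
  exact h.add_even (even_two_mul k)

theorem sg_sq (b : Bool) : sg b = 1 ∨ sg b = -1 := by cases b <;> simp [sg]

/-- pointwise decomposition of the pivotality window -/
theorem window (m : ℕ) (y : ℤ) (h : Odd (y + m)) :
    (sn (y + m) - sn (y - m)) / 2 = ∑ k ∈ range m, ind y (1 - m + 2 * (k : ℤ)) := by
  obtain ⟨w, hw⟩ := h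
  by_cases h1 : y < m ∧ -(m : ℤ) < y
  · obtain ⟨h1a, h1b⟩ := h1
    have hw0 : 0 ≤ w := by omega
    have hwm : w < m := by omega
    obtain ⟨k0, hk0⟩ := Int.eq_ofNat_of_zero_le hw0
    rw [Finset.sum_eq_single k0]
    · have e1 : sn (y + m) = 1 := by
        unfold sn; rw [Int.sign_eq_one_of_pos (by omega)]; norm_num
      have e2 : sn (y - m) = -1 := by
        unfold sn; rw [Int.sign_eq_neg_one_of_neg (by omega)]; norm_num
      rw [e1, e2]
      unfold ind
      rw [if_pos (by omega)]; norm_num
    · intro k _ hk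
      unfold ind
      rw [if_neg]
      intro hh
      apply hk
      omega
    · intro hk
      exfalso; apply hk
      rw [mem_range]; omega
  · have hR : ∑ k ∈ range m, ind y (1 - m + 2 * (k : ℤ)) = 0 := by
      apply sum_eq_zero
      intro k hk
      rw [mem_range] at hk
      unfold ind
      rw [if_neg]
      intro hh
      apply h1
      constructor <;> omega
    rw [hR]
    by_cases h2 : y < m
    · have h3 : y < -(m : ℤ) := by
        by_contra h4
        apply h1
        exact ⟨h2, by omega⟩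
      have e1 : sn (y + m) = -1 := by
        unfold sn; rw [Int.sign_eq_neg_one_of_neg (by omega)]; norm_num
      have e2 : sn (y - m) = -1 := by
        unfold sn; rw [Int.sign_eq_neg_one_of_neg (by omega)]; norm_num
      rw [e1, e2]; norm_num
    · have h3 : (m : ℤ) < y := by omega
      have e1 : sn (y + m) = 1 := by
        unfold sn; rw [Int.sign_eq_one_of_pos (by omega)]; norm_num
      have e2 : sn (y - m) = 1 := by
        unfold sn; rw [Int.sign_eq_one_of_pos (by omega)]; norm_num
      rw [e1, e2]; norm_num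

theorem p_eq (h : Odd (∑ i, a i)) (j : Fin n) (m : ℕ) (hm : a j = m) :
    p a j = ∑ k ∈ range m, q a j (1 - m + 2 * (k : ℤ)) := by
  unfold p q
  rw [E_bit a j sn, ← E_sum]
  apply E_congr
  intro x
  rw [hm]
  apply window
  have h1 := Zf_odd a h x
  have h2 := Zf_eq a j x
  rw [hm] at h2
  rcases sg_sq (x j) with h3 | h3
  · rw [h3] at h2; rw [h2] at h1; simpa using h1
  · rw [h3] at h2
    have h4 : Yf a j x + m = Zf a x + 2 * m := by omega
    rw [h4]
    exact h1.add_even (even_two_mul _)

/-- `P (Y_j = z + 2) ≤ P (Y_j = z)` for `z ≥ 0`: the law of the form without the coordinate `j`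
is unimodal on its lattice. -/
def Uni (j : Fin n) : Prop := ∀ z : ℤ, 0 ≤ z → q a j (z + 2) ≤ q a j z

theorem q_nonneg (j : Fin n) (z : ℤ) : 0 ≤ q a j z := by
  unfold q E
  apply div_nonneg
  · apply sum_nonneg
    intro x _
    unfold ind; split_ifs <;> norm_num
  · positivity

theorem uni_chain {j : Fin n} (hU : Uni a j) (z : ℤ) (hz : 0 ≤ z) (k : ℕ) :
    q a j (z + 2 * k) ≤ q a j z := by
  induction k with
  | zero => simp
  | succ k ih =>
    have := hU (z + 2 * k) (by positivity)
    rw [show z + 2 * ((k + 1 : ℕ) : ℤ) = z + 2 * (k : ℤ) + 2 by push_cast; ring]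
    exact this.trans ih

theorem rev_nonneg (h : Odd (∑ i, a i)) (j : Fin n) (m : ℕ) (hm : a j = m)
    (hU : 3 ≤ m → Uni a j) :
    0 ≤ (p a j - m * q a j (1 - m)) * ev a j := by
  rw [p_eq a h j m hm, ev_eq, hm]
  rcases Nat.lt_or_ge m 3 with h3 | h3
  · have h0 : ∑ k ∈ range m, q a j (1 - m + 2 * (k : ℤ)) - m * q a j (1 - m) = 0 := by
      interval_cases m
      · simp
      · simp
      · rw [sum_range_succ, sum_range_succ, sum_range_zero]
        have := q_symm a j 1
        norm_num
        rw [this]; ring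
    rw [h0]; simp
  · apply mul_nonneg
    · have hkey : ∀ k ∈ range m, q a j (1 - m) ≤ q a j (1 - m + 2 * (k : ℤ)) := by
        intro k hk
        rw [mem_range] at hk
        have e1 : q a j (1 - m) = q a j (m - 1) := by
          rw [← q_symm a j (1 - m)]; congr 1; ring
        rw [e1]
        rcases le_total 0 (1 - (m : ℤ) + 2 * k) with hs | hs
        · obtain ⟨t, ht⟩ : ∃ t : ℕ, (m : ℤ) - 1 = (1 - (m : ℤ) + 2 * k) + 2 * t := by
            refine ⟨m - 1 - k, ?_⟩
            omega
          rw [ht]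
          exact uni_chain a (hU h3) _ hs t
        · rw [← q_symm a j (1 - m + 2 * (k : ℤ))]
          obtain ⟨t, ht⟩ : ∃ t : ℕ, (m : ℤ) - 1 = -(1 - (m : ℤ) + 2 * k) + 2 * t := by
            refine ⟨k, ?_⟩
            omega
          rw [ht]
          exact uni_chain a (hU h3) _ (by omega) t
      have := sum_le_sum hkey
      rw [sum_const, card_range, nsmul_eq_mul] at this
      linarith
    · have e1 : q a j (1 - m) = q a j (m - 1) := by
        rw [← q_symm a j (1 - m)]; congr 1; ring
      have e2 := hU h3 ((m : ℤ) - 1) (by omega)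
      rw [e1]
      rw [show (m : ℤ) - 1 + 2 = 1 + m by ring] at e2
      linarith

end forms

end Pool.Agent.MP_cb3c9c_an.UNI
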