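import Pool.Agent.MP_cb3c9c_an.UNI.Final

set_option autoImplicit false

open Finset

namespace Pool.Agent.MP_cb3c9c_an.UNI

variable {n : ℕ}

noncomputable def Pz (a : Fin n → ℤ) (z : ℤ) : ℝ := E (fun x => ind (Zf a x) z)
noncomputable def Ev (a : Fin n → ℤ) (j : Fin n) (z : ℤ) : ℝ :=
  E (fun x => (sg (x j) : ℝ) * ind (Zf a x) z)

theorem E_half (F : (Fin n → Bool) → ℝ) : E (fun x => F x / 2) = E F / 2 := by
  have := E_mul (1/2) F
  rw [show (fun x => F x / 2) = (fun x => 1 / 2 * F x) from by funext x; ring, this]; ring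

theorem ind_add (y a w : ℤ) : ind (y + a) w = ind y (w - a) := by
  unfold ind
  by_cases h : y = w - a
  · rw [if_pos h, if_pos (by omega)]
  · rw [if_neg h, if_neg (by omega)]

theorem ind_sub (y a w : ℤ) : ind (y - a) w = ind y (w + a) := by
  unfold ind
  by_cases h : y = w + a
  · rw [if_pos h, if_pos (by omega)]
  · rw [if_neg h, if_neg (by omega)]

theorem Ev_eq (a : Fin n → ℤ) (j : Fin n) (w : ℤ) :
    Ev a j w = (q a j (w - a j) - q a j (w + a j)) / 2 := by
  unfold Ev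
  rw [E_bit a j (fun z => ind z w)]
  unfold q
  rw [← E_sub, ← E_half]
  apply E_congr
  intro x
  rw [ind_add, ind_sub]

theorem Pz_eq (a : Fin n → ℤ) (j : Fin n) (w : ℤ) :
    Pz a w = (q a j (w - a j) + q a j (w + a j)) / 2 := by
  unfold Pz
  rw [E_Z a j (fun z => ind z w)]
  unfold q
  rw [← E_add, ← E_half]
  apply E_congr
  intro x
  rw [ind_add, ind_sub]

theorem sum_Ev (a : Fin n → ℤ) (w : ℤ) : ∑ j, (a j : ℝ) * Ev a j w = w * Pz a w := by
  unfold Ev Pz
  simp_rw [← E_mul]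
  rw [← E_sum]
  apply E_congr
  intro x
  have h1 : ∀ i ∈ (univ : Finset (Fin n)), (a i : ℝ) * ((sg (x i) : ℝ) * ind (Zf a x) w)
      = ((a i : ℝ) * (sg (x i) : ℝ)) * ind (Zf a x) w := by
    intro i _; ring
  rw [sum_congr rfl h1, ← sum_mul]
  have h2 : ∑ i, (a i : ℝ) * (sg (x i) : ℝ) = ((Zf a x : ℤ) : ℝ) := by
    unfold Zf; push_cast; rfl
  rw [h2]
  unfold ind
  by_cases h : Zf a x = w
  · rw [if_pos h, h]
  · rw [if_neg h]; ring

theorem Pz_neg (a : Fin n → ℤ) (w : ℤ) : Pz a (-w) = Pz a w := by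
  unfold Pz
  rw [← E_neg (fun x => ind (Zf a x) (-w))]
  apply E_congr
  intro x
  rw [Zf_not, ind_neg, neg_neg]

theorem Ev_neg (a : Fin n → ℤ) (j : Fin n) (w : ℤ) : Ev a j (-w) = - Ev a j w := by
  unfold Ev
  rw [← E_neg (fun x => (sg (x j) : ℝ) * ind (Zf a x) (-w))]
  have : -E (fun x => (sg (x j) : ℝ) * ind (Zf a x) w)
      = E (fun x => (-1) * ((sg (x j) : ℝ) * ind (Zf a x) w)) := by
    rw [E_mul]; ring
  rw [this]
  apply E_congr
  intro x
  rw [Zf_not, ind_neg, neg_neg, sg_not]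
  push_cast; ring

theorem Zf_even (a : Fin n → ℤ) (h : Even (∑ i, a i)) (x : Fin n → Bool) : Even (Zf a x) := by
  obtain ⟨k, hk⟩ := Zf_parity a x
  rw [hk]
  exact h.add (even_two_mul k)

theorem sn_pos {t : ℤ} (ht : 0 < t) : sn t = 1 := by
  unfold sn; rw [Int.sign_eq_one_of_pos ht]; norm_num

theorem sn_negv {t : ℤ} (ht : t < 0) : sn t = -1 := by
  unfold sn; rw [Int.sign_eq_neg_one_of_neg ht]; norm_num

theorem sn_zero : sn 0 = 0 := by
  unfold sn; simp

/-- pointwise decomposition of the pivotality window, even case -/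
theorem window_even (m : ℕ) (hm : 1 ≤ m) (y : ℤ) (h : Even (y + m)) :
    (sn (y + m) - sn (y - m)) / 2
      = ∑ k ∈ range (m - 1), ind y (2 - m + 2 * (k : ℤ)) + (ind y m + ind y (-m)) / 2 := by
  obtain ⟨w, hw⟩ := h
  by_cases hA : y = m
  · have h1 : ∑ k ∈ range (m - 1), ind y (2 - m + 2 * (k : ℤ)) = 0 := by
      apply sum_eq_zero
      intro k hk
      rw [mem_range] at hk
      unfold ind; rw [if_neg]; omega
    rw [h1, hA, sn_pos (by omega : (0:ℤ) < m + m), show (m : ℤ) - m = 0 by ring, sn_zero]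
    unfold ind
    rw [if_pos rfl, if_neg (by omega)]; norm_num
  by_cases hB : y = -(m : ℤ)
  · have h1 : ∑ k ∈ range (m - 1), ind y (2 - m + 2 * (k : ℤ)) = 0 := by
      apply sum_eq_zero
      intro k hk
      rw [mem_range] at hk
      unfold ind; rw [if_neg]; omega
    rw [h1, hB, sn_negv (by omega : -(m:ℤ) - m < 0), show -(m : ℤ) + m = 0 by ring, sn_zero]
    unfold ind
    rw [if_neg (by omega), if_pos rfl]; norm_num
  have hz : (ind y m + ind y (-m)) / 2 = 0 := by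
    unfold ind
    rw [if_neg hA, if_neg hB]; norm_num
  rw [hz, add_zero]
  by_cases h1 : y < m ∧ -(m : ℤ) < y
  · obtain ⟨h1a, h1b⟩ := h1
    obtain ⟨k0, hk0⟩ := Int.eq_ofNat_of_zero_le (by omega : 0 ≤ w - 1)
    rw [Finset.sum_eq_single k0]
    · rw [sn_pos (by omega), sn_negv (by omega)]
      unfold ind
      rw [if_pos (by omega)]; norm_num
    · intro k _ hk
      unfold ind
      rw [if_neg]
      intro hh
      apply hk
      omega
    · intro hk
      exfalso; apply hk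
      rw [mem_range]; omega
  · have hR : ∑ k ∈ range (m - 1), ind y (2 - m + 2 * (k : ℤ)) = 0 := by
      apply sum_eq_zero
      intro k hk
      rw [mem_range] at hk
      unfold ind
      rw [if_neg]
      intro hh
      apply h1
      constructor <;> omega
    rw [hR]
    by_cases h2 : y < m
    · have h3 : y < -(m : ℤ) := by
        by_contra h4
        apply h1
        exact ⟨h2, by omega⟩
      rw [sn_negv (by omega : y + m < 0), sn_negv (by omega : y - m < 0)]; norm_num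
    · have h3 : (m : ℤ) < y := by omega
      rw [sn_pos (by omega : 0 < y + m), sn_pos (by omega : 0 < y - m)]; norm_num

theorem p_even (a : Fin n → ℤ) (h : Even (∑ i, a i)) (j : Fin n) (m : ℕ) (hm1 : 1 ≤ m)
    (hm : a j = m) :
    p a j = ∑ k ∈ range (m - 1), q a j (2 - m + 2 * (k : ℤ)) + q a j m := by
  have e1 : q a j m = (q a j m + q a j (-m)) / 2 := by rw [q_symm]; ring
  rw [e1]
  unfold p q
  rw [E_bit a j sn, ← E_sum, ← E_add, ← E_half, ← E_add]
  apply E_congr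
  intro x
  rw [hm]
  apply window_even m hm1
  have h1 := Zf_even a h x
  have h2 := Zf_eq a j x
  rw [hm] at h2
  rcases sg_sq (x j) with h3 | h3
  · rw [h3] at h2; rw [h2] at h1; simpa using h1
  · rw [h3] at h2
    have h4 : Yf a j x + m = Zf a x + 2 * m := by omega
    rw [h4]
    exact h1.add (even_two_mul _)

theorem p_even_ge (a : Fin n → ℤ) (h : Even (∑ i, a i)) (j : Fin n) (m : ℕ) (hm1 : 1 ≤ m)
    (hm : a j = m) (hU : Uni a j) :
    ((m : ℝ) - 1) * q a j (m - 2) + q a j m ≤ p a j := by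
  rw [p_even a h j m hm1 hm]
  have hkey : ∀ k ∈ range (m - 1), q a j (m - 2) ≤ q a j (2 - m + 2 * (k : ℤ)) := by
    intro k hk
    rw [mem_range] at hk
    rcases le_total 0 (2 - (m : ℤ) + 2 * k) with hs | hs
    · obtain ⟨t, ht⟩ : ∃ t : ℕ, (m : ℤ) - 2 = (2 - (m : ℤ) + 2 * k) + 2 * t := by
        refine ⟨m - 2 - k, ?_⟩
        omega
      rw [ht]
      exact uni_chain a hU _ hs t
    · rw [← q_symm a j (2 - m + 2 * (k : ℤ))]
      obtain ⟨t, ht⟩ : ∃ t : ℕ, (m : ℤ) - 2 = -(2 - (m : ℤ) + 2 * k) + 2 * t := by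
        refine ⟨k, ?_⟩
        omega
      rw [ht]
      exact uni_chain a hU _ (by omega) t
  have := sum_le_sum hkey
  rw [sum_const, card_range, nsmul_eq_mul] at this
  have hc : ((m - 1 : ℕ) : ℝ) = (m : ℝ) - 1 := by
    rw [Nat.cast_sub hm1]; norm_num
  rw [hc] at this
  linarith

theorem sn_avg_even (z : ℤ) (h : Even z) :
    (sn (z + 2) + 2 * sn z + sn (z - 2)) / 4 = sn z - ind z 2 / 4 + ind z (-2) / 4 := by
  obtain ⟨w, hw⟩ := h
  rcases lt_trichotomy z 0 with h0 | h0 | h0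
  · by_cases h1 : z = -2
    · subst h1
      rw [show (-2:ℤ) + 2 = 0 by norm_num, sn_zero, sn_negv (by norm_num : (-2:ℤ) < 0),
        sn_negv (by norm_num : (-2:ℤ) - 2 < 0)]
      unfold ind; norm_num
    · rw [sn_negv (by omega : z + 2 < 0), sn_negv (by omega : z < 0), sn_negv (by omega : z - 2 < 0)]
      unfold ind
      rw [if_neg (by omega), if_neg (by omega)]; norm_num
  · subst h0
    rw [sn_zero, sn_pos (by norm_num : (0:ℤ) < 0 + 2), sn_negv (by norm_num : (0:ℤ) - 2 < 0)]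
    unfold ind; norm_num
  · by_cases h1 : z = 2
    · subst h1
      rw [show (2:ℤ) - 2 = 0 by norm_num, sn_zero, sn_pos (by norm_num : (0:ℤ) < 2),
        sn_pos (by norm_num : (0:ℤ) < 2 + 2)]
      unfold ind; norm_num
    · rw [sn_pos (by omega : 0 < z + 2), sn_pos (by omega : 0 < z), sn_pos (by omega : 0 < z - 2)]
      unfold ind
      rw [if_neg (by omega), if_neg (by omega)]; norm_num

theorem sn_diff_even (z : ℤ) (h : Even z) :
    (sn (z + 2) - sn (z - 2)) / 4 = (2 * ind z 0 + ind z 2 + ind z (-2)) / 4 := by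
  obtain ⟨w, hw⟩ := h
  rcases lt_trichotomy z 0 with h0 | h0 | h0
  · by_cases h1 : z = -2
    · subst h1
      rw [show (-2:ℤ) + 2 = 0 by norm_num, sn_zero, sn_negv (by norm_num : (-2:ℤ) - 2 < 0)]
      unfold ind; norm_num
    · rw [sn_negv (by omega : z + 2 < 0), sn_negv (by omega : z - 2 < 0)]
      unfold ind
      rw [if_neg (by omega), if_neg (by omega), if_neg (by omega)]; norm_num
  · subst h0
    rw [sn_pos (by norm_num : (0:ℤ) < 0 + 2), sn_negv (by norm_num : (0:ℤ) - 2 < 0)]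
    unfold ind; norm_num
  · by_cases h1 : z = 2
    · subst h1
      rw [show (2:ℤ) - 2 = 0 by norm_num, sn_zero, sn_pos (by norm_num : (0:ℤ) < 2 + 2)]
      unfold ind; norm_num
    · rw [sn_pos (by omega : 0 < z + 2), sn_pos (by omega : 0 < z - 2)]
      unfold ind
      rw [if_neg (by omega), if_neg (by omega), if_neg (by omega)]; norm_num

theorem p_two_0_even (a : Fin n → ℤ) (h : Even (∑ i, a i)) :
    p (two a) 0 = (Pz a 0 + Pz a 2) / 2 := by
  unfold p
  rw [E_two]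
  have h1 : E (fun x : Fin n → Bool => (2 * ind (Zf a x) 0 + ind (Zf a x) 2 + ind (Zf a x) (-2)) / 4)
      = (Pz a 0 + Pz a 2) / 2 := by
    have e1 : E (fun x : Fin n → Bool => (2 * ind (Zf a x) 0 + ind (Zf a x) 2 + ind (Zf a x) (-2)) / 4)
        = E (fun x => ((1/2) * ind (Zf a x) 0 + (1/4) * ind (Zf a x) 2) + (1/4) * ind (Zf a x) (-2)) := by
      apply E_congr; intro x; ring
    rw [e1, E_add, E_add, E_mul, E_mul, E_mul]
    have e2 := Pz_neg a 2
    unfold Pz at e2 ⊢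
    rw [e2]; ring
  rw [← h1]
  apply E_congr
  intro x
  rw [← sn_diff_even _ (Zf_even a h x)]
  simp only [two_Zf, Fin.cons_zero, sgF, sgT]
  rw [show (1:ℤ) + 1 + Zf a x = Zf a x + 2 by ring, show (1:ℤ) + -1 + Zf a x = Zf a x by ring,
    show (-1:ℤ) + 1 + Zf a x = Zf a x by ring, show (-1:ℤ) + -1 + Zf a x = Zf a x - 2 by ring]
  push_cast; ring

theorem p_two_1_even (a : Fin n → ℤ) (h : Even (∑ i, a i)) :
    p (two a) 1 = (Pz a 0 + Pz a 2) / 2 := by
  rw [← p_two_0_even a h]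
  unfold p
  rw [E_two, E_two]
  apply E_congr
  intro x
  have hc : ∀ b c : Bool, (Fin.cons b (Fin.cons c x : Fin (n + 1) → Bool) : Fin (n + 2) → Bool) 1 = c := by
    intro b c; rfl
  simp only [two_Zf, hc, Fin.cons_zero, sgF, sgT]
  rw [show (1:ℤ) + -1 + Zf a x = Zf a x by ring, show (-1:ℤ) + 1 + Zf a x = Zf a x by ring]
  push_cast; ring

theorem p_two_succ_even (a : Fin n → ℤ) (h : Even (∑ i, a i)) (j : Fin n) :
    p (two a) j.succ.succ = p a j - Ev a j 2 / 2 := by
  unfold p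
  rw [E_two]
  have h1 : E (fun x : Fin n → Bool => (sg (x j) : ℝ) * (sn (Zf a x) - ind (Zf a x) 2 / 4
      + ind (Zf a x) (-2) / 4)) = E (fun x => (sg (x j) : ℝ) * sn (Zf a x)) - Ev a j 2 / 2 := by
    have e1 : E (fun x : Fin n → Bool => (sg (x j) : ℝ) * (sn (Zf a x) - ind (Zf a x) 2 / 4
      + ind (Zf a x) (-2) / 4)) = E (fun x => ((sg (x j) : ℝ) * sn (Zf a x)
        - (1/4) * ((sg (x j) : ℝ) * ind (Zf a x) 2)) + (1/4) * ((sg (x j) : ℝ) * ind (Zf a x) (-2))) := by
      apply E_congr; intro x; ring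
    rw [e1, E_add, E_sub, E_mul, E_mul]
    have e2 := Ev_neg a j 2
    unfold Ev at e2 ⊢
    rw [e2]; ring
  rw [← h1]
  apply E_congr
  intro x
  rw [← sn_avg_even _ (Zf_even a h x)]
  have hc : ∀ b c : Bool, (Fin.cons b (Fin.cons c x : Fin (n + 1) → Bool) : Fin (n + 2) → Bool)
      j.succ.succ = x j := by
    intro b c; rfl
  simp only [two_Zf, hc, sgF, sgT]
  rw [show (1:ℤ) + 1 + Zf a x = Zf a x + 2 by ring, show (1:ℤ) + -1 + Zf a x = Zf a x by ring,
    show (-1:ℤ) + 1 + Zf a x = Zf a x by ring, show (-1:ℤ) + -1 + Zf a x = Zf a x - 2 by ring]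
  ring

theorem Pz_two (a : Fin n → ℤ) (z : ℤ) :
    Pz (two a) z = (Pz a (z - 2) + 2 * Pz a z + Pz a (z + 2)) / 4 := by
  unfold Pz
  rw [E_two]
  have h4 : ∀ G : (Fin n → Bool) → ℝ, E (fun x => G x / 4) = E G / 4 := by
    intro G
    have := E_mul (1/4) G
    rw [show (fun x => G x / 4) = (fun x => 1 / 4 * G x) from by funext x; ring, this]; ring
  rw [← E_mul, ← E_add, ← E_add, ← h4]
  apply E_congr
  intro x
  simp only [two_Zf, sgF, sgT]
  rw [show (1:ℤ) + 1 + Zf a x = Zf a x + 2 by ring, show (1:ℤ) + -1 + Zf a x = Zf a x by ring,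
    show (-1:ℤ) + 1 + Zf a x = Zf a x by ring, show (-1:ℤ) + -1 + Zf a x = Zf a x - 2 by ring,
    ind_add, ind_sub]
  ring

/-- lattice part of the weight, ties broken by a function of weight `w` on other variables -/
noncomputable def Wb (a : Fin n → ℤ) (w : ℝ) : ℝ := ∑ j, (p a j) ^ 2 + w * (Pz a 0) ^ 2

theorem Wb_two (a : Fin n → ℤ) (h : Even (∑ i, a i)) (w : ℝ) :
    Wb (two a) w = 2 * ((Pz a 0 + Pz a 2) / 2) ^ 2 + ∑ j, (p a j - Ev a j 2 / 2) ^ 2
      + w * ((Pz a 0 + Pz a 2) / 2) ^ 2 := by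
  unfold Wb
  rw [Fin.sum_univ_succ, Fin.sum_univ_succ, p_two_0_even a h]
  have h1 : p (two a) (Fin.succ 0) = (Pz a 0 + Pz a 2) / 2 := p_two_1_even a h
  rw [h1]
  have h2 : ∀ j : Fin n, p (two a) j.succ.succ = p a j - Ev a j 2 / 2 := p_two_succ_even a h
  simp_rw [h2]
  have h3 : Pz (two a) 0 = (Pz a 0 + Pz a 2) / 2 := by
    rw [Pz_two]
    have := Pz_neg a 2
    rw [show (0:ℤ) - 2 = -2 by ring, this, zero_add]; ring
  rw [h3]; ring

structure Good2 (a : Fin n → ℤ) : Prop where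
  nn : ∀ i, 0 ≤ a i
  ev : Even (∑ i, a i)
  uni : ∀ i, 1 ≤ a i → Uni a i
  uniZ : ∀ z : ℤ, 0 ≤ z → Pz a (z + 2) ≤ Pz a z
  three : ∃ i j k : Fin n, i ≠ j ∧ i ≠ k ∧ j ≠ k ∧ 1 ≤ a i ∧ 1 ≤ a j ∧ 1 ≤ a k

theorem term_ge (a : Fin n → ℤ) (hG : Good2 a) (w : ℝ) (hw : 5 / 9 ≤ w) (j : Fin n) :
    0 ≤ Ev a j 2 * (((a j : ℝ) - 5 / 4) * Ev a j 2 + (1 - (1 - w / 2) * (a j : ℝ)) * (Pz a 0 - Pz a 2))
    ∧ (1 ≤ a j → (w / 2 - 1 / 4) * (Pz a 0 - Pz a 2) ^ 2 ≤
      Ev a j 2 * (((a j : ℝ) - 5 / 4) * Ev a j 2 + (1 - (1 - w / 2) * (a j : ℝ)) * (Pz a 0 - Pz a 2))) := by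
  obtain ⟨m, hm⟩ := Int.eq_ofNat_of_zero_le (hG.nn j)
  have hm' : a j = (m : ℤ) := hm
  have hcast : (a j : ℝ) = (m : ℝ) := by rw [hm']; norm_cast
  have hd : 0 ≤ Pz a 0 - Pz a 2 := by
    have := hG.uniZ 0 le_rfl
    simp at this; linarith
  set d := Pz a 0 - Pz a 2 with hdd
  rcases Nat.eq_zero_or_pos m with h0 | h0
  · have he : Ev a j 2 = 0 := by
      rw [Ev_eq, hm', h0]; simp
    rw [he]
    refine ⟨by simp, ?_⟩
    intro h1
    rw [hm', h0] at h1; norm_num at h1
  · have hU := hG.uni j (by rw [hm']; exact_mod_cast h0)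
    -- e - d = q (m-2) - q m
    have hP0 := Pz_eq a j 0
    have hP2 := Pz_eq a j 2
    have hE := Ev_eq a j 2
    rw [hm'] at hP0 hP2 hE
    have s1 : q a j (0 - m) = q a j m := by
      rw [show (0:ℤ) - m = -m by ring, q_symm]
    have s2 : q a j (2 - m) = q a j (m - 2) := by
      rw [show (2:ℤ) - m = -(m - 2) by ring, q_symm]
    rw [s1, zero_add] at hP0
    rw [s2] at hP2 hE
    have hed : Ev a j 2 - d = q a j (m - 2) - q a j m := by
      rw [hdd, hP0, hP2, hE]; ring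
    have hge : d ≤ Ev a j 2 := by
      have : q a j m ≤ q a j (m - 2) := by
        by_cases h2 : 2 ≤ m
        · have := hU ((m:ℤ) - 2) (by omega)
          rwa [show (m:ℤ) - 2 + 2 = m by ring] at this
        · have h1 : m = 1 := by omega
          subst h1
          have := q_symm a j 1
          norm_num
          rw [this]
      linarith
    rw [hcast]
    have hm1 : (1:ℝ) ≤ m := by exact_mod_cast h0
    rcases Nat.lt_or_ge m 2 with h2 | h2
    · have h1 : m = 1 := by omega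
      subst h1
      have heq : Ev a j 2 = d := by
        have := q_symm a j 1
        have h5 : q a j (((1:ℕ):ℤ) - 2) = q a j ((1:ℕ):ℤ) := by
          norm_num
          rw [this]
        rw [h5] at hed
        linarith
      rw [heq]
      have e : d * (((1:ℕ):ℝ) - 5 / 4) * d + 0 = 0 - d * d / 4 := by push_cast; ring
      constructor
      · have : d * ((((1:ℕ):ℝ) - 5 / 4) * d + (1 - (1 - w / 2) * ((1:ℕ):ℝ)) * d)
            = (w / 2 - 1 / 4) * d ^ 2 := by push_cast; ring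
        rw [this]
        apply mul_nonneg (by linarith) (sq_nonneg _)
      · intro _
        have : d * ((((1:ℕ):ℝ) - 5 / 4) * d + (1 - (1 - w / 2) * ((1:ℕ):ℝ)) * d)
            = (w / 2 - 1 / 4) * d ^ 2 := by push_cast; ring
        rw [this]
    · have hm2 : (2:ℝ) ≤ m := by exact_mod_cast h2
      have he0 : 0 ≤ Ev a j 2 := hd.trans hge
      have hin : (w / 2 - 1 / 4) * d ≤ ((m : ℝ) - 5 / 4) * Ev a j 2 + (1 - (1 - w / 2) * (m : ℝ)) * d := by
        have h3 : ((m : ℝ) - 5 / 4) * d ≤ ((m : ℝ) - 5 / 4) * Ev a j 2 :=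
          mul_le_mul_of_nonneg_left hge (by linarith)
        have h4 : (w / 2 - 1 / 4) * d ≤ ((m : ℝ) - 5 / 4) * d + (1 - (1 - w / 2) * (m : ℝ)) * d := by
          have h5 : ((m : ℝ) - 5 / 4) * d + (1 - (1 - w / 2) * (m : ℝ)) * d = (w / 2 * m - 1 / 4) * d := by
            ring
          rw [h5]
          apply mul_le_mul_of_nonneg_right _ hd
          nlinarith
        linarith
      have hin0 : 0 ≤ (w / 2 - 1 / 4) * d := mul_nonneg (by linarith) hd
      constructor
      · exact mul_nonneg he0 (hin0.trans hin)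
      · intro _
        calc (w / 2 - 1 / 4) * d ^ 2 = d * ((w / 2 - 1 / 4) * d) := by ring
          _ ≤ Ev a j 2 * ((w / 2 - 1 / 4) * d) := mul_le_mul_of_nonneg_right hge hin0
          _ ≤ _ := mul_le_mul_of_nonneg_left hin he0

theorem Wb_two_le (a : Fin n → ℤ) (hG : Good2 a) (w : ℝ) (hw : 5 / 9 ≤ w) :
    Wb (two a) w ≤ Wb a w := by
  rw [Wb_two a hG.ev]
  have hs := sum_Ev a 2
  have hkey : ∀ j ∈ (univ : Finset (Fin n)),
      (a j : ℝ) * Ev a j 2 * Pz a 2 + (Pz a 0 - Pz a 2) * Ev a j 2 + ((a j : ℝ) - 5 / 4) * (Ev a j 2) ^ 2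
        ≤ (p a j) ^ 2 - (p a j - Ev a j 2 / 2) ^ 2 := by
    intro j _
    obtain ⟨m, hm⟩ := Int.eq_ofNat_of_zero_le (hG.nn j)
    have hm' : a j = (m : ℤ) := hm
    have hcast : (a j : ℝ) = (m : ℝ) := by rw [hm']; norm_cast
    rcases Nat.eq_zero_or_pos m with h0 | h0
    · have he : Ev a j 2 = 0 := by
        rw [Ev_eq, hm', h0]; simp
      rw [he]; simp
    · have hU := hG.uni j (by rw [hm']; exact_mod_cast h0)
      have hp := p_even_ge a hG.ev j m h0 hm' hU
      have hP0 := Pz_eq a j 0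
      have hP2 := Pz_eq a j 2
      have hE := Ev_eq a j 2
      rw [hm'] at hP0 hP2 hE
      have s1 : q a j (0 - m) = q a j m := by
        rw [show (0:ℤ) - m = -m by ring, q_symm]
      have s2 : q a j (2 - m) = q a j (m - 2) := by
        rw [show (2:ℤ) - m = -(m - 2) by ring, q_symm]
      rw [s1, zero_add] at hP0
      rw [s2] at hP2 hE
      have hA : q a j (m - 2) = Pz a 2 + Ev a j 2 := by rw [hP2, hE]; ring
      have hB : q a j m = Pz a 0 := by rw [hP0]; ring
      have he0 : 0 ≤ Ev a j 2 := by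
        rw [hE]
        have h1 : q a j (2 + m) ≤ q a j m := by
          have := hU m (by positivity)
          rwa [show (m:ℤ) + 2 = 2 + m by ring] at this
        have h2 : q a j m ≤ q a j (m - 2) := by
          by_cases h2 : 2 ≤ m
          · have := hU ((m:ℤ) - 2) (by omega)
            rwa [show (m:ℤ) - 2 + 2 = m by ring] at this
          · have h1 : m = 1 := by omega
            subst h1
            have := q_symm a j 1
            norm_num
            rw [this]
        linarith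
      rw [hA, hB] at hp
      rw [hcast]
      have := mul_le_mul_of_nonneg_right hp he0
      nlinarith [this]
  have hsum := sum_le_sum hkey
  rw [sum_add_distrib, sum_add_distrib, ← sum_mul, hs, ← mul_sum, sum_sub_distrib] at hsum
  -- lower bound for the sum of the terms
  obtain ⟨i, j, k, hij, hik, hjk, hi, hj, hk⟩ := hG.three
  have hterm : 3 * ((w / 2 - 1 / 4) * (Pz a 0 - Pz a 2) ^ 2) ≤
      ∑ j, Ev a j 2 * (((a j : ℝ) - 5 / 4) * Ev a j 2
        + (1 - (1 - w / 2) * (a j : ℝ)) * (Pz a 0 - Pz a 2)) := by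
    have h1 : ∑ l ∈ ({i, j, k} : Finset (Fin n)), ((w / 2 - 1 / 4) * (Pz a 0 - Pz a 2) ^ 2)
        = 3 * ((w / 2 - 1 / 4) * (Pz a 0 - Pz a 2) ^ 2) := by
      rw [sum_const, card_eq_three.mpr ⟨i, j, k, hij, hik, hjk, rfl⟩, nsmul_eq_mul]; norm_num
    rw [← h1]
    refine le_trans (sum_le_sum ?_) (sum_le_sum_of_subset_of_nonneg (subset_univ _) ?_)
    · intro l hl
      apply (term_ge a hG w hw l).2
      simp only [mem_insert, mem_singleton] at hl
      rcases hl with rfl | rfl | rfl <;> assumption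
    · intro l _ _
      exact (term_ge a hG w hw l).1
  have hexp : ∑ j, Ev a j 2 * (((a j : ℝ) - 5 / 4) * Ev a j 2
        + (1 - (1 - w / 2) * (a j : ℝ)) * (Pz a 0 - Pz a 2))
      = ∑ j, ((a j : ℝ) - 5 / 4) * (Ev a j 2) ^ 2 + (Pz a 0 - Pz a 2) * ∑ j, Ev a j 2
        - (1 - w / 2) * (Pz a 0 - Pz a 2) * ∑ j, (a j : ℝ) * Ev a j 2 := by
    rw [mul_sum, mul_sum, ← sum_add_distrib, ← sum_sub_distrib]
    apply sum_congr rfl
    intro j _; ring
  rw [hexp, hs] at hterm
  have hd2 : 0 ≤ (Pz a 0 - Pz a 2) ^ 2 := sq_nonneg _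
  have hfin : 0 ≤ (9 / 4 * w - 5 / 4) * (Pz a 0 - Pz a 2) ^ 2 := mul_nonneg (by linarith) hd2
  unfold Wb
  push_cast at hsum hterm
  nlinarith [hsum, hterm, hfin]

theorem q_new (a : Fin n → ℤ) (i : Fin (n + 2)) (hi : i = 0 ∨ i = 1) (z : ℤ) :
    q (two a) i z = (Pz a (z - 1) + Pz a (z + 1)) / 2 := by
  unfold q Pz
  rw [E_two, ← E_add, ← E_half]
  apply E_congr
  intro x
  have hY : ∀ b c : Bool, Yf (two a) i
      (Fin.cons b (Fin.cons c x : Fin (n + 1) → Bool) : Fin (n + 2) → Bool)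
      = sg b + sg c + Zf a x - sg (if i = 0 then b else c) := by
    intro b c
    unfold Yf
    rw [two_Zf]
    rcases hi with rfl | rfl
    · have e1 : two a 0 = 1 := rfl
      have e2 : (Fin.cons b (Fin.cons c x : Fin (n + 1) → Bool) : Fin (n + 2) → Bool) 0 = b := rfl
      rw [e1, e2]; simp
    · have e1 : two a 1 = 1 := rfl
      have e2 : (Fin.cons b (Fin.cons c x : Fin (n + 1) → Bool) : Fin (n + 2) → Bool) 1 = c := rfl
      have e3 : ¬ ((1 : Fin (n + 2)) = 0) := by simp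
      rw [e1, e2, if_neg e3]; ring
  simp only [hY]
  rcases hi with rfl | rfl
  · simp only [if_true, sgF, sgT]
    rw [show (1:ℤ) + 1 + Zf a x - 1 = Zf a x + 1 by ring, show (1:ℤ) + -1 + Zf a x - 1 = Zf a x - 1 by ring,
      show (-1:ℤ) + 1 + Zf a x - -1 = Zf a x + 1 by ring,
      show (-1:ℤ) + -1 + Zf a x - -1 = Zf a x - 1 by ring, ind_add, ind_sub]
    ring
  · have e3 : ¬ ((1 : Fin (n + 2)) = 0) := by simp
    simp only [if_neg e3, sgF, sgT]
    rw [show (1:ℤ) + 1 + Zf a x - 1 = Zf a x + 1 by ring, show (1:ℤ) + -1 + Zf a x - -1 = Zf a x + 1 by ring,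
      show (-1:ℤ) + 1 + Zf a x - 1 = Zf a x - 1 by ring,
      show (-1:ℤ) + -1 + Zf a x - -1 = Zf a x - 1 by ring, ind_add, ind_sub]
    ring

theorem Uni_new (a : Fin n → ℤ) (hZ : ∀ z : ℤ, 0 ≤ z → Pz a (z + 2) ≤ Pz a z)
    (i : Fin (n + 2)) (hi : i = 0 ∨ i = 1) : Uni (two a) i := by
  intro z hz
  rw [q_new a i hi, q_new a i hi]
  rw [show z + 2 - 1 = z + 1 by ring, show z + 2 + 1 = z + 3 by ring]
  have h1 := hZ (z + 1) (by omega)
  rw [show z + 1 + 2 = z + 3 by ring] at h1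
  by_cases h0 : z = 0
  · subst h0
    have := Pz_neg a 1
    norm_num at h1 ⊢
    rw [this]
    linarith
  · have h2 := hZ (z - 1) (by omega)
    rw [show z - 1 + 2 = z + 1 by ring] at h2
    linarith

theorem Uni_old (a : Fin n → ℤ) (i : Fin n) (hU : Uni a i) : Uni (two a) i.succ.succ := by
  intro z hz
  rw [q_two, q_two]
  have h1 := hU z hz
  have h2 := hU (z + 2) (by omega)
  have hm : q a i z ≤ q a i (z - 2) ∨ (z = 0 ∨ z = 1) := by
    by_cases hz2 : 2 ≤ z
    · left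
      have := hU (z - 2) (by omega)
      rwa [show z - 2 + 2 = z by ring] at this
    · right; omega
  rw [show z + 2 - 2 = z by ring, show z + 2 + 2 = z + 4 by ring]
  rw [show z + 2 + 2 = z + 4 by ring] at h2
  rcases hm with hm | hm | hm
  · linarith
  · subst hm
    have := q_symm a i 2
    rw [show (0:ℤ) - 2 = -2 by ring, this]
    norm_num at h1 h2 ⊢
    linarith
  · subst hm
    have := q_symm a i 1
    rw [show (1:ℤ) - 2 = -1 by ring, this]
    norm_num at h1 h2 ⊢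
    linarith

theorem UniZ_two (a : Fin n → ℤ) (hZ : ∀ z : ℤ, 0 ≤ z → Pz a (z + 2) ≤ Pz a z) :
    ∀ z : ℤ, 0 ≤ z → Pz (two a) (z + 2) ≤ Pz (two a) z := by
  intro z hz
  rw [Pz_two, Pz_two]
  have h1 := hZ z hz
  have h2 := hZ (z + 2) (by omega)
  have hm : Pz a z ≤ Pz a (z - 2) ∨ (z = 0 ∨ z = 1) := by
    by_cases hz2 : 2 ≤ z
    · left
      have := hZ (z - 2) (by omega)
      rwa [show z - 2 + 2 = z by ring] at this
    · right; omega
  rw [show z + 2 - 2 = z by ring, show z + 2 + 2 = z + 4 by ring]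
  rw [show z + 2 + 2 = z + 4 by ring] at h2
  rcases hm with hm | hm | hm
  · linarith
  · subst hm
    have := Pz_neg a 2
    rw [show (0:ℤ) - 2 = -2 by ring, this]
    norm_num at h1 h2 ⊢
    linarith
  · subst hm
    have := Pz_neg a 1
    rw [show (1:ℤ) - 2 = -1 by ring, this]
    norm_num at h1 h2 ⊢
    linarith

theorem Good2_two (a : Fin n → ℤ) (h : Good2 a) : Good2 (two a) where
  nn := by
    intro i
    refine Fin.cases ?_ (fun i => ?_) i
    · show (0:ℤ) ≤ 1; norm_num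
    · refine Fin.cases ?_ (fun i => ?_) i
      · show (0:ℤ) ≤ 1; norm_num
      · exact h.nn i
  ev := by rw [sum_two]; exact h.ev.add even_two
  uni := by
    intro i
    refine Fin.cases ?_ (fun i => ?_) i
    · intro _; exact Uni_new a h.uniZ 0 (Or.inl rfl)
    · refine Fin.cases ?_ (fun i => ?_) i
      · intro _; exact Uni_new a h.uniZ (Fin.succ 0) (Or.inr rfl)
      · intro h1
        exact Uni_old a i (h.uni i h1)
  uniZ := UniZ_two a h.uniZ
  three := by
    obtain ⟨i, j, k, hij, hik, hjk, hi, hj, hk⟩ := h.three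
    refine ⟨i.succ.succ, j.succ.succ, k.succ.succ, ?_, ?_, ?_, hi, hj, hk⟩
    · intro hh; apply hij
      exact Fin.succ_injective _ (Fin.succ_injective _ hh)
    · intro hh; apply hik
      exact Fin.succ_injective _ (Fin.succ_injective _ hh)
    · intro hh; apply hjk
      exact Fin.succ_injective _ (Fin.succ_injective _ hh)

end Pool.Agent.MP_cb3c9c_an.UNI
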