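import Pool.Agent.MP_cb3c9c_an.UNI.Law

set_option autoImplicit false

open Finset

namespace Pool.Agent.MP_cb3c9c_an.UNI

/-- The statement of the regular case (proved in the hand-in `RegularForms`). -/
def RegStmt : Prop :=
    ∃ c : ℝ, 0 < c ∧ ∃ ε : ℝ, 0 < ε ∧
      ∀ n : ℕ, ∀ f : (Fin n → Bool) → ℝ, ∀ a : Fin n → ℝ, ∀ a0 : ℝ,
        (∀ x, f x = 1 ∨ f x = -1) →
        (∀ x, 0 < f x * (a0 + ∑ i, a i * (if x i then (-1:ℝ) else 1))) →
        (∀ i, a i ^ 2 ≤ ε * ∑ j, a j ^ 2) →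
        2 / Real.pi + c * ((∑ i, a i ^ 4) / (∑ i, a i ^ 2) ^ 2) ≤
          ((∑ x, f x) / (2:ℝ) ^ n) ^ 2 +
            ∑ i, ((∑ x, f x * (if x i then (-1:ℝ) else 1)) / (2:ℝ) ^ n) ^ 2

variable {n : ℕ}

theorem sg_cast (b : Bool) : ((sg b : ℤ) : ℝ) = if b then (-1:ℝ) else 1 := by
  cases b <;> simp [sg]

theorem Zf_cast (a : Fin n → ℤ) (x : Fin n → Bool) :
    ((Zf a x : ℤ) : ℝ) = ∑ i, (a i : ℝ) * (if x i then (-1:ℝ) else 1) := by
  unfold Zf
  push_cast
  apply sum_congr rfl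
  intro i _
  rw [sg_cast]

theorem sn_cases (z : ℤ) (h : Odd z) : sn z = 1 ∨ sn z = -1 := by
  obtain ⟨w, hw⟩ := h
  rcases lt_trichotomy z 0 with h0 | h0 | h0
  · right; unfold sn; rw [Int.sign_eq_neg_one_of_neg h0]; norm_num
  · omega
  · left; unfold sn; rw [Int.sign_eq_one_of_pos h0]; norm_num

theorem sn_mul_pos (z : ℤ) (h : Odd z) : 0 < sn z * (z : ℝ) := by
  obtain ⟨w, hw⟩ := h
  rcases lt_trichotomy z 0 with h0 | h0 | h0
  · unfold sn; rw [Int.sign_eq_neg_one_of_neg h0]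
    have : (z : ℝ) < 0 := by exact_mod_cast h0
    push_cast; linarith
  · omega
  · unfold sn; rw [Int.sign_eq_one_of_pos h0]
    have : (0:ℝ) < z := by exact_mod_cast h0
    push_cast; linarith

theorem sn_neg (z : ℤ) : sn (-z) = - sn z := by
  unfold sn; rw [Int.sign_neg]; push_cast; ring

theorem E_sn (a : Fin n → ℤ) : E (fun x => sn (Zf a x)) = 0 := by
  have h1 := E_neg (fun x => sn (Zf a x))
  have h2 : E (fun x => sn (Zf a (fun i => !(x i)))) = - E (fun x => sn (Zf a x)) := by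
    have : -E (fun x => sn (Zf a x)) = E (fun x => (-1) * sn (Zf a x)) := by rw [E_mul]; ring
    rw [this]
    apply E_congr
    intro x
    rw [Zf_not, sn_neg]; ring
  linarith

theorem W_of_reg (hreg : RegStmt) : ∃ ε : ℝ, 0 < ε ∧ ∀ (n : ℕ) (a : Fin n → ℤ),
    Odd (∑ i, a i) → (∀ i, (a i : ℝ) ^ 2 ≤ ε * ∑ j, (a j : ℝ) ^ 2) → 2 / Real.pi ≤ W a := by
  obtain ⟨c, hc, ε, hε, H⟩ := hreg
  refine ⟨ε, hε, ?_⟩
  intro n a hodd hr
  have h1 := H n (fun x => sn (Zf a x)) (fun i => (a i : ℝ)) 0 (fun x => sn_cases _ (Zf_odd a hodd x))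
    (by
      intro x
      have := sn_mul_pos _ (Zf_odd a hodd x)
      rw [Zf_cast] at this
      simpa using this) hr
  have h2 : (∑ x, sn (Zf a x)) / (2:ℝ) ^ n = 0 := E_sn a
  have h3 : ∀ i, (∑ x, sn (Zf a x) * (if x i then (-1:ℝ) else 1)) / (2:ℝ) ^ n = p a i := by
    intro i
    unfold p E
    congr 1
    apply sum_congr rfl
    intro x _
    beta_reduce
    rw [sg_cast]; ring
  simp only [h2, h3] at h1
  have h4 : 0 ≤ c * ((∑ i, (a i : ℝ) ^ 4) / (∑ i, (a i : ℝ) ^ 2) ^ 2) := by positivity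
  unfold W
  linarith

theorem W_good (hreg : RegStmt) (a : Fin n → ℤ) (hG : Good a) : 2 / Real.pi ≤ W a := by
  obtain ⟨ε, hε, H⟩ := W_of_reg hreg
  have key : ∀ (m : ℕ) (n : ℕ) (a : Fin n → ℤ) (M : ℝ), 1 ≤ M → Good a → (∀ i, (a i : ℝ) ≤ M) →
      M ^ 2 ≤ ε * (∑ i, (a i : ℝ) ^ 2 + 2 * m) → 2 / Real.pi ≤ W a := by
    intro m
    induction m with
    | zero =>
      intro n a M _ hG hM hb
      apply H n a hG.odd
      intro i
      have h0 : (0:ℝ) ≤ a i := by exact_mod_cast hG.nn i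
      have : (a i : ℝ) ^ 2 ≤ M ^ 2 := by
        apply pow_le_pow_left₀ h0 (hM i)
      simp at hb
      linarith
    | succ m ih =>
      intro n a M hM1 hG hM hb
      refine le_trans ?_ (W_two_le a hG)
      apply ih (n + 2) (two a) M hM1 (Good_two a hG)
      · intro i
        refine Fin.cases ?_ (fun i => ?_) i
        · show (((1:ℤ)):ℝ) ≤ M
          simpa using hM1
        · refine Fin.cases ?_ (fun i => ?_) i
          · show (((1:ℤ)):ℝ) ≤ M
            simpa using hM1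
          · exact hM i
      · have : ∑ i, ((two a i : ℤ) : ℝ) ^ 2 = ∑ i, (a i : ℝ) ^ 2 + 2 := by
          unfold two
          rw [Fin.sum_univ_succ, Fin.sum_univ_succ]
          simp; ring
        rw [this]
        push_cast at hb
        have e : ∑ i, (a i : ℝ) ^ 2 + 2 * ((m : ℝ) + 1) = ∑ i, (a i : ℝ) ^ 2 + 2 + 2 * (m : ℝ) := by ring
        rw [e] at hb
        exact hb
  -- bound for the weights
  obtain ⟨M, hM1, hM⟩ : ∃ M : ℝ, 1 ≤ M ∧ ∀ i, (a i : ℝ) ≤ M := by
    refine ⟨1 + ∑ i, (a i : ℝ), ?_, ?_⟩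
    · have : (0:ℝ) ≤ ∑ i, (a i : ℝ) := sum_nonneg (fun i _ => by exact_mod_cast hG.nn i)
      linarith
    · intro i
      have : (a i : ℝ) ≤ ∑ i, (a i : ℝ) :=
        single_le_sum (f := fun i => (a i : ℝ)) (fun i _ => by exact_mod_cast hG.nn i) (mem_univ i)
      linarith
  obtain ⟨m, hm⟩ := exists_nat_ge (M ^ 2 / ε)
  apply key m n a M hM1 hG hM
  rw [div_le_iff₀ hε] at hm
  have h0 : (0:ℝ) ≤ ∑ i, (a i : ℝ) ^ 2 := sum_nonneg (fun i _ => sq_nonneg _)
  have h1 : (0:ℝ) ≤ m := Nat.cast_nonneg m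
  nlinarith

/-! ### signs -/

def msk (a : Fin n → ℤ) (i : Fin n) : Bool := decide (a i < 0)

def ab (a : Fin n → ℤ) (i : Fin n) : ℤ := |a i|

theorem ab_sg (a : Fin n → ℤ) (i : Fin n) (b : Bool) :
    a i * sg (xor (msk a i) b) = ab a i * sg b := by
  unfold msk ab
  by_cases h : a i < 0
  · rw [abs_of_neg h]
    have : decide (a i < 0) = true := by simpa using h
    rw [this]
    cases b <;> simp [sg]
  · have h' : 0 ≤ a i := by omega
    rw [abs_of_nonneg h']
    have : decide (a i < 0) = false := by simpa using h'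
    rw [this]
    cases b <;> simp [sg]

theorem Zf_ab (a : Fin n → ℤ) (x : Fin n → Bool) :
    Zf a (fun i => xor (msk a i) (x i)) = Zf (ab a) x := by
  unfold Zf
  apply sum_congr rfl
  intro i _
  exact ab_sg a i (x i)

theorem sg_xor (b c : Bool) : sg (xor b c) = sg b * sg c := by
  cases b <;> cases c <;> simp [sg]

theorem p_ab (a : Fin n → ℤ) (j : Fin n) : (p a j) ^ 2 = (p (ab a) j) ^ 2 := by
  have h1 : p a j = (sg (msk a j) : ℝ) * p (ab a) j := by
    unfold p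
    rw [← E_mul, ← E_mask (msk a) (fun x => (sg (x j) : ℝ) * sn (Zf a x))]
    apply E_congr
    intro x
    rw [Zf_ab, sg_xor]; push_cast; ring
  rw [h1, mul_pow]
  rcases sg_sq (msk a j) with h | h <;> rw [h] <;> norm_num

theorem W_ab (a : Fin n → ℤ) : W a = W (ab a) := by
  unfold W
  exact sum_congr rfl (fun j _ => p_ab a j)

theorem L_ab (a : Fin n → ℤ) (s : Finset (Fin n)) (z : ℤ) : L a s z = L (ab a) s z := by
  unfold L
  rw [← E_mask (msk a) (fun x => ind (Sf a s x) z)]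
  apply E_congr
  intro x
  have : Sf a s (fun i => xor (msk a i) (x i)) = Sf (ab a) s x := by
    unfold Sf
    apply sum_congr rfl
    intro i _
    exact ab_sg a i (x i)
  rw [this]

theorem sum_ab_parity (a : Fin n → ℤ) (h : Odd (∑ i, a i)) : Odd (∑ i, ab a i) := by
  have h1 : ∃ k : ℤ, ∑ i, ab a i = ∑ i, a i + 2 * k := by
    refine ⟨∑ i, (if a i < 0 then - a i else 0), ?_⟩
    rw [mul_sum, ← sum_add_distrib]
    apply sum_congr rfl
    intro i _
    unfold ab
    by_cases h : a i < 0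
    · rw [abs_of_neg h, if_pos h]; ring
    · rw [abs_of_nonneg (by omega), if_neg h]; ring
  obtain ⟨k, hk⟩ := h1
  rw [hk]
  exact h.add_even (even_two_mul k)

/-- the criterion, for weights of any sign -/
theorem W_crit (hreg : RegStmt) (a : Fin n → ℤ) (hodd : Odd (∑ i, a i))
    (hU : ∀ i, 3 ≤ |a i| → ∀ z : ℤ, 0 ≤ z → L a (univ.erase i) (z + 2) ≤ L a (univ.erase i) z) :
    2 / Real.pi ≤ W a := by
  rw [W_ab]
  apply W_good hreg
  refine ⟨fun i => abs_nonneg _, sum_ab_parity a hodd, ?_⟩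
  intro i hi z hz
  rw [q_eq_L, q_eq_L, ← L_ab, ← L_ab]
  exact hU i hi z hz

/-! ### thresholds -/

theorem p_cons_zero (a : Fin n → ℤ) (t : ℤ) :
    p (Fin.cons t a : Fin (n + 1) → ℤ) 0 = E (fun x => sn (t + Zf a x)) := by
  unfold p
  rw [E_succ]
  have h1 : E (fun x : Fin n → Bool => (sg ((Fin.cons false x : Fin (n + 1) → Bool) 0) : ℝ)
      * sn (Zf (Fin.cons t a : Fin (n + 1) → ℤ) (Fin.cons false x : Fin (n + 1) → Bool)))
      = E (fun x => sn (t + Zf a x)) := by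
    apply E_congr
    intro x
    rw [Zf_cons, Fin.cons_zero, sgF, mul_one]; push_cast; ring
  have h2 : E (fun x : Fin n → Bool => (sg ((Fin.cons true x : Fin (n + 1) → Bool) 0) : ℝ)
      * sn (Zf (Fin.cons t a : Fin (n + 1) → ℤ) (Fin.cons true x : Fin (n + 1) → Bool)))
      = E (fun x => sn (t + Zf a x)) := by
    rw [← E_neg (fun x => sn (t + Zf a x))]
    apply E_congr
    intro x
    rw [Zf_cons, Fin.cons_zero, sgT, Zf_not,
      show t + -Zf a x = -(t * -1 + Zf a x) by ring, sn_neg]; push_cast; ring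
  rw [h1, h2]; ring

theorem p_cons_succ (a : Fin n → ℤ) (t : ℤ) (j : Fin n) :
    p (Fin.cons t a : Fin (n + 1) → ℤ) j.succ = E (fun x => (sg (x j) : ℝ) * sn (t + Zf a x)) := by
  unfold p
  rw [E_succ]
  have h1 : E (fun x : Fin n → Bool => (sg ((Fin.cons false x : Fin (n + 1) → Bool) j.succ) : ℝ)
      * sn (Zf (Fin.cons t a : Fin (n + 1) → ℤ) (Fin.cons false x : Fin (n + 1) → Bool)))
      = E (fun x => (sg (x j) : ℝ) * sn (t + Zf a x)) := by
    apply E_congr
    intro x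
    rw [Zf_cons, Fin.cons_succ, sgF, mul_one]
  have h2 : E (fun x : Fin n → Bool => (sg ((Fin.cons true x : Fin (n + 1) → Bool) j.succ) : ℝ)
      * sn (Zf (Fin.cons t a : Fin (n + 1) → ℤ) (Fin.cons true x : Fin (n + 1) → Bool)))
      = E (fun x => (sg (x j) : ℝ) * sn (t + Zf a x)) := by
    rw [← E_neg (fun x => (sg (x j) : ℝ) * sn (t + Zf a x))]
    apply E_congr
    intro x
    rw [Zf_cons, Fin.cons_succ, sgT, Zf_not, sg_not,
      show t + -Zf a x = -(t * -1 + Zf a x) by ring, sn_neg]; push_cast; ring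
  rw [h1, h2]; ring

theorem W_cons (a : Fin n → ℤ) (t : ℤ) :
    W (Fin.cons t a : Fin (n + 1) → ℤ)
      = (E (fun x => sn (t + Zf a x))) ^ 2
        + ∑ j, (E (fun x => (sg (x j) : ℝ) * sn (t + Zf a x))) ^ 2 := by
  unfold W
  rw [Fin.sum_univ_succ, p_cons_zero]
  simp_rw [p_cons_succ]

/-- weights in `{0, ±1, ±2}` with a unit weight, any threshold -/
theorem thr_unit (hreg : RegStmt) (f : (Fin n → Bool) → ℝ) (a : Fin n → ℤ) (a0 : ℝ)
    (hf : ∀ x, f x = 1 ∨ f x = -1)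
    (hfa : ∀ x, 0 < f x * (a0 + ∑ i, (a i : ℝ) * (if x i then (-1:ℝ) else 1)))
    (h2 : ∀ i, |a i| ≤ 2) (h1 : ∃ i, |a i| = 1) :
    2 / Real.pi ≤ ((∑ x, f x) / (2:ℝ) ^ n) ^ 2 +
      ∑ i, ((∑ x, f x * (if x i then (-1:ℝ) else 1)) / (2:ℝ) ^ n) ^ 2 := by
  classical
  set S : ℤ := ∑ i, a i with hS
  set t : ℤ := (S + 1) + 2 * round ((a0 - (S + 1)) / 2) with ht
  have htr : |a0 - t| ≤ 1 := by
    have h := abs_sub_round ((a0 - (S + 1)) / 2)
    have e : a0 - (t : ℝ) = 2 * ((a0 - (S + 1)) / 2 - (round ((a0 - (S + 1)) / 2) : ℝ)) := by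
      rw [ht]; push_cast; ring
    rw [e, abs_mul, abs_of_pos (by norm_num : (0:ℝ) < 2)]
    linarith
  have hoddx : ∀ x, Odd (t + Zf a x) := by
    intro x
    obtain ⟨k, hk⟩ := Zf_parity a x
    rw [hk, ht]
    refine ⟨S + round ((a0 - (S + 1)) / 2) + k, ?_⟩
    rw [← hS]; ring
  have hodd : Odd (∑ i, (Fin.cons t a : Fin (n + 1) → ℤ) i) := by
    rw [Fin.sum_univ_succ]
    simp only [Fin.cons_zero, Fin.cons_succ]
    rw [← hS, ht]
    refine ⟨S + round ((a0 - (S + 1)) / 2), ?_⟩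
    ring
  have hfx : ∀ x, f x = sn (t + Zf a x) := by
    intro x
    have h3 := hfa x
    rw [← Zf_cast] at h3
    have h4 := abs_le.mp htr
    obtain ⟨w, hw⟩ := hoddx x
    rcases lt_trichotomy (t + Zf a x) 0 with h0 | h0 | h0
    · have h5 : t + Zf a x ≤ -1 := by omega
      have h6 : (t : ℝ) + (Zf a x : ℝ) ≤ -1 := by exact_mod_cast h5
      have h7 : a0 + (Zf a x : ℝ) ≤ 0 := by linarith
      have h8 : sn (t + Zf a x) = -1 := by
        unfold sn; rw [Int.sign_eq_neg_one_of_neg h0]; norm_num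
      rw [h8]
      rcases hf x with h | h
      · rw [h] at h3; linarith
      · exact h
    · omega
    · have h5 : 1 ≤ t + Zf a x := by omega
      have h6 : (1:ℝ) ≤ (t : ℝ) + (Zf a x : ℝ) := by exact_mod_cast h5
      have h7 : 0 ≤ a0 + (Zf a x : ℝ) := by linarith
      have h8 : sn (t + Zf a x) = 1 := by
        unfold sn; rw [Int.sign_eq_one_of_pos h0]; norm_num
      rw [h8]
      rcases hf x with h | h
      · exact h
      · rw [h] at h3; linarith
  have hW := W_crit hreg (Fin.cons t a : Fin (n + 1) → ℤ) hodd (by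
    intro i hi
    have hi0 : i = 0 := by
      by_contra hne
      obtain ⟨k, hk⟩ := Fin.exists_succ_eq.mpr hne
      rw [← hk, Fin.cons_succ] at hi
      have := h2 k
      omega
    subst hi0
    intro z hz
    rw [L_ab, L_ab (Fin.cons t a : Fin (n + 1) → ℤ)]
    have hUL : UL (ab (Fin.cons t a : Fin (n + 1) → ℤ)) (univ.erase 0) 1 := by
      apply UL_dyadic
      · intro i hi
        obtain ⟨k, hk⟩ := Fin.exists_succ_eq.mpr (ne_of_mem_erase hi)
        have e : ab (Fin.cons t a : Fin (n + 1) → ℤ) i = |a k| := by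
          unfold ab; rw [← hk, Fin.cons_succ]
        rw [e]
        have h5 := h2 k
        have h6 := abs_nonneg (a k)
        have h7 : |a k| = 0 ∨ |a k| = 1 ∨ |a k| = 2 := by omega
        rcases h7 with h7 | h7 | h7
        · left; exact h7
        · right; exact ⟨0, by rw [h7]; norm_num⟩
        · right; exact ⟨1, by rw [h7]; norm_num⟩
      · rintro l ⟨i, hi, hl⟩
        obtain ⟨k, hk⟩ := Fin.exists_succ_eq.mpr (ne_of_mem_erase hi)
        have e : ab (Fin.cons t a : Fin (n + 1) → ℤ) i = |a k| := by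
          unfold ab; rw [← hk, Fin.cons_succ]
        rw [e] at hl
        have hl0 : l = 0 := by
          by_contra hne
          have h8 : (2:ℤ) ^ 2 ≤ 2 ^ (l + 1) := pow_le_pow_right₀ (by norm_num) (by omega)
          have h5 := h2 k
          rw [hl] at h5
          omega
        obtain ⟨k1, hk1⟩ := h1
        refine ⟨k1.succ, mem_erase.mpr ⟨Fin.succ_ne_zero _, mem_univ _⟩, ?_⟩
        unfold ab
        rw [Fin.cons_succ, hk1, hl0]; norm_num
    have := hUL z hz
    simpa using this)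
  rw [W_cons] at hW
  have e1 : E (fun x => sn (t + Zf a x)) = (∑ x, f x) / (2:ℝ) ^ n := by
    unfold E
    congr 1
    exact sum_congr rfl (fun x _ => (hfx x).symm)
  have e2 : ∀ j, E (fun x => (sg (x j) : ℝ) * sn (t + Zf a x))
      = (∑ x, f x * (if x j then (-1:ℝ) else 1)) / (2:ℝ) ^ n := by
    intro j
    unfold E
    congr 1
    apply sum_congr rfl
    intro x _
    beta_reduce
    rw [← hfx x, sg_cast]; ring
  rw [e1] at hW
  simp_rw [e2] at hW
  exact hW

theorem thr_all (hreg : RegStmt) (f : (Fin n → Bool) → ℝ) (a : Fin n → ℤ) (a0 : ℝ)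
    (hf : ∀ x, f x = 1 ∨ f x = -1)
    (hfa : ∀ x, 0 < f x * (a0 + ∑ i, (a i : ℝ) * (if x i then (-1:ℝ) else 1)))
    (h2 : ∀ i, |a i| ≤ 2) :
    2 / Real.pi ≤ ((∑ x, f x) / (2:ℝ) ^ n) ^ 2 +
      ∑ i, ((∑ x, f x * (if x i then (-1:ℝ) else 1)) / (2:ℝ) ^ n) ^ 2 := by
  by_cases h1 : ∃ i, |a i| = 1
  · exact thr_unit hreg f a a0 hf hfa h2 h1
  · push Not at h1
    by_cases h0 : ∀ i, a i = 0
    · have hc : ∀ x, 0 < f x * a0 := by
        intro x
        have := hfa x
        simpa [h0] using this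
      have hfc : ∀ x y, f x = f y := by
        intro x y
        rcases hf x with hx | hx <;> rcases hf y with hy | hy
        · rw [hx, hy]
        · have h3 := hc x; have h4 := hc y
          rw [hx] at h3; rw [hy] at h4; linarith
        · have h3 := hc x; have h4 := hc y
          rw [hx] at h3; rw [hy] at h4; linarith
        · rw [hx, hy]
      have hE : ((∑ x, f x) / (2:ℝ) ^ n) ^ 2 = 1 := by
        have e1 : ∑ x, f x = (2:ℝ) ^ n * f (fun _ => false) := by
          rw [sum_congr rfl (fun x _ => hfc x (fun _ => false)), sum_const, card_univ, nsmul_eq_mul]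
          simp
        rw [e1, mul_div_cancel_left₀ _ (by positivity)]
        rcases hf (fun _ => false) with h | h <;> rw [h] <;> norm_num
      rw [hE]
      have hpi : 2 / Real.pi ≤ 1 := by
        rw [div_le_one Real.pi_pos]
        linarith [Real.pi_gt_three]
      have hnn : 0 ≤ ∑ i, ((∑ x, f x * (if x i then (-1:ℝ) else 1)) / (2:ℝ) ^ n) ^ 2 :=
        sum_nonneg (fun i _ => sq_nonneg _)
      linarith
    · push Not at h0
      obtain ⟨i0, hi0⟩ := h0
      have hev : ∀ i, ∃ b : ℤ, a i = 2 * b ∧ |b| ≤ 1 := by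
        intro i
        have h3 := h2 i
        have h4 := h1 i
        have h5 : a i = 0 ∨ a i = 2 ∨ a i = -2 := by
          rw [abs_le] at h3
          have h6 : a i ≠ 1 := by rintro h; rw [h] at h4; norm_num at h4
          have h7 : a i ≠ -1 := by rintro h; rw [h] at h4; norm_num at h4
          omega
        rcases h5 with h5 | h5 | h5
        · exact ⟨0, by rw [h5]; norm_num, by norm_num⟩
        · exact ⟨1, by rw [h5]; norm_num, by norm_num⟩
        · exact ⟨-1, by rw [h5]; norm_num, by norm_num⟩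
      choose b hb hb1 using hev
      apply thr_unit hreg f b (a0 / 2) hf
      · intro x
        have h3 := hfa x
        have e : a0 + ∑ i, (a i : ℝ) * (if x i then (-1:ℝ) else 1)
            = 2 * (a0 / 2 + ∑ i, (b i : ℝ) * (if x i then (-1:ℝ) else 1)) := by
          rw [mul_add, mul_sum]
          congr 1
          · ring
          · apply sum_congr rfl
            intro i _
            rw [hb i]; push_cast; ring
        rw [e] at h3
        nlinarith
      · intro i; exact (hb1 i).trans (by norm_num)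
      · refine ⟨i0, ?_⟩
        have h3 := hb1 i0
        have h4 : b i0 ≠ 0 := by
          intro h; apply hi0; rw [hb i0, h]; norm_num
        have h5 := abs_pos.mpr h4
        omega

/-! ### the final statements -/

theorem L_card (a : Fin n → ℤ) (s : Finset (Fin n)) (z : ℤ) :
    L a s z = ((univ.filter (fun x : Fin n → Bool =>
      ∑ j ∈ s, a j * (if x j then (-1:ℤ) else 1) = z)).card : ℝ) / 2 ^ n := by
  unfold L E ind Sf sg
  congr 1
  rw [card_filter]
  push_cast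
  rfl

theorem f_eq (f : (Fin n → Bool) → ℝ) (a : Fin n → ℤ)
    (hf : ∀ x, f x = 1 ∨ f x = -1)
    (hfa : ∀ x, 0 < f x * (∑ i, (a i : ℝ) * (if x i then (-1:ℝ) else 1))) (x : Fin n → Bool) :
    f x = sn (Zf a x) := by
  have h := hfa x
  rw [← Zf_cast] at h
  rcases lt_trichotomy (Zf a x) 0 with h0 | h0 | h0
  · unfold sn; rw [Int.sign_eq_neg_one_of_neg h0]
    have : ((Zf a x : ℤ) : ℝ) < 0 := by exact_mod_cast h0
    rcases hf x with h1 | h1
    · rw [h1] at h; linarith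
    · rw [h1]; norm_num
  · rw [h0] at h; norm_num at h
  · unfold sn; rw [Int.sign_eq_one_of_pos h0]
    have : (0:ℝ) < ((Zf a x : ℤ) : ℝ) := by exact_mod_cast h0
    rcases hf x with h1 | h1
    · rw [h1]; norm_num
    · rw [h1] at h; linarith

theorem W_form (f : (Fin n → Bool) → ℝ) (a : Fin n → ℤ) (hfx : ∀ x, f x = sn (Zf a x)) :
    W a ≤ ((∑ x, f x) / (2:ℝ) ^ n) ^ 2 +
      ∑ i, ((∑ x, f x * (if x i then (-1:ℝ) else 1)) / (2:ℝ) ^ n) ^ 2 := by
  have h3 : ∀ i, (∑ x, f x * (if x i then (-1:ℝ) else 1)) / (2:ℝ) ^ n = p a i := by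
    intro i
    unfold p E
    congr 1
    apply sum_congr rfl
    intro x _
    beta_reduce
    rw [sg_cast, hfx]; ring
  simp_rw [h3]
  unfold W
  nlinarith [sq_nonneg ((∑ x, f x) / (2:ℝ) ^ n)]

theorem crit_final (hreg : RegStmt) (f : (Fin n → Bool) → ℝ) (a : Fin n → ℤ)
    (hf : ∀ x, f x = 1 ∨ f x = -1)
    (hfa : ∀ x, 0 < f x * (∑ i, (a i : ℝ) * (if x i then (-1:ℝ) else 1)))
    (hodd : Odd (∑ i, a i))
    (hU : ∀ i, 3 ≤ |a i| → ∀ z : ℤ, 0 ≤ z →
      (univ.filter (fun x : Fin n → Bool =>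
        ∑ j ∈ univ.erase i, a j * (if x j then (-1:ℤ) else 1) = z + 2)).card
      ≤ (univ.filter (fun x : Fin n → Bool =>
        ∑ j ∈ univ.erase i, a j * (if x j then (-1:ℤ) else 1) = z)).card) :
    2 / Real.pi ≤ ((∑ x, f x) / (2:ℝ) ^ n) ^ 2 +
      ∑ i, ((∑ x, f x * (if x i then (-1:ℝ) else 1)) / (2:ℝ) ^ n) ^ 2 := by
  refine le_trans ?_ (W_form f a (f_eq f a hf hfa))
  apply W_crit hreg a hodd
  intro i hi z hz
  rw [L_card, L_card]
  have := hU i hi z hz
  have h2 : (0:ℝ) < 2 ^ n := by positivity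
  rw [div_le_div_iff_of_pos_right h2]
  exact_mod_cast this

theorem dyadic_final (hreg : RegStmt) (f : (Fin n → Bool) → ℝ) (a : Fin n → ℤ)
    (hf : ∀ x, f x = 1 ∨ f x = -1)
    (hfa : ∀ x, 0 < f x * (∑ i, (a i : ℝ) * (if x i then (-1:ℝ) else 1)))
    (hodd : Odd (∑ i, a i))
    (hp : ∀ i, a i = 0 ∨ ∃ l : ℕ, |a i| = 2 ^ l)
    (h1 : ∀ l : ℕ, (∃ i, |a i| = 2 ^ (l + 1)) → ∃ i, |a i| = 2 ^ l)
    (h2 : ∀ l : ℕ, 2 ≤ l → (∃ i, |a i| = 2 ^ (l + 1)) → ∃ i j, i ≠ j ∧ |a i| = 2 ^ l ∧ |a j| = 2 ^ l) :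
    2 / Real.pi ≤ ((∑ x, f x) / (2:ℝ) ^ n) ^ 2 +
      ∑ i, ((∑ x, f x * (if x i then (-1:ℝ) else 1)) / (2:ℝ) ^ n) ^ 2 := by
  refine le_trans ?_ (W_form f a (f_eq f a hf hfa))
  apply W_crit hreg a hodd
  intro i hi z hz
  rw [L_ab, L_ab a]
  have hUL : UL (ab a) (univ.erase i) 1 := by
    apply UL_dyadic
    · intro k _
      rcases hp k with h | ⟨l, hl⟩
      · left; unfold ab; rw [h]; rfl
      · right; exact ⟨l, hl⟩
    · rintro l ⟨k, hk, hkl⟩
      rcases Nat.lt_or_ge l 2 with hl2 | hl2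
      · obtain ⟨k', hk'⟩ := h1 l ⟨k, hkl⟩
        refine ⟨k', mem_erase.mpr ⟨?_, mem_univ _⟩, hk'⟩
        rintro rfl
        rw [hk'] at hi
        have : (2:ℤ) ^ l ≤ 2 ^ 1 := pow_le_pow_right₀ (by norm_num) (by omega)
        omega
      · obtain ⟨u, v, huv, hu, hv⟩ := h2 l hl2 ⟨k, hkl⟩
        by_cases hui : u = i
        · refine ⟨v, mem_erase.mpr ⟨?_, mem_univ _⟩, hv⟩
          rintro rfl
          exact huv hui
        · exact ⟨u, mem_erase.mpr ⟨hui, mem_univ _⟩, hu⟩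
  have := hUL z hz
  simpa using this

end Pool.Agent.MP_cb3c9c_an.UNI
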