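import Pool.Agent.MP_cb3c9c_an.UNI.Step

set_option autoImplicit false

open Finset

namespace Pool.Agent.MP_cb3c9c_an.UNI

variable {n : ℕ}

/-- The partial form over the index set `s`. -/
def Sf (a : Fin n → ℤ) (s : Finset (Fin n)) (x : Fin n → Bool) : ℤ := ∑ i ∈ s, a i * sg (x i)

/-- Its law. -/
noncomputable def L (a : Fin n → ℤ) (s : Finset (Fin n)) (z : ℤ) : ℝ :=
  E (fun x => ind (Sf a s x) z)

theorem q_eq_L (a : Fin n → ℤ) (j : Fin n) (z : ℤ) : q a j z = L a (univ.erase j) z := by
  unfold q L
  apply E_congr
  intro x
  have : Yf a j x = Sf a (univ.erase j) x := by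
    unfold Yf Sf Zf
    rw [← Finset.add_sum_erase univ (fun i => a i * sg (x i)) (mem_univ j)]
    ring
  rw [this]

theorem L_even (a : Fin n → ℤ) (s : Finset (Fin n)) (z : ℤ) : L a s (-z) = L a s z := by
  unfold L
  rw [← E_neg (fun x => ind (Sf a s x) (-z))]
  apply E_congr
  intro x
  have : Sf a s (fun i => !(x i)) = - Sf a s x := by
    unfold Sf
    rw [← sum_neg_distrib]
    apply sum_congr rfl
    intro i _
    rw [sg_not]; ring
  rw [this, ind_neg, neg_neg]

theorem L_insert (a : Fin n → ℤ) (s : Finset (Fin n)) (i : Fin n) (hi : i ∉ s) (z : ℤ) :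
    L a (insert i s) z = (L a s (z - a i) + L a s (z + a i)) / 2 := by
  unfold L
  have h1 : E (fun x => ind (Sf a (insert i s) x) z)
      = (E (fun x => ind (Sf a (insert i s) x) z)
        + E (fun x => ind (Sf a (insert i s) (flip i x)) z)) / 2 := by
    rw [E_flip i (fun x => ind (Sf a (insert i s) x) z)]; ring
  rw [h1, ← E_add, ← E_add]
  congr 1
  apply E_congr
  intro x
  have h2 : ∀ y : Fin n → Bool, Sf a (insert i s) y = a i * sg (y i) + Sf a s y := by
    intro y; unfold Sf; rw [sum_insert hi]
  have h3 : Sf a s (flip i x) = Sf a s x := by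
    unfold Sf
    apply sum_congr rfl
    intro k hk
    have : k ≠ i := by rintro rfl; exact hi hk
    unfold flip
    rw [Function.update_of_ne this]
  rw [h2, h2, h3, flip_same]
  have i1 : ∀ w : ℤ, ind (w + Sf a s x) z = ind (Sf a s x) (z - w) := by
    intro w
    unfold ind
    by_cases h : Sf a s x = z - w
    · rw [if_pos h, if_pos (by omega)]
    · rw [if_neg h, if_neg (by omega)]
  rw [i1, i1]
  rcases sg_sq (x i) with h | h
  · rw [h]
    rw [show z - a i * 1 = z - a i by ring, show z - a i * -1 = z + a i by ring]
  · rw [h]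
    rw [show z - a i * -1 = z + a i by ring, show z - a i * - -1 = z - a i by ring]
    ring

theorem L_insert_zero (a : Fin n → ℤ) (s : Finset (Fin n)) (i : Fin n) (hi : i ∉ s) (h0 : a i = 0)
    (z : ℤ) : L a (insert i s) z = L a s z := by
  rw [L_insert a s i hi, h0, sub_zero, add_zero]; ring

theorem L_supp (a : Fin n → ℤ) (s : Finset (Fin n)) (c : ℤ) (h : ∀ i ∈ s, c ∣ a i) (z : ℤ)
    (hz : ¬ c ∣ z) : L a s z = 0 := by
  unfold L E
  rw [div_eq_zero_iff]
  left
  apply sum_eq_zero
  intro x _
  unfold ind
  rw [if_neg]
  intro hh
  apply hz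
  rw [← hh]
  unfold Sf
  apply dvd_sum
  intro i hi
  exact Dvd.dvd.mul_right (h i hi) _

theorem L_nonneg (a : Fin n → ℤ) (s : Finset (Fin n)) (z : ℤ) : 0 ≤ L a s z := by
  unfold L E
  apply div_nonneg
  · apply sum_nonneg
    intro x _
    unfold ind; split_ifs <;> norm_num
  · positivity

/-- unimodality on the lattice of multiples of `c` (step `2 c`). -/
def UL (a : Fin n → ℤ) (s : Finset (Fin n)) (c : ℤ) : Prop :=
  ∀ k : ℤ, 0 ≤ k → L a s (c * (k + 2)) ≤ L a s (c * k)

theorem UL_zero (a : Fin n → ℤ) (s : Finset (Fin n)) (h : ∀ i ∈ s, a i = 0) (c : ℤ) (hc : 0 < c) :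
    UL a s c := by
  intro k hk
  have h1 : L a s (c * (k + 2)) = 0 := by
    unfold L E
    rw [div_eq_zero_iff]
    left
    apply sum_eq_zero
    intro x _
    unfold ind
    rw [if_neg]
    intro hh
    have : Sf a s x = 0 := by
      unfold Sf
      apply sum_eq_zero
      intro i hi
      rw [h i hi]; ring
    rw [this] at hh
    have : 0 < c * (k + 2) := by positivity
    omega
  rw [h1]
  exact L_nonneg a s _

/-- adding a bit of weight `c` to a sum of multiples of `2 c` which is unimodal on its lattice -/
theorem UL_first (a : Fin n → ℤ) (s : Finset (Fin n)) (i : Fin n) (hi : i ∉ s) (c : ℤ) (hc : 0 < c)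
    (hai : a i = c) (hs : ∀ k ∈ s, 2 * c ∣ a k) (hU : UL a s (2 * c)) : UL a (insert i s) c := by
  intro k hk
  rw [L_insert a s i hi, L_insert a s i hi, hai]
  have e1 : c * (k + 2) - c = c * k + c := by ring
  have e2 : c * (k + 2) + c = c * (k + 3) := by ring
  have e3 : c * k - c = c * (k - 1) := by ring
  rw [e1, e2, e3]
  have key : L a s (c * (k + 3)) ≤ L a s (c * (k - 1)) := by
    rcases Int.even_or_odd k with ⟨m, hm⟩ | ⟨m, hm⟩
    · have h0 : L a s (c * (k + 3)) = 0 := by
        apply L_supp a s (2 * c) hs
        rintro ⟨w, hw⟩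
        have : c * (k + 3) = c * (2 * w) := by rw [hw]; ring
        have := mul_left_cancel₀ hc.ne' this
        omega
      rw [h0]
      exact L_nonneg a s _
    · have h1 := hU m (by omega)
      rw [show c * (k + 3) = 2 * c * (m + 2) by rw [hm]; ring,
        show c * (k - 1) = 2 * c * m by rw [hm]; ring]
      exact h1
  linarith

/-- adding a bit of weight `c` to a sum which is unimodal on the lattice of multiples of `c` -/
theorem UL_more (a : Fin n → ℤ) (s : Finset (Fin n)) (i : Fin n) (hi : i ∉ s) (c : ℤ)
    (hai : a i = c) (hU : UL a s c) : UL a (insert i s) c := by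
  intro k hk
  rw [L_insert a s i hi, L_insert a s i hi, hai]
  have e1 : c * (k + 2) - c = c * k + c := by ring
  have e2 : c * (k + 2) + c = c * (k + 3) := by ring
  have e3 : c * k - c = c * (k - 1) := by ring
  rw [e1, e2, e3]
  have key : L a s (c * (k + 3)) ≤ L a s (c * (k - 1)) := by
    by_cases h0 : k = 0
    · subst h0
      have := hU 1 (by norm_num)
      have h2 := L_even a s c
      rw [show c * (0 - 1) = -c by ring, h2]
      rw [show c * (0 + 3) = c * (1 + 2) by ring]
      simpa using this
    · have h1 := hU (k - 1) (by omega)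
      have h2 := hU (k + 1) (by omega)
      rw [show c * (k - 1 + 2) = c * (k + 1) by ring] at h1
      rw [show c * (k + 1 + 2) = c * (k + 3) by ring] at h2
      linarith
  linarith

theorem UL_more_set (a : Fin n → ℤ) (s t : Finset (Fin n)) (c : ℤ) (hd : Disjoint s t)
    (ht : ∀ i ∈ t, a i = c) (hU : UL a s c) : UL a (t ∪ s) c := by
  classical
  induction t using Finset.induction_on with
  | empty => simpa using hU
  | insert i t hit ih =>
    have h1 : UL a (t ∪ s) c := ih (by
      rw [disjoint_insert_right] at hd; exact hd.2) (fun k hk => ht k (mem_insert_of_mem hk))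
    rw [insert_union]
    apply UL_more a (t ∪ s) i _ c (ht i (mem_insert_self _ _)) h1
    rw [disjoint_insert_right] at hd
    rw [mem_union, not_or]
    exact ⟨hit, hd.1⟩

/-- Dyadic weights: if each nonzero weight of the index set `s` is a power of two and with
`2 ^ (l + 1)` also `2 ^ l` occurs, the law of the partial form is unimodal. -/
theorem UL_dyadic (a : Fin n → ℤ) (s : Finset (Fin n))
    (hp : ∀ i ∈ s, a i = 0 ∨ ∃ l : ℕ, a i = 2 ^ l)
    (hch : ∀ l : ℕ, (∃ i ∈ s, a i = 2 ^ (l + 1)) → ∃ i ∈ s, a i = 2 ^ l) :
    UL a s 1 := by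
  classical
  -- a bound for the levels
  obtain ⟨M, hM⟩ : ∃ M : ℕ, ∀ i ∈ s, a i < 2 ^ M := by
    obtain ⟨M, hM⟩ : ∃ M : ℕ, ∀ i ∈ s, a i ≤ M := by
      refine ⟨∑ i ∈ s, (a i).natAbs, ?_⟩
      intro i hi
      have h1 : (a i).natAbs ≤ ∑ i ∈ s, (a i).natAbs :=
        single_le_sum (f := fun i => (a i).natAbs) (fun _ _ => Nat.zero_le _) hi
      have h2 : a i ≤ (a i).natAbs := Int.le_natAbs
      have h3 : ((a i).natAbs : ℤ) ≤ ((∑ i ∈ s, (a i).natAbs : ℕ) : ℤ) := by exact_mod_cast h1
      exact h2.trans h3
    refine ⟨M, fun i hi => (hM i hi).trans_lt ?_⟩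
    have := Nat.lt_two_pow_self (n := M)
    exact_mod_cast this
  -- chain: if some weight is at least `2 ^ l` then `2 ^ l` occurs
  have hch2 : ∀ d l : ℕ, (∃ i ∈ s, a i = 2 ^ (l + d)) → ∃ i ∈ s, a i = 2 ^ l := by
    intro d
    induction d with
    | zero => intro l h; simpa using h
    | succ d ih =>
      intro l h
      apply ih l
      apply hch (l + d)
      rwa [show l + d + 1 = l + (d + 1) by ring]
  have main : ∀ d : ℕ, d ≤ M → UL a (s.filter (fun i => a i = 0 ∨ (2:ℤ) ^ (M - d) ≤ a i)) (2 ^ (M - d)) := by
    intro d
    induction d with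
    | zero =>
      intro _
      apply UL_zero
      · intro i hi
        rw [mem_filter] at hi
        rcases hi.2 with h | h
        · exact h
        · exfalso
          have := hM i hi.1
          rw [Nat.sub_zero] at h
          omega
      · positivity
    | succ d ih =>
      intro hd
      have hU := ih (by omega)
      set l := M - (d + 1) with hl
      have hl1 : M - d = l + 1 := by omega
      rw [hl1] at hU
      set s1 := s.filter (fun i => a i = 0 ∨ (2:ℤ) ^ (l + 1) ≤ a i) with hs1
      by_cases hne : ∃ i ∈ s, a i = 2 ^ l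
      · obtain ⟨i0, hi0, hai0⟩ := hne
        set t := (s.filter (fun i => a i = 2 ^ l)).erase i0 with ht
        have hpow : (2:ℤ) ^ l < 2 ^ (l + 1) := by
          rw [pow_succ]; have : (0:ℤ) < 2 ^ l := by positivity
          omega
        have hpow0 : (0:ℤ) < 2 ^ l := by positivity
        have hset : s.filter (fun i => a i = 0 ∨ (2:ℤ) ^ l ≤ a i) = t ∪ insert i0 s1 := by
          ext i
          rw [mem_filter, mem_union, mem_insert, ht, mem_erase, mem_filter, hs1, mem_filter]
          constructor
          · rintro ⟨his, h⟩
            by_cases hii : i = i0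
            · right; left; exact hii
            · rcases h with h | h
              · right; right; exact ⟨his, Or.inl h⟩
              · rcases hp i his with h0 | ⟨l', hl'⟩
                · right; right; exact ⟨his, Or.inl h0⟩
                · rcases Nat.lt_trichotomy l' l with h3 | h3 | h3
                  · exfalso
                    rw [hl'] at h
                    have : (2:ℤ) ^ l' < 2 ^ l := pow_lt_pow_right₀ (by norm_num) h3
                    omega
                  · left; exact ⟨hii, his, by rw [hl', h3]⟩
                  · right; right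
                    refine ⟨his, Or.inr ?_⟩
                    rw [hl']
                    exact pow_le_pow_right₀ (by norm_num) h3
          · rintro (⟨_, his, h⟩ | rfl | ⟨his, h | h⟩)
            · exact ⟨his, Or.inr h.ge⟩
            · exact ⟨hi0, Or.inr hai0.ge⟩
            · exact ⟨his, Or.inl h⟩
            · exact ⟨his, Or.inr (hpow.le.trans h)⟩
        rw [hset]
        have hi0s1 : i0 ∉ s1 := by
          rw [hs1, mem_filter]
          rintro ⟨_, h | h⟩
          · rw [hai0] at h; omega
          · rw [hai0] at h; omega
        apply UL_more_set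
        · rw [Finset.disjoint_left]
          intro i hi hit
          rw [ht, mem_erase, mem_filter] at hit
          rw [mem_insert] at hi
          rcases hi with hi | hi
          · exact hit.1 hi
          · rw [hs1, mem_filter] at hi
            rcases hi.2 with h | h
            · rw [hit.2.2] at h; omega
            · rw [hit.2.2] at h; omega
        · intro i hi
          rw [ht, mem_erase, mem_filter] at hi
          exact hi.2.2
        · apply UL_first a s1 i0 hi0s1 _ hpow0 hai0
          · intro k hk
            rw [hs1, mem_filter] at hk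
            rcases hk.2 with h | h
            · rw [h]; exact dvd_zero _
            · rcases hp k hk.1 with h0 | ⟨l', hl'⟩
              · rw [h0]; exact dvd_zero _
              · have : l + 1 ≤ l' := by
                  by_contra hcon
                  have h4 : l' < l + 1 := by omega
                  have : (2:ℤ) ^ l' < 2 ^ (l + 1) := pow_lt_pow_right₀ (by norm_num) h4
                  rw [hl'] at h; omega
                rw [hl', show 2 * (2:ℤ) ^ l = 2 ^ (l + 1) by rw [pow_succ]; ring]
                exact pow_dvd_pow 2 this
          · rw [show 2 * (2:ℤ) ^ l = 2 ^ (l + 1) by rw [pow_succ]; ring]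
            exact hU
      · apply UL_zero
        · intro i hi
          rw [mem_filter] at hi
          rcases hi.2 with h | h
          · exact h
          · rcases hp i hi.1 with h0 | ⟨l', hl'⟩
            · exact h0
            · exfalso
              apply hne
              have hle : l ≤ l' := by
                by_contra hcon
                have h4 : l' < l := by omega
                have : (2:ℤ) ^ l' < 2 ^ l := pow_lt_pow_right₀ (by norm_num) h4
                rw [hl'] at h; omega
              apply hch2 (l' - l) l
              refine ⟨i, hi.1, ?_⟩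
              rw [hl']
              congr 1
              omega
        · positivity
  have hfin := main M le_rfl
  rw [Nat.sub_self, pow_zero] at hfin
  have hall : s.filter (fun i => a i = 0 ∨ (1:ℤ) ≤ a i) = s := by
    apply filter_true_of_mem
    intro i hi
    rcases hp i hi with h | ⟨l, hl⟩
    · left; exact h
    · right; rw [hl]
      have : (0:ℤ) < 2 ^ l := by positivity
      omega
  rw [hall] at hfin
  exact hfin

end Pool.Agent.MP_cb3c9c_an.UNI
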