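import Pool.Agent.MP_cb3c9c_an.UNI.Core

set_option autoImplicit false

open Finset

namespace Pool.Agent.MP_cb3c9c_an.UNI

variable {n : ℕ}

/-- two more unit bits -/
def two (a : Fin n → ℤ) : Fin (n + 2) → ℤ := Fin.cons 1 (Fin.cons 1 a)

theorem Zf_cons (c : ℤ) (a : Fin n → ℤ) (b : Bool) (x : Fin n → Bool) :
    Zf (Fin.cons c a : Fin (n + 1) → ℤ) (Fin.cons b x : Fin (n + 1) → Bool) = c * sg b + Zf a x := by
  unfold Zf
  rw [Fin.sum_univ_succ]
  simp

theorem two_Zf (a : Fin n → ℤ) (b c : Bool) (x : Fin n → Bool) :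
    Zf (two a) (Fin.cons b (Fin.cons c x : Fin (n + 1) → Bool) : Fin (n + 2) → Bool)
      = sg b + sg c + Zf a x := by
  unfold two
  rw [Zf_cons, Zf_cons]; ring

theorem E_two (F : (Fin (n + 2) → Bool) → ℝ) :
    E F = E (fun x : Fin n → Bool =>
      (F (Fin.cons false (Fin.cons false x : Fin (n + 1) → Bool))
        + F (Fin.cons false (Fin.cons true x : Fin (n + 1) → Bool))
        + F (Fin.cons true (Fin.cons false x : Fin (n + 1) → Bool))
        + F (Fin.cons true (Fin.cons true x : Fin (n + 1) → Bool))) / 4) := by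
  rw [E_succ F, E_succ (fun x => F (Fin.cons false x)), E_succ (fun x => F (Fin.cons true x))]
  have h4 : ∀ G : (Fin n → Bool) → ℝ, E (fun x => G x / 4) = E G / 4 := by
    intro G
    have := E_mul (1/4) G
    rw [show (fun x => G x / 4) = (fun x => 1 / 4 * G x) from by funext x; ring, this]; ring
  rw [h4, E_add, E_add, E_add]
  ring

theorem sgF : sg false = 1 := rfl
theorem sgT : sg true = -1 := rfl

theorem sum_two (a : Fin n → ℤ) : ∑ i, two a i = (∑ i, a i) + 2 := by
  unfold two
  rw [Fin.sum_univ_succ, Fin.sum_univ_succ]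
  simp; ring

theorem two_odd (a : Fin n → ℤ) (h : Odd (∑ i, a i)) : Odd (∑ i, two a i) := by
  rw [sum_two]; exact h.add_even even_two

theorem sn_avg (z : ℤ) (h : Odd z) :
    (sn (z + 2) + 2 * sn z + sn (z - 2)) / 4 = sn z - ind z 1 / 2 + ind z (-1) / 2 := by
  obtain ⟨w, hw⟩ := h
  have hpos : ∀ t : ℤ, 0 < t → sn t = 1 := by
    intro t ht; unfold sn; rw [Int.sign_eq_one_of_pos ht]; norm_num
  have hneg : ∀ t : ℤ, t < 0 → sn t = -1 := by
    intro t ht; unfold sn; rw [Int.sign_eq_neg_one_of_neg ht]; norm_num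
  rcases lt_trichotomy z 0 with h0 | h0 | h0
  · by_cases h1 : z = -1
    · subst h1
      rw [hpos (-1 + 2) (by norm_num), hneg (-1) (by norm_num), hneg (-1 - 2) (by norm_num)]
      unfold ind; norm_num
    · rw [hneg (z + 2) (by omega), hneg z (by omega), hneg (z - 2) (by omega)]
      unfold ind
      rw [if_neg (by omega), if_neg (by omega)]; norm_num
  · omega
  · by_cases h1 : z = 1
    · subst h1
      rw [hpos (1 + 2) (by norm_num), hpos 1 (by norm_num), hneg (1 - 2) (by norm_num)]
      unfold ind; norm_num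
    · rw [hpos (z + 2) (by omega), hpos z (by omega), hpos (z - 2) (by omega)]
      unfold ind
      rw [if_neg (by omega), if_neg (by omega)]; norm_num

theorem sn_diff (z : ℤ) (h : Odd z) :
    (sn (z + 2) - sn (z - 2)) / 4 = (ind z 1 + ind z (-1)) / 2 := by
  obtain ⟨w, hw⟩ := h
  have hpos : ∀ t : ℤ, 0 < t → sn t = 1 := by
    intro t ht; unfold sn; rw [Int.sign_eq_one_of_pos ht]; norm_num
  have hneg : ∀ t : ℤ, t < 0 → sn t = -1 := by
    intro t ht; unfold sn; rw [Int.sign_eq_neg_one_of_neg ht]; norm_num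
  rcases lt_trichotomy z 0 with h0 | h0 | h0
  · by_cases h1 : z = -1
    · subst h1
      rw [hpos (-1 + 2) (by norm_num), hneg (-1 - 2) (by norm_num)]
      unfold ind; norm_num
    · rw [hneg (z + 2) (by omega), hneg (z - 2) (by omega)]
      unfold ind
      rw [if_neg (by omega), if_neg (by omega)]; norm_num
  · omega
  · by_cases h1 : z = 1
    · subst h1
      rw [hpos (1 + 2) (by norm_num), hneg (1 - 2) (by norm_num)]
      unfold ind; norm_num
    · rw [hpos (z + 2) (by omega), hpos (z - 2) (by omega)]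
      unfold ind
      rw [if_neg (by omega), if_neg (by omega)]; norm_num

theorem p1_neg (a : Fin n → ℤ) : E (fun x => ind (Zf a x) (-1)) = p1 a := by
  unfold p1
  rw [← E_neg (fun x => ind (Zf a x) (-1))]
  apply E_congr
  intro x
  rw [Zf_not, ind_neg, neg_neg]

theorem ev_neg (a : Fin n → ℤ) (j : Fin n) :
    E (fun x => (sg (x j) : ℝ) * ind (Zf a x) (-1)) = - ev a j := by
  unfold ev
  rw [← E_neg (fun x => (sg (x j) : ℝ) * ind (Zf a x) (-1))]
  have : -E (fun x => (sg (x j) : ℝ) * ind (Zf a x) 1)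
      = E (fun x => (-1) * ((sg (x j) : ℝ) * ind (Zf a x) 1)) := by
    rw [E_mul]; ring
  rw [this]
  apply E_congr
  intro x
  rw [Zf_not, ind_neg, neg_neg, sg_not]
  push_cast; ring

theorem p_two_0 (a : Fin n → ℤ) (h : Odd (∑ i, a i)) : p (two a) 0 = p1 a := by
  unfold p
  rw [E_two]
  have h1 : E (fun x : Fin n → Bool => (ind (Zf a x) 1 + ind (Zf a x) (-1)) / 2) = p1 a := by
    have h2 : ∀ G : (Fin n → Bool) → ℝ, E (fun x => G x / 2) = E G / 2 := by
      intro G
      have := E_mul (1/2) G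
      rw [show (fun x => G x / 2) = (fun x => 1 / 2 * G x) from by funext x; ring, this]; ring
    rw [h2, E_add, p1_neg]
    unfold p1; ring
  rw [← h1]
  apply E_congr
  intro x
  rw [← sn_diff _ (Zf_odd a h x)]
  simp only [two_Zf, Fin.cons_zero, sgF, sgT]
  rw [show (1:ℤ) + 1 + Zf a x = Zf a x + 2 by ring, show (1:ℤ) + -1 + Zf a x = Zf a x by ring,
    show (-1:ℤ) + 1 + Zf a x = Zf a x by ring, show (-1:ℤ) + -1 + Zf a x = Zf a x - 2 by ring]
  push_cast; ring

theorem p_two_1 (a : Fin n → ℤ) (h : Odd (∑ i, a i)) : p (two a) 1 = p1 a := by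
  unfold p
  rw [E_two]
  have h1 : E (fun x : Fin n → Bool => (ind (Zf a x) 1 + ind (Zf a x) (-1)) / 2) = p1 a := by
    have h2 : ∀ G : (Fin n → Bool) → ℝ, E (fun x => G x / 2) = E G / 2 := by
      intro G
      have := E_mul (1/2) G
      rw [show (fun x => G x / 2) = (fun x => 1 / 2 * G x) from by funext x; ring, this]; ring
    rw [h2, E_add, p1_neg]
    unfold p1; ring
  rw [← h1]
  apply E_congr
  intro x
  rw [← sn_diff _ (Zf_odd a h x)]
  have hc : ∀ b c : Bool, (Fin.cons b (Fin.cons c x : Fin (n + 1) → Bool) : Fin (n + 2) → Bool) 1 = c := by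
    intro b c; rfl
  simp only [two_Zf, hc, sgF, sgT]
  rw [show (1:ℤ) + 1 + Zf a x = Zf a x + 2 by ring, show (1:ℤ) + -1 + Zf a x = Zf a x by ring,
    show (-1:ℤ) + 1 + Zf a x = Zf a x by ring, show (-1:ℤ) + -1 + Zf a x = Zf a x - 2 by ring]
  push_cast; ring

theorem p_two_succ (a : Fin n → ℤ) (h : Odd (∑ i, a i)) (j : Fin n) :
    p (two a) j.succ.succ = p a j - ev a j := by
  unfold p
  rw [E_two]
  have h1 : E (fun x : Fin n → Bool => (sg (x j) : ℝ) * (sn (Zf a x) - ind (Zf a x) 1 / 2
      + ind (Zf a x) (-1) / 2)) = E (fun x => (sg (x j) : ℝ) * sn (Zf a x)) - ev a j := by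
    have e1 : E (fun x : Fin n → Bool => (sg (x j) : ℝ) * (sn (Zf a x) - ind (Zf a x) 1 / 2
      + ind (Zf a x) (-1) / 2)) = E (fun x => ((sg (x j) : ℝ) * sn (Zf a x)
        - (1/2) * ((sg (x j) : ℝ) * ind (Zf a x) 1)) + (1/2) * ((sg (x j) : ℝ) * ind (Zf a x) (-1))) := by
      apply E_congr; intro x; ring
    rw [e1, E_add, E_sub, E_mul, E_mul, ev_neg]
    unfold ev; ring
  rw [← h1]
  apply E_congr
  intro x
  rw [← sn_avg _ (Zf_odd a h x)]
  have hc : ∀ b c : Bool, (Fin.cons b (Fin.cons c x : Fin (n + 1) → Bool) : Fin (n + 2) → Bool)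
      j.succ.succ = x j := by
    intro b c; rfl
  simp only [two_Zf, hc, sgF, sgT]
  rw [show (1:ℤ) + 1 + Zf a x = Zf a x + 2 by ring, show (1:ℤ) + -1 + Zf a x = Zf a x by ring,
    show (-1:ℤ) + 1 + Zf a x = Zf a x by ring, show (-1:ℤ) + -1 + Zf a x = Zf a x - 2 by ring]
  ring

theorem W_two (a : Fin n → ℤ) (h : Odd (∑ i, a i)) :
    W (two a) = 2 * (p1 a) ^ 2 + ∑ j, (p a j - ev a j) ^ 2 := by
  unfold W
  rw [Fin.sum_univ_succ, Fin.sum_univ_succ, p_two_0 a h]
  have h1 : p (two a) (Fin.succ 0) = p1 a := p_two_1 a h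
  rw [h1]
  have h2 : ∀ j : Fin n, p (two a) j.succ.succ = p a j - ev a j := p_two_succ a h
  simp_rw [h2]
  ring

/-- `a` has nonnegative weights, odd total weight, and the laws of the forms without a coordinate
of weight at least three are unimodal. -/
structure Good (a : Fin n → ℤ) : Prop where
  nn : ∀ i, 0 ≤ a i
  odd : Odd (∑ i, a i)
  uni : ∀ i, 3 ≤ a i → Uni a i

theorem ev_zero (a : Fin n → ℤ) (j : Fin n) (h : a j = 0) : ev a j = 0 := by
  rw [ev_eq, h]; simp

theorem W_two_le (a : Fin n → ℤ) (h : Good a) : W (two a) ≤ W a := by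
  rw [W_two a h.odd]
  have hs := sum_ev a
  have hkey : ∀ j ∈ (univ : Finset (Fin n)),
      2 * ((a j : ℝ) * ev a j) * p1 a ≤ (p a j) ^ 2 - (p a j - ev a j) ^ 2 := by
    intro j _
    obtain ⟨m, hm⟩ := Int.eq_ofNat_of_zero_le (h.nn j)
    have hm' : a j = (m : ℤ) := hm
    have h1 := rev_nonneg a h.odd j m hm' (fun h3 => h.uni j (by rw [hm']; exact_mod_cast h3))
    have h2 := p1_add_ev a j
    rw [hm'] at h2
    rw [← h2] at h1
    have hcast : (a j : ℝ) = (m : ℝ) := by rw [hm']; norm_cast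
    rw [hcast]
    rcases Nat.eq_zero_or_pos m with h0 | h0
    · have : ev a j = 0 := ev_zero a j (by rw [hm', h0]; rfl)
      rw [this]; simp
    · have h3 : (1:ℝ) ≤ (m:ℝ) := by exact_mod_cast h0
      have h4 : 0 ≤ ev a j ^ 2 := sq_nonneg _
      nlinarith [mul_nonneg (sub_nonneg.mpr h3) h4]
  have := sum_le_sum hkey
  rw [← sum_mul, ← mul_sum, hs, sum_sub_distrib] at this
  unfold W
  nlinarith [this]

theorem q_two (a : Fin n → ℤ) (j : Fin n) (z : ℤ) :
    q (two a) j.succ.succ z = (q a j (z - 2) + 2 * q a j z + q a j (z + 2)) / 4 := by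
  unfold q
  rw [E_two]
  have h4 : ∀ G : (Fin n → Bool) → ℝ, E (fun x => G x / 4) = E G / 4 := by
    intro G
    have := E_mul (1/4) G
    rw [show (fun x => G x / 4) = (fun x => 1 / 4 * G x) from by funext x; ring, this]; ring
  rw [← E_mul, ← E_add, ← E_add, ← h4]
  apply E_congr
  intro x
  have hY : ∀ b c : Bool, Yf (two a) j.succ.succ
      (Fin.cons b (Fin.cons c x : Fin (n + 1) → Bool) : Fin (n + 2) → Bool)
      = sg b + sg c + Yf a j x := by
    intro b c
    unfold Yf
    rw [two_Zf]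
    have e1 : two a j.succ.succ = a j := rfl
    have e2 : (Fin.cons b (Fin.cons c x : Fin (n + 1) → Bool) : Fin (n + 2) → Bool) j.succ.succ = x j := rfl
    rw [e1, e2]; ring
  simp only [hY, sgF, sgT]
  have i1 : ind (1 + 1 + Yf a j x) z = ind (Yf a j x) (z - 2) := by
    unfold ind
    by_cases h : Yf a j x = z - 2
    · rw [if_pos h, if_pos (by omega)]
    · rw [if_neg h, if_neg (by omega)]
  have i2 : ind (1 + -1 + Yf a j x) z = ind (Yf a j x) z := by
    unfold ind
    by_cases h : Yf a j x = z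
    · rw [if_pos h, if_pos (by omega)]
    · rw [if_neg h, if_neg (by omega)]
  have i3 : ind (-1 + 1 + Yf a j x) z = ind (Yf a j x) z := by
    unfold ind
    by_cases h : Yf a j x = z
    · rw [if_pos h, if_pos (by omega)]
    · rw [if_neg h, if_neg (by omega)]
  have i4 : ind (-1 + -1 + Yf a j x) z = ind (Yf a j x) (z + 2) := by
    unfold ind
    by_cases h : Yf a j x = z + 2
    · rw [if_pos h, if_pos (by omega)]
    · rw [if_neg h, if_neg (by omega)]
  rw [i1, i2, i3, i4]; ring

theorem Good_two (a : Fin n → ℤ) (h : Good a) : Good (two a) where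
  nn := by
    intro i
    refine Fin.cases ?_ (fun i => ?_) i
    · show (0:ℤ) ≤ 1; norm_num
    · refine Fin.cases ?_ (fun i => ?_) i
      · show (0:ℤ) ≤ 1; norm_num
      · exact h.nn i
  odd := two_odd a h.odd
  uni := by
    intro i
    refine Fin.cases ?_ (fun i => ?_) i
    · intro h3
      have : two a 0 = 1 := rfl
      rw [this] at h3; omega
    · refine Fin.cases ?_ (fun i => ?_) i
      · intro h3
        have : two a (Fin.succ 0) = 1 := rfl
        rw [this] at h3; omega
      · intro h3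
        have e1 : two a i.succ.succ = a i := rfl
        rw [e1] at h3
        have hU := h.uni i h3
        intro z hz
        rw [q_two, q_two]
        have h1 := hU z hz
        have h2 := hU (z + 2) (by omega)
        have hm : q a i z ≤ q a i (z - 2) ∨ (z = 0 ∨ z = 1) := by
          by_cases hz2 : 2 ≤ z
          · left
            have := hU (z - 2) (by omega)
            rwa [show z - 2 + 2 = z by ring] at this
          · right; omega
        rw [show z + 2 - 2 = z by ring, show z + 2 + 2 = z + 4 by ring]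
        rw [show z + 2 + 2 = z + 4 by ring] at h2
        rcases hm with hm | hm | hm
        · linarith
        · subst hm
          have := q_symm a i 2
          rw [show (0:ℤ) - 2 = -2 by ring, this]
          norm_num at h1 h2 ⊢
          linarith
        · subst hm
          have := q_symm a i 1
          rw [show (1:ℤ) - 2 = -1 by ring, this]
          norm_num at h1 h2 ⊢
          linarith

end Pool.Agent.MP_cb3c9c_an.UNI
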